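import Pool.Agent.SYS.VI.Uu
import Pool.Agent.SYS.RL.All
import Pool.Agent.SYS.PL.Law
import Pool.Agent.SYS.PL.RwC

/-!
# SYS-VI-Ub: upper bounds for holes of larger perimeter (2.7)

A word from `p` to `p'` with small volume and positive probability (`hitting`, `hist_UU`), then `both`; `ub_low` by
`one` (monotonicity in the perimeter) and `both`.
-/

namespace SYS.Num

variable {θ x : ℝ}

private theorem ub_A (x : ℝ) : 0 < AA x := by
  have := AA_gt x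
  linarith

private theorem ub_r (x : ℝ) : 0 < √(yy x) := Real.sqrt_pos.2 (yy_pos x)

/-- comparison of two numbers of triangles in the normalisation of `UU` -/
private theorem ub_cmp {Q : Multiset ℕ} {F g p v v₀ : ℕ} {E : ℝ} (hv : v ≤ F) (hv₀ : v₀ ≤ F)
    (h : muG (p ::ₘ Q) (F - v) g * √(yy x) ^ v₀ ≤ E * √(yy x) ^ v * muG (p ::ₘ Q) (F - v₀) g) :
    UU x Q g p (F - v) ≤ E * UU x Q g p (F - v₀) := by
  have hr := ub_r x
  have hA := ub_A x
  have e1 : √(yy x) ^ (F - v + p) * √(yy x) ^ v = √(yy x) ^ (F + p) := by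
    rw [← pow_add]
    congr 1
    omega
  have e2 : √(yy x) ^ (F - v₀ + p) * √(yy x) ^ v₀ = √(yy x) ^ (F + p) := by
    rw [← pow_add]
    congr 1
    omega
  unfold UU
  have hpos : 0 < √(yy x) ^ v * √(yy x) ^ v₀ * AA x ^ p := by positivity
  refine le_of_mul_le_mul_right ?_ hpos
  have hAp : AA x ^ p ≠ 0 := (pow_pos hA p).ne'
  have l1 : muG (p ::ₘ Q) (F - v) g * √(yy x) ^ (F - v + p) / AA x ^ p *
      (√(yy x) ^ v * √(yy x) ^ v₀ * AA x ^ p) =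
      (muG (p ::ₘ Q) (F - v) g * √(yy x) ^ v₀) * √(yy x) ^ (F + p) := by
    rw [← e1]
    field_simp
  have l2 : E * (muG (p ::ₘ Q) (F - v₀) g * √(yy x) ^ (F - v₀ + p) / AA x ^ p) *
      (√(yy x) ^ v * √(yy x) ^ v₀ * AA x ^ p) =
      (E * √(yy x) ^ v * muG (p ::ₘ Q) (F - v₀) g) * √(yy x) ^ (F + p) := by
    rw [← e2]
    field_simp
  rw [l1, l2]
  exact mul_le_mul_of_nonneg_right h (pow_pos hr _).le

/-- some word of positive probability is at least as good as the average -/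
private theorem ub_pick {p p' F g : ℕ} {Q : Multiset ℕ} {c₀ : ℝ} (hc₀ : 0 < c₀) (S : Finset (List Stp))
    (hsum : c₀ ≤ ∑ w ∈ S, PRW x w) (hend : ∀ w ∈ S, wend p w = p')
    (hist : ∑ w ∈ S, PRW x w * UU x Q g (wend p w) (F - wvol w) ≤ UU x Q g p F) :
    ∃ w ∈ S, 0 < PRW x w ∧ c₀ * UU x Q g p' (F - wvol w) ≤ UU x Q g p F := by
  have hPR : ∀ w, 0 ≤ PRW x w := fun w => wwt_nonneg (ub_A x).le (qq_nonneg x) w
  by_contra hcon
  have hcon' : ∀ w ∈ S, 0 < PRW x w → UU x Q g p F < c₀ * UU x Q g p' (F - wvol w) := by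
    intro w hw h1
    by_contra h2
    exact hcon ⟨w, hw, h1, not_lt.mp h2⟩
  have hex : ∃ w ∈ S, 0 < PRW x w := by
    by_contra h1
    have h2 : ∑ w ∈ S, PRW x w ≤ 0 := by
      refine Finset.sum_nonpos fun w hw => ?_
      by_contra h3
      exact h1 ⟨w, hw, not_le.mp h3⟩
    linarith
  have hlt : ∑ w ∈ S, PRW x w * UU x Q g p F <
      ∑ w ∈ S, PRW x w * (c₀ * UU x Q g p' (F - wvol w)) := by
    refine Finset.sum_lt_sum ?_ ?_
    · intro w hw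
      rcases (hPR w).eq_or_lt with h1 | h1
      · rw [← h1, zero_mul, zero_mul]
      · exact (mul_lt_mul_of_pos_left (hcon' w hw h1) h1).le
    · obtain ⟨w, hw, h1⟩ := hex
      exact ⟨w, hw, mul_lt_mul_of_pos_left (hcon' w hw h1) h1⟩
  have h1 : c₀ * UU x Q g p F ≤ ∑ w ∈ S, PRW x w * UU x Q g p F := by
    rw [← Finset.sum_mul]
    exact mul_le_mul_of_nonneg_right hsum (UU_nonneg x Q g p F)
  have h2 : ∑ w ∈ S, PRW x w * (c₀ * UU x Q g p' (F - wvol w)) =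
      c₀ * ∑ w ∈ S, PRW x w * UU x Q g (wend p w) (F - wvol w) := by
    rw [Finset.mul_sum]
    refine Finset.sum_congr rfl fun w hw => ?_
    rw [hend w hw]
    ring
  rw [h2] at hlt
  have h3 := mul_le_mul_of_nonneg_left hist hc₀.le
  linarith

private theorem one_iter (Q : Multiset ℕ) (g p : ℕ) (hp : 1 ≤ p) (F : ℕ) : ∀ d : ℕ,
    muG (p ::ₘ Q) F g ≤ muG ((p + d) ::ₘ Q) (F + d) g := by
  intro d
  induction d with
  | zero => exact le_rfl
  | succ d ih => exact ih.trans (one (p + d) (by omega) Q (F + d) g)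

theorem ub (h : Par θ x) {ε : ℝ} (hε : 0 < ε) : ∃ (K δ : ℝ) (M : ℕ), 0 < K ∧ 0 < δ ∧
    ∀ (Q : Multiset ℕ) (F g p p' v : ℕ), 1 ≤ p → p ≤ p' → v ≤ F → Even (p + p' + v) →
      Win θ δ M (p' ::ₘ Q) F g →
      UU x Q g p' (F - v) ≤ K * Real.exp (ε * ((p' - p : ℕ) + v)) * UU x Q g p F := by
  obtain ⟨hθ, hθ1, hx, -⟩ := id h
  obtain ⟨c₀, C₀, hc₀, hhit⟩ := hitting hx
  have hC : (0 : ℝ) < (C₀ : ℝ) + 1 := by positivity
  obtain ⟨δ', M', hδ', hboth⟩ := both h (ε := ε / (C₀ + 1)) (div_pos hε hC)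
  obtain ⟨δ₁, hδ₁⟩ : ∃ δ₁ : ℝ, δ₁ = min δ' 1 := ⟨_, rfl⟩
  have hδ₁0 : 0 < δ₁ := by rw [hδ₁]; exact lt_min hδ' one_pos
  have hδ₁a : δ₁ ≤ δ' := by rw [hδ₁]; exact min_le_left _ _
  have hδ₁b : δ₁ ≤ 1 := by rw [hδ₁]; exact min_le_right _ _
  obtain ⟨δ, hδ⟩ : ∃ δ : ℝ, δ = min (δ₁ / (2 * ((C₀ : ℝ) + 1))) (θ / 2) := ⟨_, rfl⟩
  have hδ0 : 0 < δ := by
    rw [hδ]
    exact lt_min (by positivity) (by positivity)
  have hδa : δ * (2 * ((C₀ : ℝ) + 1)) ≤ δ₁ := by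
    have h1 : δ ≤ δ₁ / (2 * ((C₀ : ℝ) + 1)) := by rw [hδ]; exact min_le_left _ _
    exact (le_div_iff₀ (by positivity)).mp h1
  have hδb : δ ≤ θ / 2 := by rw [hδ]; exact min_le_right _ _
  have hC0 : (0 : ℝ) ≤ C₀ := Nat.cast_nonneg _
  have hδc : δ ≤ δ' := by nlinarith
  obtain ⟨M₁, hM₁⟩ := exists_nat_ge (2 * (C₀ : ℝ) / δ₁)
  refine ⟨Real.exp ε / c₀, δ, max (max M' M₁) 1, by positivity, hδ0, ?_⟩
  intro Q F g p p' v hp hpp hv hev hW
  obtain ⟨w1, w2, w3, w4⟩ := id hW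
  have hF1 : 1 ≤ F := (le_max_right _ _).trans w1
  have hFM' : M' ≤ F := ((le_max_left _ _).trans (le_max_left _ _)).trans w1
  have hFM₁ : M₁ ≤ F := ((le_max_right _ _).trans (le_max_left _ _)).trans w1
  have hFR : (1 : ℝ) ≤ F := by exact_mod_cast hF1
  have hp' : (p' : ℝ) ≤ δ * F := by
    rw [Multiset.sum_cons] at w3
    push_cast at w3
    have h1 : (0 : ℝ) ≤ ((Q.sum : ℕ) : ℝ) := Nat.cast_nonneg _
    push_cast at h1
    linarith
  have hC1 : (C₀ : ℝ) ≤ δ₁ / 2 * F := by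
    have h1 : 2 * (C₀ : ℝ) / δ₁ ≤ F := hM₁.trans (by exact_mod_cast hFM₁)
    have h2 := (div_le_iff₀ hδ₁0).mp h1
    linarith
  have hC2 : (C₀ : ℝ) * δ ≤ δ₁ / 2 := by nlinarith
  have hvol : ∀ u : ℕ, u ≤ C₀ * (p' - p + 1) → (u : ℝ) ≤ δ₁ * F := by
    intro u hu
    have h1 : (u : ℝ) ≤ C₀ * (((p' - p : ℕ) : ℝ) + 1) := by exact_mod_cast hu
    have h2 : ((p' - p : ℕ) : ℝ) ≤ p' := by exact_mod_cast Nat.sub_le _ _
    have h3 : (C₀ : ℝ) * (((p' - p : ℕ) : ℝ) + 1) ≤ C₀ * (δ * F + 1) :=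
      mul_le_mul_of_nonneg_left (by linarith) hC0
    have h4 : (C₀ : ℝ) * (δ * F + 1) = C₀ * δ * F + C₀ := by ring
    have h5 : (C₀ : ℝ) * δ * F ≤ δ₁ / 2 * F := mul_le_mul_of_nonneg_right hC2 (by linarith)
    linarith
  have hg : g ≠ 0 := by
    intro hg0
    rw [hg0] at w2
    have h1 := (abs_le.mp w2).1
    push_cast at h1
    have h2 : 0 < θ * F := mul_pos hθ (by linarith)
    have h3 : δ * F ≤ θ / 2 * F := mul_le_mul_of_nonneg_right hδb (by linarith)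
    linarith
  obtain ⟨S, hpf, hS, hsum⟩ := hhit p p' hp hpp
  have hSF : ∀ w ∈ S, WOk p w ∧ wvol w ≤ F := by
    intro w hw
    obtain ⟨⟨a1, _, _⟩, a2⟩ := hS w hw
    refine ⟨a1, ?_⟩
    have h1 := hvol _ a2
    have h2 : (wvol w : ℝ) ≤ F := by nlinarith
    exact_mod_cast h2
  have hist := hist_UU x p hp Q F g (Or.inr hg) S hpf hSF
  obtain ⟨w, hw, hw0, hw1⟩ := ub_pick hc₀ S hsum (fun w hw => (hS w hw).1.2.1) hist
  obtain ⟨⟨a1, a2, _⟩, a3⟩ := hS w hw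
  have hne : wwt 1 W w ≠ 0 := by
    intro h0
    have h1 := PRW_eq x p w a1
    rw [h0, zero_mul, zero_mul] at h1
    exact (mul_pos (mul_pos hw0 (pow_pos (ub_A x) p)) (pow_pos (ub_r x) _)).ne' h1
  have hpar := word_par a1 hne
  rw [a2] at hpar
  have hpar' : Even (wvol w + v) := by
    rw [Nat.even_iff] at hpar hev ⊢
    omega
  have hvF : (wvol w : ℝ) ≤ δ' * F := (hvol _ a3).trans (mul_le_mul_of_nonneg_right hδ₁a (by linarith))
  have hb := hboth (p' ::ₘ Q) F g (wvol w) v (hW.mono hδc ((le_max_left _ _).trans (le_max_left _ _)))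
    hvF hv hpar'
  have hcmp := ub_cmp hv (hSF w hw).2 hb
  have hexp : Real.exp (ε / (C₀ + 1) * (wvol w + v)) ≤
      Real.exp ε * Real.exp (ε * (((p' - p : ℕ) : ℝ) + v)) := by
    rw [← Real.exp_add]
    apply Real.exp_le_exp.mpr
    have h1 : (wvol w : ℝ) ≤ C₀ * (((p' - p : ℕ) : ℝ) + 1) := by exact_mod_cast a3
    have h2 : (0 : ℝ) ≤ ((p' - p : ℕ) : ℝ) := Nat.cast_nonneg _
    have h3 : (0 : ℝ) ≤ v := Nat.cast_nonneg _
    rw [div_mul_eq_mul_div, div_le_iff₀ hC]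
    have h4 : (wvol w : ℝ) + v ≤ ((C₀ : ℝ) + 1) * (((p' - p : ℕ) : ℝ) + 1 + v) := by nlinarith
    calc ε * ((wvol w : ℝ) + v) ≤ ε * (((C₀ : ℝ) + 1) * (((p' - p : ℕ) : ℝ) + 1 + v)) :=
          mul_le_mul_of_nonneg_left h4 hε.le
      _ = (ε + ε * (((p' - p : ℕ) : ℝ) + v)) * ((C₀ : ℝ) + 1) := by ring
  have hU0 := UU_nonneg x Q g p' (F - wvol w)
  calc UU x Q g p' (F - v) ≤ Real.exp (ε / (C₀ + 1) * (wvol w + v)) * UU x Q g p' (F - wvol w) := hcmp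
    _ ≤ Real.exp ε * Real.exp (ε * (((p' - p : ℕ) : ℝ) + v)) * UU x Q g p' (F - wvol w) :=
        mul_le_mul_of_nonneg_right hexp hU0
    _ ≤ Real.exp ε * Real.exp (ε * (((p' - p : ℕ) : ℝ) + v)) * (UU x Q g p F / c₀) := by
        refine mul_le_mul_of_nonneg_left ?_ (by positivity)
        rw [le_div_iff₀ hc₀, mul_comm]
        exact hw1
    _ = Real.exp ε / c₀ * Real.exp (ε * (((p' - p : ℕ) : ℝ) + v)) * UU x Q g p F := by ring

theorem ub_low (h : Par θ x) {ε : ℝ} (hε : 0 < ε) (p₀ : ℕ) :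
    ∃ (K δ : ℝ) (M : ℕ), 0 < K ∧ 0 < δ ∧
    ∀ (Q : Multiset ℕ) (F g p p' v : ℕ), 1 ≤ p' → p' ≤ p → p ≤ p' + p₀ → v ≤ F → Even (p + p' + v) →
      Win θ δ M (p' ::ₘ Q) F g →
      UU x Q g p' (F - v) ≤ K * Real.exp (ε * v) * UU x Q g p F := by
  obtain ⟨hθ, hθ1, hx, -⟩ := id h
  obtain ⟨δ', M', hδ', hboth⟩ := both h hε
  obtain ⟨δ₁, hδ₁⟩ : ∃ δ₁ : ℝ, δ₁ = min δ' 1 := ⟨_, rfl⟩
  have hδ₁0 : 0 < δ₁ := by rw [hδ₁]; exact lt_min hδ' one_pos
  have hδ₁a : δ₁ ≤ δ' := by rw [hδ₁]; exact min_le_left _ _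
  have hδ₁b : δ₁ ≤ 1 := by rw [hδ₁]; exact min_le_right _ _
  obtain ⟨M₁, hM₁⟩ := exists_nat_ge (8 * (p₀ : ℝ) / δ₁)
  obtain ⟨B, hB⟩ : ∃ B : ℝ, B = max 1 (AA x / yy x) := ⟨_, rfl⟩
  have hB1 : 1 ≤ B := by rw [hB]; exact le_max_left _ _
  have hBA : AA x / yy x ≤ B := by rw [hB]; exact le_max_right _ _
  refine ⟨Real.exp (ε * p₀) * B ^ p₀, δ₁ / 8, max (2 * M') M₁, by positivity, by positivity, ?_⟩
  intro Q F g p p' v hp hpp hp0 hv hev hW
  obtain ⟨w1, w2, w3, w4⟩ := id hW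
  have hFM₁ : M₁ ≤ F := (le_max_right _ _).trans w1
  have hF0 : (0 : ℝ) ≤ F := Nat.cast_nonneg _
  obtain ⟨d, hd⟩ : ∃ d, p = p' + d := ⟨p - p', by omega⟩
  have hdp : d ≤ p₀ := by omega
  have hpF : (p₀ : ℝ) ≤ δ₁ / 8 * F := by
    have h1 : 8 * (p₀ : ℝ) / δ₁ ≤ F := hM₁.trans (by exact_mod_cast hFM₁)
    have h2 := (div_le_iff₀ hδ₁0).mp h1
    linarith
  have hdR : (d : ℝ) ≤ p₀ := by exact_mod_cast hdp
  have hδF : 0 ≤ δ₁ / 8 * F := by positivity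
  have hWin : Win θ δ₁ M' (p ::ₘ Q) (F + d) g := by
    have h1 : Win θ (δ₁ / 4) (2 * M') (p' ::ₘ Q) F g := hW.mono (by linarith) (le_max_left _ _)
    refine h1.shift hθ.le hθ1.le hδ₁0.le hδ₁b ?_ ?_ ?_ ?_
    · push_cast
      have : (0 : ℝ) ≤ d := Nat.cast_nonneg _
      linarith
    · push_cast
      linarith
    · rw [Multiset.sum_cons] at w3 ⊢
      rw [hd]
      push_cast at w3 ⊢
      linarith
    · intro q hq
      rcases Multiset.mem_cons.mp hq with h2 | h2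
      · omega
      · exact w4 q (Multiset.mem_cons_of_mem h2)
  have hdF : (d : ℝ) ≤ δ' * ((F + d : ℕ) : ℝ) := by
    push_cast
    have h1 : δ₁ / 8 * F ≤ δ' * F := mul_le_mul_of_nonneg_right (by linarith) hF0
    have h2 : (0 : ℝ) ≤ δ' * d := by positivity
    linarith
  have hb := hboth (p ::ₘ Q) (F + d) g d v (hWin.mono hδ₁a le_rfl) hdF (by omega) (by
    rw [Nat.even_iff] at hev ⊢
    omega)
  rw [Nat.add_sub_cancel] at hb
  have hone : muG (p' ::ₘ Q) (F - v) g ≤ muG (p ::ₘ Q) (F + d - v) g := by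
    have h1 := one_iter Q g p' hp (F - v) d
    rw [← hd] at h1
    have h2 : F - v + d = F + d - v := by omega
    rw [h2] at h1
    exact h1
  have hr := ub_r x
  have hA := ub_A x
  have hy := yy_pos x
  have hy2 : √(yy x) ^ 2 = yy x := Real.sq_sqrt hy.le
  have hG0 := muG_nonneg (p ::ₘ Q) F g
  have key : UU x Q g p' (F - v) ≤ Real.exp (ε * (d + v)) * (AA x / yy x) ^ d * UU x Q g p F := by
    unfold UU
    have hpos : 0 < √(yy x) ^ v * √(yy x) ^ d * AA x ^ p' := by positivity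
    refine le_of_mul_le_mul_right ?_ hpos
    have e1 : √(yy x) ^ (F - v + p') * √(yy x) ^ v = √(yy x) ^ (F + p') := by
      rw [← pow_add]
      congr 1
      omega
    have hAp : AA x ^ p' ≠ 0 := (pow_pos hA p').ne'
    have l1 : muG (p' ::ₘ Q) (F - v) g * √(yy x) ^ (F - v + p') / AA x ^ p' *
        (√(yy x) ^ v * √(yy x) ^ d * AA x ^ p') =
        (muG (p' ::ₘ Q) (F - v) g * √(yy x) ^ d) * √(yy x) ^ (F + p') := by
      rw [← e1]
      field_simp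
    have l2 : Real.exp (ε * (d + v)) * (AA x / yy x) ^ d *
        (muG (p ::ₘ Q) F g * √(yy x) ^ (F + p) / AA x ^ p) *
        (√(yy x) ^ v * √(yy x) ^ d * AA x ^ p') =
        (Real.exp (ε * (d + v)) * √(yy x) ^ v * muG (p ::ₘ Q) F g) * √(yy x) ^ (F + p') := by
      have h1 : AA x ^ p = AA x ^ p' * AA x ^ d := by rw [hd, pow_add]
      have h2 : √(yy x) ^ (F + p) = √(yy x) ^ (F + p') * √(yy x) ^ d := by
        rw [← pow_add]
        congr 1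
        omega
      have h3 : (yy x) ^ d = √(yy x) ^ d * √(yy x) ^ d := by
        conv_lhs => rw [← hy2]
        rw [← pow_mul, ← pow_add]
        congr 1
        omega
      rw [h1, h2, div_pow, h3]
      have hAd : AA x ^ d ≠ 0 := (pow_pos hA d).ne'
      have hrd : √(yy x) ^ d ≠ 0 := (pow_pos hr d).ne'
      field_simp
    rw [l1, l2]
    refine mul_le_mul_of_nonneg_right ?_ (pow_pos hr _).le
    exact (mul_le_mul_of_nonneg_right hone (pow_pos hr _).le).trans hb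
  have hU0 := UU_nonneg x Q g p F
  have hd0 : (0 : ℝ) ≤ d := Nat.cast_nonneg _
  have hAy : 0 ≤ AA x / yy x := by positivity
  have hpow : (AA x / yy x) ^ d ≤ B ^ p₀ :=
    (pow_le_pow_left₀ hAy hBA d).trans (pow_le_pow_right₀ hB1 hdp)
  have hexp : Real.exp (ε * (d + v)) ≤ Real.exp (ε * p₀) * Real.exp (ε * v) := by
    rw [← Real.exp_add]
    apply Real.exp_le_exp.mpr
    have := mul_le_mul_of_nonneg_left hdR hε.le
    linarith
  calc UU x Q g p' (F - v) ≤ Real.exp (ε * (d + v)) * (AA x / yy x) ^ d * UU x Q g p F := key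
    _ ≤ (Real.exp (ε * p₀) * Real.exp (ε * v)) * B ^ p₀ * UU x Q g p F := by
        refine mul_le_mul_of_nonneg_right ?_ hU0
        exact mul_le_mul hexp hpow (by positivity) (by positivity)
    _ = Real.exp (ε * p₀) * B ^ p₀ * Real.exp (ε * v) * UU x Q g p F := by ring

end SYS.Num
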