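import Pool.Agent.SYS.VI.Ub

/-!
# SYS-VI-Pw: the peeling is dominated by the random walk, word by word (corollary of 2.7)

PROOF. If `wwt 1 W w = 0` the left side is `0` (right side nonnegative: `PRW x w ≥ 0`, `muG_nonneg`). Otherwise the parity
condition of `ub`, `ub_low` holds (`word_par`). Multiply by `√y ^ (F + p) / A ^ p > 0` and use `word_UU`, then `ub` (if `p ≤ wend p w`) or `ub_low`.
`word_le` : both cases with `p ≤ wend p w + p₀`; note `wend p w ≥ 1` (`one_le_wend`).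
-/

namespace SYS.Num

variable {θ x : ℝ}

private theorem PRW_nn (x : ℝ) (w : List Stp) : 0 ≤ PRW x w := by
  have hA : 0 < AA x := by
    have := AA_gt x
    linarith
  exact wwt_nonneg hA.le (fun k a => div_nonneg (mul_nonneg (pow_nonneg (yy_pos x).le _) (W_nonneg k a))
    (pow_nonneg hA.le _)) w

theorem word_le' (h : Par θ x) {ε : ℝ} (hε : 0 < ε) (p₀ : ℕ) :
    ∃ (K δ : ℝ) (M : ℕ), 0 < K ∧ 0 < δ ∧
    ∀ (Q : Multiset ℕ) (F g p : ℕ) (w : List Stp), 1 ≤ p → WOk p w → p ≤ wend p w + p₀ →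
      wvol w ≤ F → Win θ δ M (wend p w ::ₘ Q) F g →
      wwt 1 W w * muG (wend p w ::ₘ Q) (F - wvol w) g ≤
        K * (PRW x w * Real.exp (ε * ((wend p w - p : ℕ) + wvol w))) * muG (p ::ₘ Q) F g := by
  obtain ⟨K1, δ1, M1, hK1, hδ1, H1⟩ := ub h hε
  obtain ⟨K2, δ2, M2, hK2, hδ2, H2⟩ := ub_low h hε p₀
  refine ⟨max K1 K2, min δ1 δ2, max M1 M2, lt_max_of_lt_left hK1, lt_min hδ1 hδ2, ?_⟩
  intro Q F g p w hp hok hle hvol hwin
  have hA : 0 < AA x := by
    have := AA_gt x
    linarith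
  have hy : 0 < √(yy x) := Real.sqrt_pos.2 (yy_pos x)
  have hP := PRW_nn x w
  have hm := muG_nonneg (p ::ₘ Q) F g
  have hKK : 0 < max K1 K2 := lt_max_of_lt_left hK1
  by_cases h0 : wwt 1 W w = 0
  · rw [h0, zero_mul]
    positivity
  have hpar := word_par hok h0
  have hUU := word_UU x Q g p F w hok hvol
  have hc : 0 < √(yy x) ^ (F + p) / AA x ^ p := by positivity
  have hUe : UU x Q g p F = muG (p ::ₘ Q) F g * (√(yy x) ^ (F + p) / AA x ^ p) := by
    unfold UU
    rw [mul_div_assoc]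
  have hpar' : Even (p + wend p w + wvol w) := by
    have : p + wend p w + wvol w = wvol w + wend p w + p := by ring
    rw [this]
    exact hpar
  have key : UU x Q g (wend p w) (F - wvol w) ≤
      max K1 K2 * Real.exp (ε * ((wend p w - p : ℕ) + wvol w)) * UU x Q g p F := by
    have hU0 := UU_nonneg x Q g p F
    rcases le_total p (wend p w) with h1 | h1
    · refine (H1 Q F g p (wend p w) (wvol w) hp h1 hvol hpar' (hwin.mono (min_le_left _ _) (le_max_left _ _))).trans ?_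
      refine mul_le_mul_of_nonneg_right ?_ hU0
      exact mul_le_mul_of_nonneg_right (le_max_left _ _) (Real.exp_pos _).le
    · have h2 : ((wend p w - p : ℕ) : ℝ) = 0 := by
        rw [Nat.sub_eq_zero_of_le h1, Nat.cast_zero]
      rw [h2, zero_add]
      refine (H2 Q F g p (wend p w) (wvol w) (one_le_wend hp hok) h1 hle hvol hpar'
        (hwin.mono (min_le_right _ _) (le_max_right _ _))).trans ?_
      refine mul_le_mul_of_nonneg_right ?_ hU0
      exact mul_le_mul_of_nonneg_right (le_max_right _ _) (Real.exp_pos _).le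
  refine le_of_mul_le_mul_right ?_ hc
  rw [hUU]
  refine (mul_le_mul_of_nonneg_left key hP).trans (le_of_eq ?_)
  rw [hUe]
  ring

/-- `P_n ≤ K RW`, word by word, from a bounded perimeter. -/
theorem word_le (h : Par θ x) {ε : ℝ} (hε : 0 < ε) (p₀ : ℕ) :
    ∃ (K δ : ℝ) (M : ℕ), 0 < K ∧ 0 < δ ∧
    ∀ (Q : Multiset ℕ) (F g p : ℕ) (w : List Stp), 1 ≤ p → p ≤ p₀ → WOk p w →
      wvol w ≤ F → Win θ δ M (wend p w ::ₘ Q) F g →
      wwt 1 W w * muG (wend p w ::ₘ Q) (F - wvol w) g ≤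
        K * (PRW x w * Real.exp (ε * (wend p w + wvol w))) * muG (p ::ₘ Q) F g := by
  obtain ⟨K, δ, M, hK, hδ, H⟩ := word_le' h hε p₀
  refine ⟨K, δ, M, hK, hδ, ?_⟩
  intro Q F g p w hp hp0 hok hvol hwin
  refine (H Q F g p w hp hok (by omega) hvol hwin).trans ?_
  refine mul_le_mul_of_nonneg_right ?_ (muG_nonneg _ _ _)
  refine mul_le_mul_of_nonneg_left ?_ hK.le
  refine mul_le_mul_of_nonneg_left ?_ (PRW_nn x w)
  refine Real.exp_le_exp.2 (mul_le_mul_of_nonneg_left ?_ hε.le)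
  have h1 : ((wend p w - p : ℕ) : ℝ) ≤ (wend p w : ℝ) := by
    exact_mod_cast Nat.sub_le _ _
  linarith

end SYS.Num
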