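import Pool.Agent.SYS.RL.Defs
import Pool.Agent.SYS.BD.Hist
import Pool.Agent.SYS.PL.RwA

/-!
# SYS-VI-Uu: the supermartingale of the random walk

`UU x Q g p F = muG (p, Q) F g * √y ^ (F + p) / A ^ p`, `y = yy x`, `A = AA x`. `word_par`: the parity of a word of
non-zero weight; `word_UU`: the relation between the two weights of a word (from `PRW_eq`); `hist_UU`: the
supermartingale (from `hist`).
-/

namespace SYS.Num

/-- `U_Q(p, F)`. -/
noncomputable def UU (x : ℝ) (Q : Multiset ℕ) (g p F : ℕ) : ℝ :=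
  muG (p ::ₘ Q) F g * √(yy x) ^ (F + p) / AA x ^ p

private theorem uu_A (x : ℝ) : 0 < AA x := by
  have := AA_gt x
  linarith

theorem UU_nonneg (x : ℝ) (Q : Multiset ℕ) (g p F : ℕ) : 0 ≤ UU x Q g p F := by
  unfold UU
  have h1 := muG_nonneg (p ::ₘ Q) F g
  have h2 := uu_A x
  positivity

theorem word_par {s : ℕ} {w : List Stp} (h : WOk s w) (hw : wwt 1 W w ≠ 0) :
    Even (wvol w + wend s w + s) := by
  induction w generalizing s with
  | nil =>
    rw [wvol_nil, wend_nil, Nat.zero_add]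
    exact ⟨s, rfl⟩
  | cons st w ih =>
    obtain ⟨h1, h2⟩ := (WOk_cons s st w).1 h
    rw [wwt_cons] at hw
    have h3 := ih h2 (right_ne_zero_of_mul hw)
    have h4 : st.wt 1 W ≠ 0 := left_ne_zero_of_mul hw
    rw [wvol_cons, wend_cons]
    have h5 : Even (st.vol + s + st.nx s) := by
      cases st with
      | T =>
        show Even (1 + s + (s + 1))
        exact ⟨s + 1, by omega⟩
      | L k a =>
        have h6 : k + 3 ≤ s := h1
        have h7 : Even (a + k) := by
          by_contra hc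
          exact h4 (W_odd hc)
        obtain ⟨m, hm⟩ := h7
        show Even (a + s + (s - (k + 2)))
        exact ⟨a + s - m - 1, by omega⟩
      | R k a =>
        have h6 : k + 3 ≤ s := h1
        have h7 : Even (a + k) := by
          by_contra hc
          exact h4 (W_odd hc)
        obtain ⟨m, hm⟩ := h7
        show Even (a + s + (s - (k + 2)))
        exact ⟨a + s - m - 1, by omega⟩
    obtain ⟨u, hu⟩ := h3
    obtain ⟨v, hv⟩ := h5
    exact ⟨u + v - st.nx s, by omega⟩

theorem word_UU (x : ℝ) (Q : Multiset ℕ) (g p F : ℕ) (w : List Stp) (h : WOk p w) (hF : wvol w ≤ F) :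
    wwt 1 W w * muG (wend p w ::ₘ Q) (F - wvol w) g * (√(yy x) ^ (F + p) / AA x ^ p) =
      PRW x w * UU x Q g (wend p w) (F - wvol w) := by
  have hA := uu_A x
  have h1 := PRW_eq x p w h
  have h2 : √(yy x) ^ (F + p) = √(yy x) ^ (F - wvol w) * √(yy x) ^ (wvol w + p) := by
    rw [← pow_add]
    congr 1
    omega
  unfold UU
  rw [h2, pow_add (√(yy x)) (F - wvol w) (wend p w), mul_div_assoc', mul_div_assoc', div_eq_div_iff
    (by positivity) (by positivity)]
  calc wwt 1 W w * muG (wend p w ::ₘ Q) (F - wvol w) g *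
        (√(yy x) ^ (F - wvol w) * √(yy x) ^ (wvol w + p)) * AA x ^ wend p w
      = muG (wend p w ::ₘ Q) (F - wvol w) g * √(yy x) ^ (F - wvol w) *
        (wwt 1 W w * AA x ^ wend p w * √(yy x) ^ (wvol w + p)) := by ring
    _ = muG (wend p w ::ₘ Q) (F - wvol w) g * √(yy x) ^ (F - wvol w) *
        (PRW x w * AA x ^ p * √(yy x) ^ wend p w) := by rw [h1]
    _ = PRW x w * (muG (wend p w ::ₘ Q) (F - wvol w) g *
        (√(yy x) ^ (F - wvol w) * √(yy x) ^ wend p w)) * AA x ^ p := by ring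

theorem hist_UU (x : ℝ) (p : ℕ) (hp : 1 ≤ p) (Q : Multiset ℕ) (F g : ℕ) (h : Q ≠ 0 ∨ g ≠ 0)
    (S : Finset (List Stp)) (hpf : PF S) (hS : ∀ w ∈ S, WOk p w ∧ wvol w ≤ F) :
    ∑ w ∈ S, PRW x w * UU x Q g (wend p w) (F - wvol w) ≤ UU x Q g p F := by
  have hA := uu_A x
  have h1 := hist p hp Q F g h S hpf hS
  have h2 : ∑ w ∈ S, PRW x w * UU x Q g (wend p w) (F - wvol w) =
      (∑ w ∈ S, wwt 1 W w * muG (wend p w ::ₘ Q) (F - wvol w) g) * (√(yy x) ^ (F + p) / AA x ^ p) := by
    rw [Finset.sum_mul]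
    exact Finset.sum_congr rfl fun w hw => (word_UU x Q g p F w (hS w hw).1 (hS w hw).2).symm
  have h3 : UU x Q g p F = muG (p ::ₘ Q) F g * (√(yy x) ^ (F + p) / AA x ^ p) := by
    unfold UU
    rw [mul_div_assoc]
  rw [h2, h3]
  exact mul_le_mul_of_nonneg_right h1 (by positivity)

end SYS.Num
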