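import Pool.Agent.SYS.BD.FH

/-!
# SYS-VI-Cut: the last visit

The last time at which the perimeter is at most `a`; after it the perimeter is larger than `a`.
-/

namespace SYS.Num

private theorem cut_lift {a r : ℕ} {w : List Stp} (hr : 1 ≤ r) (h : WOk (a + r) w)
    (hp : ∀ u, u <+: w → a < wend (a + r) u) : WOk r w ∧ wend r w + a = wend (a + r) w := by
  induction w generalizing r with
  | nil => exact ⟨trivial, Nat.add_comm r a⟩
  | cons t w ih =>
    have h1 : a < t.nx (a + r) := hp [t] ⟨w, rfl⟩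
    have key : ∀ r' : ℕ, 1 ≤ r' → t.nx (a + r) = a + r' → t.nx r = r' → t.Ok r →
        WOk r (t :: w) ∧ wend r (t :: w) + a = wend (a + r) (t :: w) := by
      intro r' hr' e1 e2 e3
      have h2 : WOk (a + r') w := by
        rw [← e1]
        exact h.2
      have h3 : ∀ u, u <+: w → a < wend (a + r') u := by
        intro u hu
        have h4 := hp (t :: u) ((List.prefix_cons_inj t).2 hu)
        rw [wend_cons, e1] at h4
        exact h4
      obtain ⟨h5, h6⟩ := ih hr' h2 h3
      rw [WOk_cons, wend_cons, wend_cons, e1, e2]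
      exact ⟨⟨e3, h5⟩, h6⟩
    cases t with
    | T => exact key (r + 1) (by omega) (by show a + r + 1 = a + (r + 1); omega) rfl trivial
    | L k b =>
      have h2 : a < a + r - (k + 2) := h1
      exact key (r - (k + 2)) (by omega) (by show a + r - (k + 2) = a + (r - (k + 2)); omega) rfl
        (by show k + 3 ≤ r; omega)
    | R k b =>
      have h2 : a < a + r - (k + 2) := h1
      exact key (r - (k + 2)) (by omega) (by show a + r - (k + 2) = a + (r - (k + 2)); omega) rfl
        (by show k + 3 ≤ r; omega)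

theorem last_visit {s a : ℕ} {w : List Stp} (h : WOk s w) (hs : s ≤ a) (ha : a < wend s w) :
    ∃ w₁ w₂ : List Stp, w = w₁ ++ Stp.T :: w₂ ∧ WOk s w₁ ∧ wend s w₁ = a ∧ WOk 1 w₂ ∧
      wend 1 w₂ + a = wend s w := by
  classical
  have h0 : wend s (w.take 0) ≤ a := by
    rw [List.take_zero]
    exact hs
  obtain ⟨n, hn1, hn2, hn3⟩ : ∃ n, wend s (w.take n) ≤ a ∧ n ≤ w.length ∧
      ∀ m, n < m → m ≤ w.length → a < wend s (w.take m) := by
    refine ⟨Nat.findGreatest (fun n => wend s (w.take n) ≤ a) w.length, ?_, Nat.findGreatest_le _, ?_⟩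
    · exact Nat.findGreatest_spec (P := fun n => wend s (w.take n) ≤ a) (Nat.zero_le _) h0
    · intro m h1 h2
      exact not_le.1 (Nat.findGreatest_is_greatest (P := fun n => wend s (w.take n) ≤ a) h1 h2)
  have hlt : n < w.length := by
    rcases Nat.lt_or_ge n w.length with h1 | h1
    · exact h1
    · rw [List.take_of_length_le h1] at hn1
      omega
  obtain ⟨t, w₂, hw⟩ : ∃ t w₂, w.drop n = t :: w₂ := by
    cases hd : w.drop n with
    | nil =>
      have := congrArg List.length hd
      rw [List.length_drop, List.length_nil] at this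
      omega
    | cons t w₂ => exact ⟨t, w₂, rfl⟩
  have hw' : w = w.take n ++ t :: w₂ := by
    rw [← hw, List.take_append_drop]
  have hlen : (w.take n).length = n := by
    rw [List.length_take]
    omega
  generalize hw₁ : w.take n = w₁ at *
  have hpre : ∀ u, u <+: w₂ → a < wend s (w₁ ++ t :: u) := by
    intro u hu
    have h1 : (w₁ ++ t :: u) <+: w := by
      rw [hw']
      exact (List.prefix_append_right_inj w₁).2 ((List.prefix_cons_inj t).2 hu)
    have h2 := List.prefix_iff_eq_take.1 h1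
    rw [h2]
    apply hn3
    · rw [List.length_append, List.length_cons]
      omega
    · exact h1.length_le
  have h1 : a < t.nx (wend s w₁) := by
    have := hpre [] List.nil_prefix
    rw [wend_append] at this
    exact this
  have h2 : WOk s w₁ ∧ WOk (wend s w₁) (t :: w₂) := by
    rw [hw', WOk_append] at h
    exact h
  have h3 : t = Stp.T ∧ wend s w₁ = a := by
    cases t with
    | T =>
      have h4 : a < wend s w₁ + 1 := h1
      exact ⟨rfl, by omega⟩
    | L k b =>
      have h4 : a < wend s w₁ - (k + 2) := h1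
      omega
    | R k b =>
      have h4 : a < wend s w₁ - (k + 2) := h1
      omega
  obtain ⟨rfl, h5⟩ := h3
  have h6 : WOk (a + 1) w₂ := by
    have := h2.2.2
    rw [h5] at this
    exact this
  obtain ⟨h7, h8⟩ := cut_lift (a := a) (r := 1) le_rfl h6 (by
    intro u hu
    have := hpre u hu
    rw [wend_append, wend_cons, h5] at this
    exact this)
  refine ⟨w₁, w₂, hw', h2.1, h5, h7, ?_⟩
  rw [h8, hw', wend_append, wend_cons, h5]
  rfl

/-- A sum over words is bounded by a double sum over the two parts. -/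
theorem cut_sum {W' : ℕ → ℕ → ℝ} (hW : ∀ k a, 0 ≤ W' k a) (f : ℕ → ℝ) (hf : ∀ n, 0 ≤ f n)
    (s a e F N : ℕ) (hs : s ≤ a) (ha : a < e) (S : Finset (List Stp))
    (hS : ∀ w ∈ S, WOk s w ∧ wend s w = e ∧ wvol w ≤ N) :
    ∃ S₁ S₂ : Finset (List Stp), (∀ w ∈ S₁, WOk s w ∧ wend s w = a) ∧
      (∀ w ∈ S₂, WOk 1 w ∧ wend 1 w + a = e) ∧
      ∑ w ∈ S, wwt 1 W' w * f (F - wvol w) ≤
        ∑ w₁ ∈ S₁, ∑ w₂ ∈ S₂, if wvol w₁ + 1 + wvol w₂ ≤ N then
          wwt 1 W' w₁ * (wwt 1 W' w₂ * f (F - wvol w₁ - 1 - wvol w₂)) else 0 := by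
  classical
  have hex : ∀ w : List Stp, ∃ p : List Stp × List Stp, w ∈ S → w = p.1 ++ Stp.T :: p.2 ∧
      WOk s p.1 ∧ wend s p.1 = a ∧ WOk 1 p.2 ∧ wend 1 p.2 + a = e := by
    intro w
    by_cases hw : w ∈ S
    · obtain ⟨h1, h2, _⟩ := hS w hw
      obtain ⟨w₁, w₂, e1, e2, e3, e4, e5⟩ := last_visit h1 hs (by rw [h2]; exact ha)
      exact ⟨(w₁, w₂), fun _ => ⟨e1, e2, e3, e4, by rw [e5, h2]⟩⟩
    · exact ⟨([], []), fun h => absurd h hw⟩
  choose g hg using hex
  refine ⟨S.image fun w => (g w).1, S.image fun w => (g w).2, ?_, ?_, ?_⟩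
  · intro w hw
    obtain ⟨v, hv, rfl⟩ := Finset.mem_image.1 hw
    exact ⟨(hg v hv).2.1, (hg v hv).2.2.1⟩
  · intro w hw
    obtain ⟨v, hv, rfl⟩ := Finset.mem_image.1 hw
    exact ⟨(hg v hv).2.2.2.1, (hg v hv).2.2.2.2⟩
  · set G : List Stp × List Stp → ℝ := fun p => if wvol p.1 + 1 + wvol p.2 ≤ N then
      wwt 1 W' p.1 * (wwt 1 W' p.2 * f (F - wvol p.1 - 1 - wvol p.2)) else 0 with hG
    have hG0 : ∀ p, 0 ≤ G p := by
      intro p
      rw [hG]
      dsimp only
      split_ifs
      · exact mul_nonneg (wwt_nonneg zero_le_one hW _) (mul_nonneg (wwt_nonneg zero_le_one hW _) (hf _))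
      · exact le_rfl
    have h1 : ∑ w ∈ S, wwt 1 W' w * f (F - wvol w) = ∑ w ∈ S, G (g w) := by
      apply Finset.sum_congr rfl
      intro w hw
      obtain ⟨e1, _⟩ := hg w hw
      have e2 : wvol w = wvol (g w).1 + (1 + wvol (g w).2) := by
        conv_lhs => rw [e1]
        rw [wvol_append, wvol_cons]
        rfl
      have e3 : wwt 1 W' w = wwt 1 W' (g w).1 * wwt 1 W' (g w).2 := by
        conv_lhs => rw [e1]
        rw [wwt_append, wwt_cons]
        show _ * (1 * _) = _
        rw [one_mul]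
      have e4 := (hS w hw).2.2
      have e5 : F - wvol w = F - wvol (g w).1 - 1 - wvol (g w).2 := by omega
      rw [hG]
      dsimp only
      rw [if_pos (by omega), e5, e3]
      ring
    have h2 : ∑ w ∈ S, G (g w) = ∑ p ∈ S.image g, G p := by
      rw [Finset.sum_image]
      intro v hv w hw hvw
      rw [(hg v hv).1, (hg w hw).1, hvw]
    have h3 : ∑ p ∈ S.image g, G p ≤
        ∑ p ∈ (S.image fun w => (g w).1) ×ˢ (S.image fun w => (g w).2), G p := by
      apply Finset.sum_le_sum_of_subset_of_nonneg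
      · intro p hp
        obtain ⟨w, hw, rfl⟩ := Finset.mem_image.1 hp
        exact Finset.mem_product.2 ⟨Finset.mem_image_of_mem _ hw, Finset.mem_image_of_mem _ hw⟩
      · exact fun p _ _ => hG0 p
    rw [h1, h2]
    refine h3.trans (le_of_eq ?_)
    rw [Finset.sum_product]

end SYS.Num
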