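import Pool.Agent.SYS.VI.Vis
import Pool.Agent.SYS.VI.Cut

/-!
# SYS-VI-ExB: a collision at a given place costs at most two sources (2.9 (b))

Words with many triangles by `far_words`, the others by the last visit and `vis`, twice.
-/

namespace SYS.Num

variable {θ x : ℝ}

private theorem near_inner {Cv : ℝ} (hCv : 0 < Cv) {F g p₁ p₂ v : ℕ} {Q : Multiset ℕ} (hv : v + 1 ≤ F)
    (S : Finset (List Stp))
    (hs : ∑ w ∈ S, wwt 1 W w * muG (p₂ ::ₘ p₁ ::ₘ Q) (F - v - 1 - wvol w) g ≤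
      Cv * muG (1 ::ₘ p₁ ::ₘ Q) (F - v - 1) g) :
    ∑ w ∈ S, wwt 1 W w * muG (p₁ ::ₘ p₂ ::ₘ Q) (F - v - 1 - wvol w) g ≤
      Cv * (3 * F * muG ((p₁ + 2) ::ₘ Q) (F - v) g) := by
  rw [Multiset.cons_swap p₁ p₂ Q]
  refine hs.trans (mul_le_mul_of_nonneg_left ?_ hCv.le)
  have h1 : muG (1 ::ₘ p₁ ::ₘ Q) (F - v - 1) g ≤ muG (3 ::ₘ p₁ ::ₘ Q) (F - v - 1) g :=
    two 1 (p₁ ::ₘ Q) (F - v - 1) g
  rw [muG_three, show F - v - 1 + 1 = F - v by omega] at h1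
  have h2 : ((F - v - 1 : ℕ) : ℝ) + 1 ≤ F := by
    have : F - v - 1 + 1 ≤ F := by omega
    exact_mod_cast this
  have h3 := two p₁ Q (F - v) g
  have h4 := muG_nonneg (p₁ ::ₘ Q) (F - v) g
  have h5 : (0 : ℝ) ≤ 3 * F := by positivity
  calc muG (1 ::ₘ p₁ ::ₘ Q) (F - v - 1) g
      ≤ 3 * (((F - v - 1 : ℕ) : ℝ) + 1) * muG (p₁ ::ₘ Q) (F - v) g := h1
    _ ≤ 3 * F * muG (p₁ ::ₘ Q) (F - v) g := mul_le_mul_of_nonneg_right (by linarith) h4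
    _ ≤ 3 * F * muG ((p₁ + 2) ::ₘ Q) (F - v) g := mul_le_mul_of_nonneg_left h3 h5

theorem coll_rev (h : Par θ x) : ∃ (C δ : ℝ) (M : ℕ), 0 < C ∧ 0 < δ ∧
    ∀ (Q : Multiset ℕ) (F g s p₁ p₂ : ℕ) (S : Finset (List Stp)), 1 ≤ s → s ≤ p₁ + 2 → 1 ≤ p₁ →
      1 ≤ p₂ → Win θ δ M ((p₁ + p₂ + 2) ::ₘ Q) F g →
      (∀ w ∈ S, WOk s w ∧ wend s w = p₁ + p₂ + 2 ∧ wvol w ≤ F) →
      ∑ w ∈ S, wwt 1 W w * muG (p₁ ::ₘ p₂ ::ₘ Q) (F - wvol w) g ≤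
        C * F * muG (s ::ₘ Q) F g := by
  classical
  obtain ⟨Cv, δv, Mv, hCv, hδv, hvis⟩ := vis h
  obtain ⟨d, hd⟩ : ∃ d : ℝ, d = min δv 1 := ⟨_, rfl⟩
  have hd0 : 0 < d := by rw [hd]; exact lt_min hδv one_pos
  have hd1 : d ≤ 1 := by rw [hd]; exact min_le_right _ _
  have hdv : d ≤ δv := by rw [hd]; exact min_le_left _ _
  have hθ0 : 0 ≤ θ := h.1.le
  have hθ1 : θ ≤ 1 / 2 := h.2.1.le
  obtain ⟨Cf, δf, Mf, hCf, hδf, hfar⟩ := far_words h (δ₁ := d / 8) (by linarith)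
  refine ⟨3 * Cf + 3 * Cv ^ 2, min (d / 4) δf, max (2 * Mv) Mf, by positivity,
    lt_min (by linarith) hδf, ?_⟩
  intro Q F g s p₁ p₂ S hs1 hsp hp1 hp2 hW hS
  have hQ1 : ∀ q ∈ Q, 1 ≤ q := fun q hq => hW.2.2.2 q (Multiset.mem_cons_of_mem hq)
  have hF0 : (0 : ℝ) ≤ F := Nat.cast_nonneg F
  have hsum : (((p₁ + p₂ + 2) ::ₘ Q).sum : ℝ) ≤ min (d / 4) δf * F := hW.2.2.1
  obtain ⟨σ, hσ⟩ : ∃ σ : ℕ, σ = Q.sum := ⟨_, rfl⟩
  rw [Multiset.sum_cons, ← hσ] at hsum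
  push_cast at hsum
  have hQ0 : (0 : ℝ) ≤ (σ : ℝ) := Nat.cast_nonneg _
  have hmin1 : min (d / 4) δf * F ≤ d / 4 * F := mul_le_mul_of_nonneg_right (min_le_left _ _) hF0
  have hmin2 : min (d / 4) δf * F ≤ δf * F := mul_le_mul_of_nonneg_right (min_le_right _ _) hF0
  have hW1 : Win θ (d / 4) (2 * Mv) ((p₁ + p₂ + 2) ::ₘ Q) F g :=
    hW.mono (min_le_left _ _) (le_max_left _ _)
  have hW2 : Win θ δf Mf ((p₁ + p₂ + 2) ::ₘ Q) F g := hW.mono (min_le_right _ _) (le_max_right _ _)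
  have hmem : ∀ a : ℕ, 1 ≤ a → ∀ q ∈ a ::ₘ Q, 1 ≤ q := by
    intro a ha q hq
    rcases Multiset.mem_cons.1 hq with rfl | hq
    · exact ha
    · exact hQ1 q hq
  have hp2' : (0 : ℝ) ≤ p₂ := Nat.cast_nonneg _
  have hp1' : (0 : ℝ) ≤ p₁ := Nat.cast_nonneg _
  have hmu := muG_nonneg (s ::ₘ Q) F g
  -- the far words
  have hfarS : ∑ w ∈ S.filter (fun w => d / 8 * F ≤ wvol w),
      wwt 1 W w * muG (p₁ ::ₘ p₂ ::ₘ Q) (F - wvol w) g ≤ Cf * (3 * (F : ℝ)) ^ 1 * muG (s ::ₘ Q) F g := by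
    apply hfar Q (p₁ ::ₘ p₂ ::ₘ Q) F g s (p₁ + p₂ + 2) 1 _ hs1
    · refine hW2.sub ?_ (hmem s hs1)
      rw [Multiset.sum_cons, Multiset.sum_cons]
      omega
    · intro q hq
      rcases Multiset.mem_cons.1 hq with rfl | hq
      · exact hp1
      · exact hmem p₂ hp2 q hq
    · rw [Multiset.sum_cons, Multiset.sum_cons, ← hσ]
      push_cast
      linarith
    · push_cast
      linarith
    · rw [Multiset.card_cons, Multiset.card_cons]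
    · rw [Multiset.sum_cons, Multiset.sum_cons]
      exact ⟨Q.sum + p₁ + p₂ + 1, by ring⟩
    · intro w hw
      obtain ⟨hw1, hw2⟩ := Finset.mem_filter.1 hw
      exact ⟨(hS w hw1).1, (hS w hw1).2.1, (hS w hw1).2.2, hw2⟩
  -- the near words
  obtain ⟨N, hN⟩ : ∃ N : ℕ, N = ⌊d / 8 * (F : ℝ)⌋₊ := ⟨_, rfl⟩
  have hdF : 0 ≤ d / 8 * (F : ℝ) := by positivity
  have hNr : (N : ℝ) ≤ d / 8 * F := by
    rw [hN]
    exact Nat.floor_le hdF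
  have hd8 : d / 8 * (F : ℝ) ≤ 1 * F := mul_le_mul_of_nonneg_right (by linarith) hF0
  have hNF : N ≤ F := by
    have : (N : ℝ) ≤ F := by linarith
    exact_mod_cast this
  obtain ⟨S₁, S₂, hS₁, hS₂, hcut⟩ := cut_sum (W' := W) W_nonneg
    (fun n => muG (p₁ ::ₘ p₂ ::ₘ Q) n g) (fun n => muG_nonneg _ _ _) s (p₁ + 2) (p₁ + p₂ + 2) F N hsp
    (by omega) (S.filter (fun w => ¬ d / 8 * F ≤ wvol w)) (by
      intro w hw
      obtain ⟨hw1, hw2⟩ := Finset.mem_filter.1 hw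
      refine ⟨(hS w hw1).1, (hS w hw1).2.1, ?_⟩
      rw [hN]
      exact Nat.le_floor (not_le.1 hw2).le)
  have hwin2 : ∀ v : ℕ, v + 1 ≤ N → Win θ δv Mv (p₂ ::ₘ p₁ ::ₘ Q) (F - v - 1) g := by
    intro v hv
    have hv1 : (v : ℝ) + 1 ≤ N := by exact_mod_cast hv
    have hvF : ((F - v - 1 : ℕ) : ℝ) = F - v - 1 := by
      rw [Nat.sub_sub, Nat.cast_sub (by omega)]
      push_cast
      ring
    have hdd : d / 8 * (F : ℝ) ≤ d / 4 * F := mul_le_mul_of_nonneg_right (by linarith) hF0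
    have hd40 : 0 ≤ d / 4 * (F : ℝ) := by positivity
    have hv0 : (0 : ℝ) ≤ v := Nat.cast_nonneg _
    refine (hW1.shift hθ0 hθ1 hd0.le hd1 ?_ ?_ ?_ ?_).mono hdv le_rfl
    · rw [hvF]
      linarith
    · rw [hvF]
      linarith
    · rw [Multiset.sum_cons, Multiset.sum_cons, ← hσ]
      push_cast
      linarith
    · intro q hq
      rcases Multiset.mem_cons.1 hq with rfl | hq
      · exact hp2
      · exact hmem p₁ hp1 q hq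
  have hinner : ∀ w₁ ∈ S₁, (∑ w₂ ∈ S₂, if wvol w₁ + 1 + wvol w₂ ≤ N then
      wwt 1 W w₁ * (wwt 1 W w₂ * muG (p₁ ::ₘ p₂ ::ₘ Q) (F - wvol w₁ - 1 - wvol w₂) g) else 0) ≤
      if wvol w₁ + 1 ≤ N then wwt 1 W w₁ * (Cv * (3 * F * muG ((p₁ + 2) ::ₘ Q) (F - wvol w₁) g)) else 0 := by
    intro w₁ _
    by_cases hv : wvol w₁ + 1 ≤ N
    · rw [if_pos hv, ← Finset.sum_filter, ← Finset.mul_sum]
      refine mul_le_mul_of_nonneg_left ?_ (wwt_nonneg zero_le_one W_nonneg w₁)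
      apply near_inner hCv (by omega)
      apply hvis (p₁ ::ₘ Q) (F - wvol w₁ - 1) g 1 p₂ _ le_rfl hp2 (hwin2 _ hv)
      intro w₂ hw₂
      obtain ⟨h1, h2⟩ := Finset.mem_filter.1 hw₂
      have h3 := hS₂ w₂ h1
      exact ⟨h3.1, by omega, by omega⟩
    · rw [if_neg hv]
      apply le_of_eq
      apply Finset.sum_eq_zero
      intro w₂ _
      rw [if_neg (by omega)]
  have hwin3 : Win θ δv Mv ((p₁ + 2) ::ₘ Q) F g := by
    have hdd : 0 ≤ d / 4 * (F : ℝ) := by positivity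
    refine (hW1.shift hθ0 hθ1 hd0.le hd1 (by linarith) (by linarith) ?_ ?_).mono hdv le_rfl
    · rw [Multiset.sum_cons, ← hσ]
      push_cast
      linarith
    · exact hmem _ (by omega)
  have hvis3 := hvis Q F g s (p₁ + 2) (S₁.filter (fun w₁ => wvol w₁ + 1 ≤ N)) hs1 hsp hwin3 (by
    intro w hw
    obtain ⟨h1, h2⟩ := Finset.mem_filter.1 hw
    have h3 := hS₁ w h1
    exact ⟨h3.1, h3.2, by omega⟩)
  have hnear : ∑ w ∈ S.filter (fun w => ¬ d / 8 * F ≤ wvol w),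
      wwt 1 W w * muG (p₁ ::ₘ p₂ ::ₘ Q) (F - wvol w) g ≤ 3 * Cv ^ 2 * F * muG (s ::ₘ Q) F g := by
    refine hcut.trans ((Finset.sum_le_sum hinner).trans ?_)
    rw [← Finset.sum_filter]
    calc ∑ w₁ ∈ S₁.filter (fun w₁ => wvol w₁ + 1 ≤ N),
        wwt 1 W w₁ * (Cv * (3 * F * muG ((p₁ + 2) ::ₘ Q) (F - wvol w₁) g))
        = (Cv * (3 * F)) * ∑ w₁ ∈ S₁.filter (fun w₁ => wvol w₁ + 1 ≤ N),
          wwt 1 W w₁ * muG ((p₁ + 2) ::ₘ Q) (F - wvol w₁) g := by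
          rw [Finset.mul_sum]
          apply Finset.sum_congr rfl
          intro w _
          ring
      _ ≤ (Cv * (3 * F)) * (Cv * muG (s ::ₘ Q) F g) :=
          mul_le_mul_of_nonneg_left hvis3 (by positivity)
      _ = 3 * Cv ^ 2 * F * muG (s ::ₘ Q) F g := by ring
  rw [← Finset.sum_filter_add_sum_filter_not S (fun w => d / 8 * F ≤ wvol w)]
  rw [pow_one] at hfarS
  calc _ ≤ Cf * (3 * (F : ℝ)) * muG (s ::ₘ Q) F g + 3 * Cv ^ 2 * F * muG (s ::ₘ Q) F g :=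
        add_le_add hfarS hnear
    _ = (3 * Cf + 3 * Cv ^ 2) * F * muG (s ::ₘ Q) F g := by ring

end SYS.Num
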