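import Pool.Agent.SYS.VI.Pw
import Pool.Agent.SYS.PL.Gr

/-!
# SYS-VI-GroU: the cut supermartingale

`UN p v = UU p (F - v) / UU s F` for `v ≤ N`, `0` for `v > N`.
`UN_SM`: `hist_UU` for words of length one. `UN_le`: `ub`, `ub_low`. `UN_sum`: `word_UU`.
-/

namespace SYS.Num

open Classical

variable {θ x : ℝ}

private theorem gu_zero {Q : Multiset ℕ} {F g s : ℕ} (h : UU x Q g s F = 0) :
    muG (s ::ₘ Q) F g = 0 := by
  have hA : 0 < AA x := by
    have := AA_gt x
    linarith
  have hy : 0 < √(yy x) := Real.sqrt_pos.2 (yy_pos x)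
  unfold UU at h
  have h1 : √(yy x) ^ (F + s) ≠ 0 := pow_ne_zero _ hy.ne'
  have h2 : AA x ^ s ≠ 0 := pow_ne_zero _ hA.ne'
  rw [div_eq_zero_iff, mul_eq_zero] at h
  rcases h with (h | h) | h
  · exact h
  · exact absurd h h1
  · exact absurd h h2

private theorem gu_g {θ : ℝ} (_hθ : 0 < θ) {δ : ℝ} (hδ : δ < θ) {M : ℕ} (hM : 1 ≤ M) {P : Multiset ℕ}
    {F g : ℕ} (h : Win θ δ M P F g) : g ≠ 0 := by
  intro h0
  have h1 := h.2.1
  rw [h0, Nat.cast_zero, mul_zero, zero_sub, abs_neg] at h1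
  have h2 : (1 : ℝ) ≤ F := by exact_mod_cast hM.trans h.1
  have h3 : θ * (F : ℝ) ≤ δ * F := (le_abs_self _).trans h1
  nlinarith

private theorem gu_div {a b K : ℝ} (hK : 0 ≤ K) (hb : 0 ≤ b) (h : b ≠ 0 → a ≤ K * b) :
    a / b ≤ K := by
  rcases hb.eq_or_lt with h0 | h0
  · rw [← h0, div_zero]
    exact hK
  · rw [div_le_iff₀ h0]
    exact h h0.ne'

/-- The cut supermartingale. -/
noncomputable def UN (x : ℝ) (Q : Multiset ℕ) (g s F N : ℕ) (p v : ℕ) : ℝ :=
  if v ≤ N then UU x Q g p (F - v) / UU x Q g s F else 0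

theorem UN_SM (hx : 0 < x) (Q : Multiset ℕ) (g s F N : ℕ) (hN : N ≤ F) (h : Q ≠ 0 ∨ g ≠ 0) :
    GR.SM (law hx) (UN x Q g s F N) := by
  constructor
  · intro p v
    unfold UN
    split_ifs
    · exact div_nonneg (UU_nonneg _ _ _ _ _) (UU_nonneg _ _ _ _ _)
    · exact le_rfl
  · intro p v T hp hT
    by_cases hv : v ≤ N
    · have hS := hist_UU x p hp Q (F - v) g h
        ((T.filter fun t => v + t.vol ≤ N).image fun t => [t]) ?_ ?_
      · rw [Finset.sum_image fun a _ b _ hab => List.head_eq_of_cons_eq hab] at hS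
        have h1 : ∑ t ∈ T, (law hx).w t * UN x Q g s F N (t.nx p) (v + t.vol) =
            (∑ t ∈ T.filter (fun t => v + t.vol ≤ N),
              PRW x [t] * UU x Q g (wend p [t]) (F - v - wvol [t])) / UU x Q g s F := by
          rw [Finset.sum_div, Finset.sum_filter]
          refine Finset.sum_congr rfl fun t _ => ?_
          unfold UN
          split_ifs
          · have e1 : PRW x [t] = (law hx).w t := by
              rw [← law_ww hx]
              show wwt (law hx).A (law hx).q [t] = t.wt (law hx).A (law hx).q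
              rw [wwt_cons, wwt_nil, mul_one]
            have e2 : wvol [t] = t.vol := by rw [wvol_cons, wvol_nil, add_zero]
            rw [e1, e2, Nat.sub_sub, mul_div_assoc]
            rfl
          · rw [mul_zero]
        rw [h1]
        have h2 : UN x Q g s F N p v = UU x Q g p (F - v) / UU x Q g s F := by
          unfold UN
          rw [if_pos hv]
        rw [h2]
        exact div_le_div_of_nonneg_right hS (UU_nonneg _ _ _ _ _)
      · intro u hu w hw huw
        obtain ⟨a, _, rfl⟩ := Finset.mem_image.1 hu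
        obtain ⟨b, _, rfl⟩ := Finset.mem_image.1 hw
        have h1 := (List.cons_prefix_cons.1 huw).1
        rw [h1]
      · intro w hw
        obtain ⟨a, ha, rfl⟩ := Finset.mem_image.1 hw
        obtain ⟨ha1, ha2⟩ := Finset.mem_filter.1 ha
        refine ⟨⟨hT a ha1, trivial⟩, ?_⟩
        rw [wvol_cons, wvol_nil, add_zero]
        omega
    · have h2 : UN x Q g s F N p v = 0 := by
        unfold UN
        rw [if_neg hv]
      rw [h2]
      refine (Finset.sum_eq_zero fun t _ => ?_).le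
      unfold UN
      rw [if_neg (by omega), mul_zero]

theorem UN_le (h : Par θ x) {ε : ℝ} (hε : 0 < ε) (s₀ : ℕ) :
    ∃ (K δ : ℝ) (M : ℕ), 0 < K ∧ 0 < δ ∧
    ∀ (Q : Multiset ℕ) (F g s N : ℕ), 1 ≤ s → s ≤ s₀ → (N : ℝ) ≤ δ * F → Win θ δ M (s ::ₘ Q) F g →
      ∀ p v : ℕ, p ≤ s + v → UN x Q g s F N p v ≤ K * Real.exp (ε * ((p : ℝ) + v)) := by
  obtain ⟨K₁, δ₁, M₁, hK₁, hδ₁, h₁⟩ := ub h hε
  obtain ⟨K₂, δ₂, M₂, hK₂, hδ₂, h₂⟩ := ub_low h hε s₀
  have hθ : 0 < θ := h.1
  have hmin : 0 < min (min δ₁ δ₂) θ := lt_min (lt_min hδ₁ hδ₂) hθ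
  refine ⟨K₁ + K₂, min (min δ₁ δ₂) θ / 2, max 1 (max M₁ M₂), by positivity, by positivity, ?_⟩
  intro Q F g s N hs hs0 hN hW p v hpv
  obtain ⟨δ, hδ⟩ : ∃ δ, δ = min (min δ₁ δ₂) θ / 2 := ⟨_, rfl⟩
  rw [← hδ] at hN hW
  have hδ0 : 0 < δ := by rw [hδ]; positivity
  have hδa : 2 * δ ≤ δ₁ := by
    rw [hδ]
    linarith [(min_le_left (min δ₁ δ₂) θ).trans (min_le_left δ₁ δ₂)]
  have hδb : 2 * δ ≤ δ₂ := by
    rw [hδ]
    linarith [(min_le_left (min δ₁ δ₂) θ).trans (min_le_right δ₁ δ₂)]
  have hδc : δ < θ := by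
    have h1 : 2 * δ ≤ θ := by
      rw [hδ]
      linarith [min_le_right (min δ₁ δ₂) θ]
    linarith
  have hF : (0 : ℝ) ≤ F := Nat.cast_nonneg F
  have hg : g ≠ 0 := gu_g hθ hδc (le_max_left _ _) hW
  have hE : 0 < Real.exp (ε * ((p : ℝ) + v)) := Real.exp_pos _
  have hR : 0 ≤ (K₁ + K₂) * Real.exp (ε * ((p : ℝ) + v)) := by positivity
  unfold UN
  by_cases hv : v ≤ N
  · rw [if_pos hv]
    refine gu_div hR (UU_nonneg _ _ _ _ _) fun hsz => ?_
    have hU := UU_nonneg x Q g s F
    have hRU : 0 ≤ (K₁ + K₂) * Real.exp (ε * ((p : ℝ) + v)) * UU x Q g s F := mul_nonneg hR hU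
    by_cases hz : muG (p ::ₘ Q) (F - v) g = 0
    · have h0 : UU x Q g p (F - v) = 0 := by
        unfold UU
        rw [hz, zero_mul, zero_div]
      rw [h0]
      exact hRU
    · have hp : 1 ≤ p := by
        rcases Nat.eq_zero_or_pos p with hp0 | hp0
        · exfalso
          rw [hp0, tutG_zero, if_neg fun h => hg h.2.2] at hz
          exact hz rfl
        · exact hp0
      have hvF : v ≤ F := by
        have h3 : (N : ℝ) ≤ F := by
          have h4 : δ * (F : ℝ) ≤ 1 * F := by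
            refine mul_le_mul_of_nonneg_right ?_ hF
            have := h.2.1
            linarith
          linarith
        have h5 : N ≤ F := by exact_mod_cast h3
        omega
      have hpar : Even (s + p + v) := by
        have h3 : Even (F - v + (p ::ₘ Q).sum) := by
          by_contra h4
          exact hz (muG_odd h4 g)
        have h5 : Even (F + (s ::ₘ Q).sum) := by
          by_contra h4
          refine hsz ?_
          unfold UU
          rw [muG_odd h4 g, zero_mul, zero_div]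
        rw [Multiset.sum_cons, Nat.even_iff] at h3 h5
        rw [Nat.even_iff]
        omega
      have hWp : Win θ (2 * δ) (max 1 (max M₁ M₂)) (p ::ₘ Q) F g := by
        refine ⟨hW.1, hW.2.1.trans ?_, ?_, ?_⟩
        · exact mul_le_mul_of_nonneg_right (by linarith) hF
        · have h3 := hW.2.2.1
          rw [Multiset.sum_cons, Nat.cast_add] at h3 ⊢
          have h4 : (p : ℝ) ≤ s + v := by exact_mod_cast hpv
          have h5 : (v : ℝ) ≤ N := by exact_mod_cast hv
          linarith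
        · intro q hq
          rcases Multiset.mem_cons.1 hq with h3 | h3
          · rw [h3]
            exact hp
          · exact hW.2.2.2 q (Multiset.mem_cons_of_mem h3)
      have hv0 : (0 : ℝ) ≤ v := Nat.cast_nonneg v
      have hp0 : (0 : ℝ) ≤ p := Nat.cast_nonneg p
      rcases le_or_gt s p with hsp | hsp
      · refine (h₁ Q F g s p v hs hsp hvF hpar
          (hWp.mono hδa ((le_max_left _ _).trans (le_max_right _ _)))).trans ?_
        refine mul_le_mul_of_nonneg_right ?_ hU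
        refine mul_le_mul (by linarith) (Real.exp_le_exp.2 ?_) (Real.exp_pos _).le (by positivity)
        refine mul_le_mul_of_nonneg_left ?_ hε.le
        have h6 : ((p - s : ℕ) : ℝ) ≤ p := by exact_mod_cast Nat.sub_le p s
        linarith
      · refine (h₂ Q F g s p v hp hsp.le (by omega) hvF hpar
          (hWp.mono hδb ((le_max_right _ _).trans (le_max_right _ _)))).trans ?_
        refine mul_le_mul_of_nonneg_right ?_ hU
        refine mul_le_mul (by linarith) (Real.exp_le_exp.2 ?_) (Real.exp_pos _).le (by positivity)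
        refine mul_le_mul_of_nonneg_left ?_ hε.le
        linarith
  · rw [if_neg hv]
    exact hR

theorem UN_sum (h : Par θ x) (s₀ : ℕ) : ∃ (δ : ℝ) (M : ℕ), 0 < δ ∧
    ∀ (Q : Multiset ℕ) (F g s N : ℕ) (S : Finset (List Stp)) (B : ℝ), 1 ≤ s → s ≤ s₀ → N ≤ F →
      Win θ δ M (s ::ₘ Q) F g →
      (∀ w ∈ S, WOk s w ∧ wvol w ≤ N ∧ (wend s w : ℝ) ≤ δ * F) → 0 ≤ B →
      ∑ w ∈ S, (law h.2.2.1).ww w * UN x Q g s F N (wend s w) (wvol w) ≤ B →
      ∑ w ∈ S, wwt 1 W w * muG (wend s w ::ₘ Q) (F - wvol w) g ≤ B * muG (s ::ₘ Q) F g := by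
  refine ⟨θ / 2, 1, by have := h.1; positivity, ?_⟩
  intro Q F g s N S B hs _ hN hW hS hB hsum
  have hA : 0 < AA x := by
    have := AA_gt x
    linarith
  have hy : 0 < √(yy x) := Real.sqrt_pos.2 (yy_pos x)
  have hg : g ≠ 0 := gu_g h.1 (by have := h.1; linarith) le_rfl hW
  obtain ⟨c, hc⟩ : ∃ c, c = √(yy x) ^ (F + s) / AA x ^ s := ⟨_, rfl⟩
  have hc0 : 0 < c := by rw [hc]; positivity
  have hUs : UU x Q g s F = muG (s ::ₘ Q) F g * c := by
    rw [hc]
    unfold UU
    ring
  have hw : ∀ w ∈ S, wwt 1 W w * muG (wend s w ::ₘ Q) (F - wvol w) g * c =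
      PRW x w * UU x Q g (wend s w) (F - wvol w) := by
    intro w hw
    rw [hc]
    exact word_UU x Q g s F w (hS w hw).1 ((hS w hw).2.1.trans hN)
  have hWn : ∀ k a, 0 ≤ W k a := fun k a => muG_nonneg _ _ _
  by_cases h0 : UU x Q g s F = 0
  · have h1 : muG (s ::ₘ Q) F g = 0 := gu_zero h0
    rw [h1, mul_zero]
    refine Finset.sum_nonpos fun w hwS => ?_
    have h2 := hist_UU x s hs Q F g (Or.inr hg) {w} ?_ ?_
    · rw [Finset.sum_singleton, ← hw w hwS, h0] at h2
      by_contra h3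
      exact absurd h2 (not_le.2 (mul_pos (not_le.1 h3) hc0))
    · intro u hu v hv _
      rw [Finset.mem_singleton.1 hu, Finset.mem_singleton.1 hv]
    · intro u hu
      rw [Finset.mem_singleton.1 hu]
      exact ⟨(hS w hwS).1, (hS w hwS).2.1.trans hN⟩
  · have hU : 0 < UU x Q g s F := lt_of_le_of_ne (UU_nonneg _ _ _ _ _) (Ne.symm h0)
    have h1 : ∑ w ∈ S, (law h.2.2.1).ww w * UN x Q g s F N (wend s w) (wvol w) =
        (∑ w ∈ S, wwt 1 W w * muG (wend s w ::ₘ Q) (F - wvol w) g) * c / UU x Q g s F := by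
      rw [Finset.sum_mul, Finset.sum_div]
      refine Finset.sum_congr rfl fun w hwS => ?_
      rw [hw w hwS, law_ww]
      unfold UN
      rw [if_pos (hS w hwS).2.1, mul_div_assoc]
    rw [h1, div_le_iff₀ hU, hUs, ← mul_assoc] at hsum
    exact le_of_mul_le_mul_right hsum hc0

end SYS.Num
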