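import Pool.Agent.SYS.VI.Pw
import Pool.Agent.SYS.VI.GroU
import Pool.Agent.SYS.PL.Gr

/-!
# SYS-VI-GroS: words read in a merged hole, the cut supermartingale

The word runs from `s` (a fresh source), the hole has `p` more sides. All proofs are as in `GroU.lean` (the case `p = 0`): a step which is possible at `q` is
possible at `p + q` (`WOk_shift`), `hist_UU` at the perimeter `p + q`; `ub` with the start `p + s` and the end `p + q` (`s ≤ q`), `ub_low` with `p₀ = s₀` (`q < s`); if `p + q = 0`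
use `tutG_zero`. `UM_sum`: `word_UU` with the start `p + s`; if `UU .. (p + s) F = 0` then the left side is `0` by `word_le'`.
-/

namespace SYS.Num

open Classical

variable {θ x : ℝ}

private theorem gs_zero {Q : Multiset ℕ} {F g s : ℕ} (h : UU x Q g s F = 0) :
    muG (s ::ₘ Q) F g = 0 := by
  have hA : 0 < AA x := by
    have := AA_gt x
    linarith
  have hy : 0 < √(yy x) := Real.sqrt_pos.2 (yy_pos x)
  unfold UU at h
  have h1 : √(yy x) ^ (F + s) ≠ 0 := pow_ne_zero _ hy.ne'
  have h2 : AA x ^ s ≠ 0 := pow_ne_zero _ hA.ne'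
  rw [div_eq_zero_iff, mul_eq_zero] at h
  rcases h with (h | h) | h
  · exact h
  · exact absurd h h1
  · exact absurd h h2

private theorem gs_g {θ : ℝ} (_hθ : 0 < θ) {δ : ℝ} (hδ : δ < θ) {M : ℕ} (hM : 1 ≤ M) {P : Multiset ℕ}
    {F g : ℕ} (h : Win θ δ M P F g) : g ≠ 0 := by
  intro h0
  have h1 := h.2.1
  rw [h0, Nat.cast_zero, mul_zero, zero_sub, abs_neg] at h1
  have h2 : (1 : ℝ) ≤ F := by exact_mod_cast hM.trans h.1
  have h3 : θ * (F : ℝ) ≤ δ * F := (le_abs_self _).trans h1
  nlinarith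

private theorem gs_div {a b K : ℝ} (hK : 0 ≤ K) (hb : 0 ≤ b) (h : b ≠ 0 → a ≤ K * b) :
    a / b ≤ K := by
  rcases hb.eq_or_lt with h0 | h0
  · rw [← h0, div_zero]
    exact hK
  · rw [div_le_iff₀ h0]
    exact h h0.ne'

/-- The cut supermartingale in the merged hole. -/
noncomputable def UM (x : ℝ) (Q : Multiset ℕ) (g p s F N : ℕ) (q v : ℕ) : ℝ :=
  if v ≤ N then UU x Q g (p + q) (F - v) / UU x Q g (p + s) F else 0

theorem UM_SM (hx : 0 < x) (Q : Multiset ℕ) (g p s F N : ℕ) (hN : N ≤ F) (h : Q ≠ 0 ∨ g ≠ 0) :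
    GR.SM (law hx) (UM x Q g p s F N) := by
  constructor
  · intro q v
    unfold UM
    split_ifs
    · exact div_nonneg (UU_nonneg _ _ _ _ _) (UU_nonneg _ _ _ _ _)
    · exact le_rfl
  · intro q v T hq hT
    by_cases hv : v ≤ N
    · have hS := hist_UU x (p + q) (by omega) Q (F - v) g h
        ((T.filter fun t => v + t.vol ≤ N).image fun t => [t]) ?_ ?_
      · rw [Finset.sum_image fun a _ b _ hab => List.head_eq_of_cons_eq hab] at hS
        have h1 : ∑ t ∈ T, (law hx).w t * UM x Q g p s F N (t.nx q) (v + t.vol) =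
            (∑ t ∈ T.filter (fun t => v + t.vol ≤ N),
              PRW x [t] * UU x Q g (wend (p + q) [t]) (F - v - wvol [t])) / UU x Q g (p + s) F := by
          rw [Finset.sum_div, Finset.sum_filter]
          refine Finset.sum_congr rfl fun t ht => ?_
          unfold UM
          split_ifs
          · have e1 : PRW x [t] = (law hx).w t := by
              rw [← law_ww hx]
              show wwt (law hx).A (law hx).q [t] = t.wt (law hx).A (law hx).q
              rw [wwt_cons, wwt_nil, mul_one]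
            have e2 : wvol [t] = t.vol := by rw [wvol_cons, wvol_nil, add_zero]
            have e3 : wend (p + q) [t] = p + t.nx q := by
              have e4 : WOk q [t] := ⟨hT t ht, trivial⟩
              have e5 := (WOk_shift p e4).2
              rw [Nat.add_comm p q, e5, wend_cons, wend_nil, Nat.add_comm]
            rw [e1, e2, e3, Nat.sub_sub, mul_div_assoc]
          · rw [mul_zero]
        rw [h1]
        have h2 : UM x Q g p s F N q v = UU x Q g (p + q) (F - v) / UU x Q g (p + s) F := by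
          unfold UM
          rw [if_pos hv]
        rw [h2]
        exact div_le_div_of_nonneg_right hS (UU_nonneg _ _ _ _ _)
      · intro u hu w hw huw
        obtain ⟨a, _, rfl⟩ := Finset.mem_image.1 hu
        obtain ⟨b, _, rfl⟩ := Finset.mem_image.1 hw
        have h1 := (List.cons_prefix_cons.1 huw).1
        rw [h1]
      · intro w hw
        obtain ⟨a, ha, rfl⟩ := Finset.mem_image.1 hw
        obtain ⟨ha1, ha2⟩ := Finset.mem_filter.1 ha
        have e4 : WOk q [a] := ⟨hT a ha1, trivial⟩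
        have e5 := (WOk_shift p e4).1
        rw [Nat.add_comm q p] at e5
        refine ⟨e5, ?_⟩
        rw [wvol_cons, wvol_nil, add_zero]
        omega
    · have h2 : UM x Q g p s F N q v = 0 := by
        unfold UM
        rw [if_neg hv]
      rw [h2]
      refine (Finset.sum_eq_zero fun t _ => ?_).le
      unfold UM
      rw [if_neg (by omega), mul_zero]

theorem UM_le (h : Par θ x) {ε : ℝ} (hε : 0 < ε) (s₀ : ℕ) :
    ∃ (K δ : ℝ) (M : ℕ), 0 < K ∧ 0 < δ ∧
    ∀ (Q : Multiset ℕ) (F g p s N : ℕ), 1 ≤ s → s ≤ s₀ → (N : ℝ) ≤ δ * F →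
      Win θ δ M ((p + s) ::ₘ Q) F g →
      ∀ q v : ℕ, q ≤ s + v → UM x Q g p s F N q v ≤ K * Real.exp (ε * ((q : ℝ) + v)) := by
  obtain ⟨K₁, δ₁, M₁, hK₁, hδ₁, h₁⟩ := ub h hε
  obtain ⟨K₂, δ₂, M₂, hK₂, hδ₂, h₂⟩ := ub_low h hε s₀
  have hθ : 0 < θ := h.1
  have hmin : 0 < min (min δ₁ δ₂) θ := lt_min (lt_min hδ₁ hδ₂) hθ
  refine ⟨K₁ + K₂, min (min δ₁ δ₂) θ / 2, max 1 (max M₁ M₂), by positivity, by positivity, ?_⟩
  intro Q F g r s N hs hs0 hN hW p v hpv
  obtain ⟨δ, hδ⟩ : ∃ δ, δ = min (min δ₁ δ₂) θ / 2 := ⟨_, rfl⟩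
  rw [← hδ] at hN hW
  have hδ0 : 0 < δ := by rw [hδ]; positivity
  have hδa : 2 * δ ≤ δ₁ := by
    rw [hδ]
    linarith [(min_le_left (min δ₁ δ₂) θ).trans (min_le_left δ₁ δ₂)]
  have hδb : 2 * δ ≤ δ₂ := by
    rw [hδ]
    linarith [(min_le_left (min δ₁ δ₂) θ).trans (min_le_right δ₁ δ₂)]
  have hδc : δ < θ := by
    have h1 : 2 * δ ≤ θ := by
      rw [hδ]
      linarith [min_le_right (min δ₁ δ₂) θ]
    linarith
  have hF : (0 : ℝ) ≤ F := Nat.cast_nonneg F
  have hg : g ≠ 0 := gs_g hθ hδc (le_max_left _ _) hW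
  have hE : 0 < Real.exp (ε * ((p : ℝ) + v)) := Real.exp_pos _
  have hR : 0 ≤ (K₁ + K₂) * Real.exp (ε * ((p : ℝ) + v)) := by positivity
  unfold UM
  by_cases hv : v ≤ N
  · rw [if_pos hv]
    refine gs_div hR (UU_nonneg _ _ _ _ _) fun hsz => ?_
    have hU := UU_nonneg x Q g (r + s) F
    have hRU : 0 ≤ (K₁ + K₂) * Real.exp (ε * ((p : ℝ) + v)) * UU x Q g (r + s) F := mul_nonneg hR hU
    by_cases hz : muG ((r + p) ::ₘ Q) (F - v) g = 0
    · have h0 : UU x Q g (r + p) (F - v) = 0 := by
        unfold UU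
        rw [hz, zero_mul, zero_div]
      rw [h0]
      exact hRU
    · have hp : 1 ≤ r + p := by
        rcases Nat.eq_zero_or_pos (r + p) with hp0 | hp0
        · exfalso
          rw [hp0, tutG_zero, if_neg fun h => hg h.2.2] at hz
          exact hz rfl
        · exact hp0
      have hvF : v ≤ F := by
        have h3 : (N : ℝ) ≤ F := by
          have h4 : δ * (F : ℝ) ≤ 1 * F := by
            refine mul_le_mul_of_nonneg_right ?_ hF
            have := h.2.1
            linarith
          linarith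
        have h5 : N ≤ F := by exact_mod_cast h3
        omega
      have hpar : Even (r + s + (r + p) + v) := by
        have h3 : Even (F - v + ((r + p) ::ₘ Q).sum) := by
          by_contra h4
          exact hz (muG_odd h4 g)
        have h5 : Even (F + ((r + s) ::ₘ Q).sum) := by
          by_contra h4
          refine hsz ?_
          unfold UU
          rw [muG_odd h4 g, zero_mul, zero_div]
        rw [Multiset.sum_cons, Nat.even_iff] at h3 h5
        rw [Nat.even_iff]
        omega
      have hWp : Win θ (2 * δ) (max 1 (max M₁ M₂)) ((r + p) ::ₘ Q) F g := by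
        refine ⟨hW.1, hW.2.1.trans ?_, ?_, ?_⟩
        · exact mul_le_mul_of_nonneg_right (by linarith) hF
        · have h3 := hW.2.2.1
          rw [Multiset.sum_cons, Nat.cast_add] at h3 ⊢
          have h4 : ((r + p : ℕ) : ℝ) ≤ ((r + s : ℕ) : ℝ) + v := by
            have : r + p ≤ r + s + v := by omega
            exact_mod_cast this
          have h5 : (v : ℝ) ≤ N := by exact_mod_cast hv
          linarith
        · intro q hq
          rcases Multiset.mem_cons.1 hq with h3 | h3
          · rw [h3]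
            exact hp
          · exact hW.2.2.2 q (Multiset.mem_cons_of_mem h3)
      have hv0 : (0 : ℝ) ≤ v := Nat.cast_nonneg v
      have hp0 : (0 : ℝ) ≤ p := Nat.cast_nonneg p
      rcases le_or_gt s p with hsp | hsp
      · refine (h₁ Q F g (r + s) (r + p) v (by omega) (by omega) hvF hpar
          (hWp.mono hδa ((le_max_left _ _).trans (le_max_right _ _)))).trans ?_
        refine mul_le_mul_of_nonneg_right ?_ hU
        refine mul_le_mul (by linarith) (Real.exp_le_exp.2 ?_) (Real.exp_pos _).le (by positivity)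
        refine mul_le_mul_of_nonneg_left ?_ hε.le
        have h6 : ((r + p - (r + s) : ℕ) : ℝ) ≤ p := by
          have : r + p - (r + s) ≤ p := by omega
          exact_mod_cast this
        linarith
      · refine (h₂ Q F g (r + s) (r + p) v hp (by omega) (by omega) hvF hpar
          (hWp.mono hδb ((le_max_right _ _).trans (le_max_right _ _)))).trans ?_
        refine mul_le_mul_of_nonneg_right ?_ hU
        refine mul_le_mul (by linarith) (Real.exp_le_exp.2 ?_) (Real.exp_pos _).le (by positivity)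
        refine mul_le_mul_of_nonneg_left ?_ hε.le
        linarith
  · rw [if_neg hv]
    exact hR

theorem UM_sum (h : Par θ x) (s₀ : ℕ) : ∃ (δ : ℝ) (M : ℕ), 0 < δ ∧
    ∀ (Q : Multiset ℕ) (F g p s N : ℕ) (S : Finset (List Stp)) (f : List Stp → ℝ) (B : ℝ),
      1 ≤ s → s ≤ s₀ → N ≤ F → Win θ δ M ((p + s) ::ₘ Q) F g →
      (∀ w ∈ S, WOk s w ∧ wvol w ≤ N ∧ (wend s w : ℝ) ≤ δ * F) → (∀ w ∈ S, 0 ≤ f w) → 0 ≤ B →
      ∑ w ∈ S, (law h.2.2.1).ww w * f w * UM x Q g p s F N (wend s w) (wvol w) ≤ B →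
      ∑ w ∈ S, wwt 1 W w * f w * muG ((p + wend s w) ::ₘ Q) (F - wvol w) g ≤
        B * muG ((p + s) ::ₘ Q) F g := by
  refine ⟨θ / 2, 1, by have := h.1; positivity, ?_⟩
  intro Q F g p s N S f B hs _ hN hW hS hf hB hsum
  have hA : 0 < AA x := by
    have := AA_gt x
    linarith
  have hy : 0 < √(yy x) := Real.sqrt_pos.2 (yy_pos x)
  have hg : g ≠ 0 := gs_g h.1 (by have := h.1; linarith) le_rfl hW
  obtain ⟨c, hc⟩ : ∃ c, c = √(yy x) ^ (F + (p + s)) / AA x ^ (p + s) := ⟨_, rfl⟩
  have hc0 : 0 < c := by rw [hc]; positivity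
  have hUs : UU x Q g (p + s) F = muG ((p + s) ::ₘ Q) F g * c := by
    rw [hc]
    unfold UU
    ring
  have hsh : ∀ w ∈ S, WOk (p + s) w ∧ wend (p + s) w = p + wend s w := by
    intro w hw
    have h1 := WOk_shift p (hS w hw).1
    rw [Nat.add_comm s p, Nat.add_comm (wend s w) p] at h1
    exact h1
  have hw : ∀ w ∈ S, wwt 1 W w * muG ((p + wend s w) ::ₘ Q) (F - wvol w) g * c =
      PRW x w * UU x Q g (p + wend s w) (F - wvol w) := by
    intro w hw
    have h1 := word_UU x Q g (p + s) F w (hsh w hw).1 ((hS w hw).2.1.trans hN)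
    rw [(hsh w hw).2] at h1
    rw [hc]
    exact h1
  by_cases h0 : UU x Q g (p + s) F = 0
  · have h1 : muG ((p + s) ::ₘ Q) F g = 0 := gs_zero h0
    rw [h1, mul_zero]
    refine Finset.sum_nonpos fun w hwS => ?_
    have h2 := hist_UU x (p + s) (by omega) Q F g (Or.inr hg) {w} ?_ ?_
    · rw [Finset.sum_singleton, (hsh w hwS).2, ← hw w hwS, h0] at h2
      have h3 : wwt 1 W w * muG ((p + wend s w) ::ₘ Q) (F - wvol w) g ≤ 0 := by
        by_contra h3
        exact absurd h2 (not_le.2 (mul_pos (not_le.1 h3) hc0))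
      have h4 := mul_nonpos_of_nonneg_of_nonpos (hf w hwS) h3
      calc wwt 1 W w * f w * muG ((p + wend s w) ::ₘ Q) (F - wvol w) g
          = f w * (wwt 1 W w * muG ((p + wend s w) ::ₘ Q) (F - wvol w) g) := by ring
        _ ≤ 0 := h4
    · intro u hu v hv _
      rw [Finset.mem_singleton.1 hu, Finset.mem_singleton.1 hv]
    · intro u hu
      rw [Finset.mem_singleton.1 hu]
      exact ⟨(hsh w hwS).1, (hS w hwS).2.1.trans hN⟩
  · have hU : 0 < UU x Q g (p + s) F := lt_of_le_of_ne (UU_nonneg _ _ _ _ _) (Ne.symm h0)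
    have h1 : ∑ w ∈ S, (law h.2.2.1).ww w * f w * UM x Q g p s F N (wend s w) (wvol w) =
        (∑ w ∈ S, wwt 1 W w * f w * muG ((p + wend s w) ::ₘ Q) (F - wvol w) g) * c /
          UU x Q g (p + s) F := by
      rw [Finset.sum_mul, Finset.sum_div]
      refine Finset.sum_congr rfl fun w hwS => ?_
      have h2 : wwt 1 W w * f w * muG ((p + wend s w) ::ₘ Q) (F - wvol w) g * c =
          f w * (PRW x w * UU x Q g (p + wend s w) (F - wvol w)) := by
        rw [← hw w hwS]
        ring
      rw [h2, law_ww]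
      unfold UM
      rw [if_pos (hS w hwS).2.1]
      ring
    rw [h1, div_le_iff₀ hU, hUs, ← mul_assoc] at hsum
    exact le_of_mul_le_mul_right hsum hc0

end SYS.Num
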