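import Pool.Agent.SYS.VI.Pw
import Pool.Agent.SYS.PL.Gr
import Pool.Agent.SYS.GR.Vol
import Pool.Agent.SYS.GR.Minus
import Pool.Agent.SYS.BD.FH

/-!
# SYS-VI-GroW: words with a positive fraction of all triangles, read in a merged hole

PROOF. As `far_vol` in `GroV.lean` (the case `p = 0`): `word_le'` (with `p₀ = s₀` and `ε` at most the `ε₀` of `GR.vol (law hx)`) for the word started at `p + s` (`WOk_shift`: it ends at `p + wend s w`,
`p + s ≤ (p + wend s w) + s₀`, and the exponent is `(wend s w - s) + wvol w`); `wend s w ≤ P + 1` by `GR.wend_le_of_prefix`. Then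
`GR.vol` with `P` and the constant `δ₁ F / P`: `∑ PRW x w * exp (ε (wend + wvol)) ≤ exp (- c δ₁ F)`. Take `c' = c δ₁ / 2`; `K` is absorbed for `F ≥ M`.
-/

namespace SYS.Num

variable {θ x : ℝ}

theorem far_vol_s (h : Par θ x) (s₀ : ℕ) {δ₁ : ℝ} (hδ₁ : 0 < δ₁) :
    ∃ (c δ : ℝ) (M : ℕ), 0 < c ∧ 0 < δ ∧
    ∀ (Q : Multiset ℕ) (F g p s : ℕ) (P : ℝ) (S : Finset (List Stp)), 1 ≤ s → s ≤ s₀ → 1 ≤ P →
      P ≤ δ * F → Win θ δ M ((p + s) ::ₘ Q) F g → PF S →
      (∀ w ∈ S, WOk s w ∧ wvol w ≤ F ∧ δ₁ * F ≤ wvol w ∧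
        ∀ u, u <+: w → u ≠ w → (wend s u : ℝ) < P) →
      ∑ w ∈ S, wwt 1 W w * muG ((p + wend s w) ::ₘ Q) (F - wvol w) g ≤
        Real.exp (-c * F) * muG ((p + s) ::ₘ Q) F g := by
  obtain ⟨ε₀, c₀, C₀, hε₀, hc₀, hC₀, hvol⟩ := GR.vol (law h.2.2.1)
  obtain ⟨K, δa, Ma, hK, hδa, hW⟩ := word_le' h hε₀ s₀
  obtain ⟨c, hc⟩ : ∃ c, c = c₀ * δ₁ / 2 := ⟨_, rfl⟩
  have hc0 : 0 < c := by rw [hc]; positivity
  obtain ⟨M₁, hM₁⟩ := exists_nat_ge (K / c)
  refine ⟨c, min (δa / 3) (δ₁ / C₀), max 1 (max Ma M₁), hc0, lt_min (by positivity) (by positivity), ?_⟩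
  intro Q F g p s P S hs hs0 hP hPF hWin hPFS hS
  have hF1 : 1 ≤ F := (le_max_left _ _).trans hWin.1
  have hFM : M₁ ≤ F := ((le_max_right _ _).trans (le_max_right _ _)).trans hWin.1
  have hF0 : (0 : ℝ) < F := by exact_mod_cast hF1
  have hP0 : 0 < P := by linarith
  have hPa : P ≤ δa / 3 * F := hPF.trans (mul_le_mul_of_nonneg_right (min_le_left _ _) hF0.le)
  have hPb : P ≤ δ₁ / C₀ * F := hPF.trans (mul_le_mul_of_nonneg_right (min_le_right _ _) hF0.le)
  have hm := muG_nonneg ((p + s) ::ₘ Q) F g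
  have hPRW : ∀ w : List Stp, 0 ≤ (law h.2.2.1).ww w := fun w => (law h.2.2.1).ww_nonneg w
  have hterm : ∀ w ∈ S, wwt 1 W w * muG ((p + wend s w) ::ₘ Q) (F - wvol w) g ≤
      (K * muG ((p + s) ::ₘ Q) F g) *
        ((law h.2.2.1).ww w * Real.exp (ε₀ * ((wend s w : ℝ) + wvol w))) := by
    intro w hw
    obtain ⟨h1, h2, h3, h4⟩ := hS w hw
    have hne : w ≠ [] := by
      rintro rfl
      rw [wvol_nil, Nat.cast_zero] at h3
      have : 0 < δ₁ * F := mul_pos hδ₁ hF0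
      linarith
    have hend : (wend s w : ℝ) ≤ P + 1 := GR.wend_le_of_prefix h1 hne h4 w (List.prefix_refl w)
    obtain ⟨h5, h6⟩ := WOk_shift p h1
    have h6' : wend (p + s) w = p + wend s w := by
      rw [Nat.add_comm p s, h6, Nat.add_comm]
    have h5' : WOk (p + s) w := by
      rw [Nat.add_comm]
      exact h5
    have hone := one_le_wend hs h1
    have hwin : Win θ δa Ma (wend (p + s) w ::ₘ Q) F g := by
      rw [h6']
      refine ⟨((le_max_left _ _).trans (le_max_right _ _)).trans hWin.1, hWin.2.1.trans ?_, ?_, ?_⟩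
      · refine mul_le_mul_of_nonneg_right ((min_le_left _ _).trans ?_) hF0.le
        linarith
      · have h7 := hWin.2.2.1.trans (mul_le_mul_of_nonneg_right (min_le_left _ _) hF0.le)
        rw [Multiset.sum_cons] at h7 ⊢
        push_cast at h7 ⊢
        have h8 : (0 : ℝ) ≤ s := Nat.cast_nonneg s
        linarith
      · intro q hq
        rcases Multiset.mem_cons.1 hq with h7 | h7
        · rw [h7]
          omega
        · exact hWin.2.2.2 q (Multiset.mem_cons_of_mem h7)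
    have key := hW Q F g (p + s) w (by omega) h5' (by rw [h6']; omega) h2 hwin
    rw [h6'] at key
    refine key.trans ?_
    have h9 : (((p + wend s w) - (p + s) : ℕ) : ℝ) ≤ wend s w := by
      have : (p + wend s w) - (p + s) ≤ wend s w := by omega
      exact_mod_cast this
    have h10 : Real.exp (ε₀ * ((((p + wend s w) - (p + s) : ℕ) : ℝ) + wvol w)) ≤
        Real.exp (ε₀ * ((wend s w : ℝ) + wvol w)) :=
      Real.exp_le_exp.2 (mul_le_mul_of_nonneg_left (by linarith) hε₀.le)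
    have h11 := mul_le_mul_of_nonneg_left h10 (hPRW w)
    have h12 := mul_le_mul_of_nonneg_left h11 (mul_nonneg hK.le hm)
    calc K * (PRW x w * Real.exp (ε₀ * ((((p + wend s w) - (p + s) : ℕ) : ℝ) + wvol w))) *
          muG ((p + s) ::ₘ Q) F g
        = (K * muG ((p + s) ::ₘ Q) F g) * ((law h.2.2.1).ww w *
            Real.exp (ε₀ * ((((p + wend s w) - (p + s) : ℕ) : ℝ) + wvol w))) := by
          rw [law_ww]
          ring
      _ ≤ _ := h12
  have hCP : δ₁ * F / P * P = δ₁ * F := by field_simp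
  have hC : C₀ ≤ δ₁ * F / P := by
    rw [le_div_iff₀ hP0]
    calc C₀ * P ≤ C₀ * (δ₁ / C₀ * F) := mul_le_mul_of_nonneg_left hPb hC₀.le
      _ = δ₁ * F := by field_simp
  have hv := hvol ε₀ (δ₁ * F / P) P s S hε₀.le le_rfl hC hP hPFS (fun w hw => by
    obtain ⟨h1, h2, h3, h4⟩ := hS w hw
    refine ⟨h1, h4, ?_⟩
    rw [hCP]
    exact h3)
  have hexp : -c₀ * (δ₁ * F / P) * P = -(2 * c) * F := by
    rw [mul_assoc, hCP, hc]
    ring
  rw [hexp] at hv
  have hKc : K ≤ Real.exp (c * F) := by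
    have h1 : K / c ≤ F := hM₁.trans (by exact_mod_cast hFM)
    rw [div_le_iff₀ hc0] at h1
    have h2 := Real.add_one_le_exp (c * F)
    linarith
  calc ∑ w ∈ S, wwt 1 W w * muG ((p + wend s w) ::ₘ Q) (F - wvol w) g
      ≤ ∑ w ∈ S, (K * muG ((p + s) ::ₘ Q) F g) *
        ((law h.2.2.1).ww w * Real.exp (ε₀ * ((wend s w : ℝ) + wvol w))) := Finset.sum_le_sum hterm
    _ = (K * muG ((p + s) ::ₘ Q) F g) *
        ∑ w ∈ S, (law h.2.2.1).ww w * Real.exp (ε₀ * ((wend s w : ℝ) + wvol w)) := by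
        rw [Finset.mul_sum]
    _ ≤ (K * muG ((p + s) ::ₘ Q) F g) * Real.exp (-(2 * c) * F) :=
        mul_le_mul_of_nonneg_left hv (mul_nonneg hK.le hm)
    _ = K * Real.exp (-(2 * c) * F) * muG ((p + s) ::ₘ Q) F g := by ring
    _ ≤ Real.exp (-c * F) * muG ((p + s) ::ₘ Q) F g := by
        refine mul_le_mul_of_nonneg_right ?_ hm
        calc K * Real.exp (-(2 * c) * F) ≤ Real.exp (c * F) * Real.exp (-(2 * c) * F) :=
              mul_le_mul_of_nonneg_right hKc (Real.exp_pos _).le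
          _ = Real.exp (-c * F) := by
              rw [← Real.exp_add]
              congr 1
              ring

end SYS.Num
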