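import Pool.Agent.SYS.VI.GroS
import Pool.Agent.SYS.VI.GroW
import Pool.Agent.SYS.GR.Plus
import Pool.Agent.SYS.GR.Pre

/-!
# SYS-VI-GroK: moments of the perimeter after `m` layers, in a merged hole

The constant `C` does not depend on `m`.
PROOF. `S` is prefix-free (a proper prefix of an element has fewer layers). `GR.gro_plus' (law hx) δ` gives `ε, c, C₁`; `UM_le` with this `ε` gives `K`, `δ₂` (also small for `UM_sum`, `far_vol_s`).
Let `E = exp ((1 + δ) * (2 x) * (m + 1))`, `P = δ₃ F`, `N = ⌊δ₂ F⌋`, `U = UM x Q g p s F N` (`U s 0 ≤ 1`). `lay s u ≤ m` for all prefixes `u` of elements of `S`.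
(1) `S₁` = words with `wvol w ≤ N` and `wend s u < P` for all prefixes `u` of `w` (including `w`). For `b : ℕ` let `S₁ b` be the words with `b E ≤ wend s w < (b + 1) E`. `∑_{S₁ b} ww * U ≤ 1` (`GR.word_sum` or `GR.pre_dom` with the
property `u = []`), and `≤ C₁ K exp (- c b)` for `b ≥ s` (`gro_plus'` with `P`). So `∑_{S₁} ww * (wend)^k * U ≤ E ^ k * (∑_{b < s₀} (b + 1) ^ k + C₁ K ∑_b (b + 1) ^ k exp (- c b)) =: E ^ k * C₂`, and
`E ^ k = exp (k (1 + δ) (2 x) m) * exp (k (1 + δ) (2 x))`. Then `UM_sum` with `f w = (wend s w) ^ k`.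
(2) The other words of `S` have a prefix `u` with `P ≤ wend s u` or `N < wvol u`; let `W'` be the set of the minimal ones. `(wend s w) ^ k ≤ (s₀ + F) ^ k` (`wend ≤ s + wvol`, `GR/Pre`: `wend_le`), and by `GR.pre_dom` for
`UM x Q g p s F F` (cut at `F` only; `UM_SM`) and `word_UU`: `∑ wwt 1 W w * muG .. ≤ ∑_{u ∈ W'} wwt 1 W u * muG ..`. The `u ∈ W'` with `N < wvol u`: `far_vol_s` (`δ₁ = δ₂ / 2`, proper prefixes are `< P`): `≤ exp (- c₁ F)`. The `u ∈ W'` with
`wvol u ≤ N`, `P ≤ wend s u`: `gro_plus'` with `b = P / E` (`lay s u + 1 ≤ m + 1`), `UM_sum` (`f = 1`): `≤ C₁ K exp (- c P / E)`. Both are `≤ (s₀ + F) ^ (- k)` for `F ≥ M` (`M` depends on `m`).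
-/

namespace SYS.Num

variable {θ x : ℝ}

private theorem gk_g {θ : ℝ} {δ : ℝ} (hδ : δ < θ) {M : ℕ} (hM : 1 ≤ M) {P : Multiset ℕ}
    {F g : ℕ} (h : Win θ δ M P F g) : g ≠ 0 := by
  intro h0
  have h1 := h.2.1
  rw [h0, Nat.cast_zero, mul_zero, zero_sub, abs_neg] at h1
  have h2 : (1 : ℝ) ≤ F := by exact_mod_cast hM.trans h.1
  have h3 : θ * (F : ℝ) ≤ δ * F := (le_abs_self _).trans h1
  nlinarith

private theorem gk_dec {a : ℝ} (ha : 0 < a) (k s₀ : ℕ) {η : ℝ} (hη : 0 < η) :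
    ∃ M : ℕ, ∀ F : ℕ, M ≤ F → ((s₀ : ℝ) + F) ^ k * Real.exp (-a * F) ≤ η := by
  have h1 := (Real.summable_pow_mul_exp_neg_nat_mul k ha).tendsto_atTop_zero
  have hη' : 0 < η * Real.exp (-a * s₀) := mul_pos hη (Real.exp_pos _)
  obtain ⟨M, hM⟩ := Filter.eventually_atTop.1 (h1.eventually (ge_mem_nhds hη'))
  refine ⟨M, fun F hF => ?_⟩
  have h2 := hM (s₀ + F) (by omega)
  push_cast at h2
  have h3 : Real.exp (-a * ((s₀ : ℝ) + F)) = Real.exp (-a * s₀) * Real.exp (-a * F) := by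
    rw [← Real.exp_add]
    congr 1
    ring
  rw [h3] at h2
  have h4 : ((s₀ : ℝ) + F) ^ k * Real.exp (-a * F) * Real.exp (-a * s₀) ≤
      η * Real.exp (-a * s₀) := by
    calc ((s₀ : ℝ) + F) ^ k * Real.exp (-a * F) * Real.exp (-a * s₀)
        = ((s₀ : ℝ) + F) ^ k * (Real.exp (-a * s₀) * Real.exp (-a * F)) := by ring
      _ ≤ η * Real.exp (-a * s₀) := h2
  exact le_of_mul_le_mul_right h4 (Real.exp_pos _)

private theorem gk_eq (hx : 0 < x) {Q : Multiset ℕ} {g p s F : ℕ} {w : List Stp} (hs : 1 ≤ s)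
    (h : Q ≠ 0 ∨ g ≠ 0) (hw : WOk s w) (hv : wvol w ≤ F) :
    wwt 1 W w * muG ((p + wend s w) ::ₘ Q) (F - wvol w) g =
      (law hx).ww w * UM x Q g p s F F (wend s w) (wvol w) * muG ((p + s) ::ₘ Q) F g := by
  obtain ⟨h1, h2⟩ := WOk_shift p hw
  have hA : 0 < AA x := by
    have := AA_gt x
    linarith
  have hy : 0 < √(yy x) := Real.sqrt_pos.2 (yy_pos x)
  have h3 := word_UU x Q g (s + p) F w h1 hv
  rw [h2] at h3
  have e1 : wend s w + p = p + wend s w := add_comm _ _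
  have e2 : s + p = p + s := add_comm _ _
  rw [e1, e2] at h3
  have hcc : 0 < √(yy x) ^ (F + (p + s)) / AA x ^ (p + s) := by positivity
  have hUU : UU x Q g (p + s) F =
      muG ((p + s) ::ₘ Q) F g * (√(yy x) ^ (F + (p + s)) / AA x ^ (p + s)) := by
    unfold UU
    rw [mul_div_assoc]
  rcases eq_or_ne (muG ((p + s) ::ₘ Q) F g) 0 with h0 | h0
  · rw [h0, mul_zero]
    have h4 := hist (p + s) (by omega) Q F g h {w} (by
      intro u hu v hv' _
      rw [Finset.mem_singleton.1 hu, Finset.mem_singleton.1 hv']) (by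
      intro v hv'
      rw [Finset.mem_singleton.1 hv', ← e2]
      exact ⟨h1, hv⟩)
    rw [Finset.sum_singleton, h0, ← e2, h2, e1] at h4
    exact le_antisymm h4 (mul_nonneg (wwt_nonneg zero_le_one (fun k a => muG_nonneg _ _ _) w)
      (muG_nonneg _ _ _))
  · unfold UM
    rw [if_pos hv, hUU, law_ww]
    have h5 : wwt 1 W w * muG ((p + wend s w) ::ₘ Q) (F - wvol w) g =
        PRW x w * UU x Q g (p + wend s w) (F - wvol w) /
          (√(yy x) ^ (F + (p + s)) / AA x ^ (p + s)) := by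
      rw [eq_div_iff hcc.ne']
      exact h3
    rw [h5]
    generalize √(yy x) ^ (F + (p + s)) / AA x ^ (p + s) = cc at hcc
    field_simp

private theorem gk_sum (Λ : GR.Law) (U : ℕ → ℕ → ℝ) (hU : GR.SM Λ U) (s : ℕ) (hs : 1 ≤ s)
    (V : Finset (List Stp)) (hV : PF V) (hok : ∀ w ∈ V, WOk s w) :
    ∑ w ∈ V, Λ.ww w * U (wend s w) (wvol w) ≤ U s 0 := by
  obtain ⟨V', hP, hV', hsum⟩ := GR.pre_dom Λ U hU s hs V hV hok (fun _ => True)
    (fun w _ => ⟨[], List.nil_prefix, trivial⟩)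
  refine hsum.trans ?_
  have hs' : V' ⊆ {[]} := by
    intro u hu
    by_contra hne
    refine (hV' u hu).2.1 [] List.nil_prefix (fun h => hne ?_) trivial
    rw [← h]
    exact Finset.mem_singleton_self _
  calc ∑ u ∈ V', Λ.ww u * U (wend s u) (wvol u)
      ≤ ∑ u ∈ ({[]} : Finset (List Stp)), Λ.ww u * U (wend s u) (wvol u) :=
        Finset.sum_le_sum_of_subset_of_nonneg hs'
          (fun u _ _ => mul_nonneg (Λ.ww_nonneg u) (hU.1 _ _))
    _ = U s 0 := by
        rw [Finset.sum_singleton, Λ.ww_nil, wend_nil, wvol_nil, one_mul]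

private theorem gk_pf {V V' : Finset (List Stp)} (h : PF V) (hV : ∀ w ∈ V', w ∈ V) : PF V' :=
  fun u hu w hw huw => h u (hV u hu) w (hV w hw) huw

private theorem gk_summable {c : ℝ} (hc : 0 < c) (k : ℕ) :
    Summable fun b : ℕ => ((b : ℝ) + 1) ^ k * Real.exp (-c * b) := by
  have h1 := Real.summable_pow_mul_exp_neg_nat_mul k hc
  have h2 := ((summable_nat_add_iff 1).2 h1).mul_left (Real.exp c)
  refine h2.congr fun b => ?_
  push_cast
  have h3 : Real.exp (-c * ((b : ℝ) + 1)) = Real.exp (-c * b) * Real.exp (-c) := by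
    rw [← Real.exp_add]
    congr 1
    ring
  have h4 : Real.exp c * Real.exp (-c) = 1 := by
    rw [← Real.exp_add, add_neg_cancel, Real.exp_zero]
  rw [h3]
  linear_combination ((b : ℝ) + 1) ^ k * Real.exp (-c * b) * h4

private theorem gk_part1 (Λ : GR.Law) {δ ε c C₁ K : ℝ} (hc : 0 < c) (hC₁ : 0 < C₁) (hK : 0 < K)
    (s₀ k : ℕ)
    (hgro : ∀ (s : ℕ) (b P K : ℝ) (U : ℕ → ℕ → ℝ) (W : Finset (List Stp)), 1 ≤ s → (s : ℝ) ≤ b →
      0 ≤ K → GR.SM Λ U →
      (∀ p v : ℕ, p ≤ s + v → (p : ℝ) ≤ P + 1 → U p v ≤ K * Real.exp (ε * ((p : ℝ) + v))) → PF W →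
      (∀ w ∈ W, WOk s w ∧ (∀ u, u <+: w → u ≠ w → (wend s u : ℝ) < P) ∧
        (b * Real.exp ((1 + δ) * Λ.kap * (GR.lay s w + 1)) ≤ wend s w ∨
          C₁ * (b * Real.exp ((1 + δ) * Λ.kap * (GR.lay s w + 1))) ≤ wvol w)) →
      ∑ w ∈ W, Λ.ww w * U (wend s w) (wvol w) ≤ C₁ * K * Real.exp (-c * b))
    (s : ℕ) (P : ℝ) (U : ℕ → ℕ → ℝ) (S : Finset (List Stp)) (m : ℕ) (hs : 1 ≤ s) (hs₀ : s ≤ s₀)
    (hU : GR.SM Λ U) (hU1 : U s 0 ≤ 1)
    (hUb : ∀ q v : ℕ, q ≤ s + v → U q v ≤ K * Real.exp (ε * ((q : ℝ) + v))) (hPF : PF S)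
    (hS : ∀ w ∈ S, WOk s w ∧ (∀ u, u <+: w → u ≠ w → (wend s u : ℝ) < P) ∧ GR.lay s w = m) :
    ∑ w ∈ S, Λ.ww w * (wend s w : ℝ) ^ k * U (wend s w) (wvol w) ≤
      Real.exp ((1 + δ) * Λ.kap * (m + 1)) ^ k *
        ((C₁ * K + Real.exp (c * s₀)) * ∑' b : ℕ, ((b : ℝ) + 1) ^ k * Real.exp (-c * b)) := by
  classical
  obtain ⟨E, hE⟩ : ∃ E, E = Real.exp ((1 + δ) * Λ.kap * (m + 1)) := ⟨_, rfl⟩
  have hE0 : 0 < E := by rw [hE]; exact Real.exp_pos _
  rw [← hE]
  obtain ⟨φ, hφ⟩ : ∃ φ : List Stp → ℕ, ∀ w, φ w = ⌊(wend s w : ℝ) / E⌋₊ := ⟨_, fun _ => rfl⟩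
  have hmap : ∀ w ∈ S, φ w ∈ S.image φ := fun w hw => Finset.mem_image_of_mem φ hw
  rw [← Finset.sum_fiberwise_of_maps_to hmap]
  have hfib : ∀ b ∈ S.image φ, ∑ w ∈ S with φ w = b,
      Λ.ww w * (wend s w : ℝ) ^ k * U (wend s w) (wvol w) ≤
      E ^ k * (C₁ * K + Real.exp (c * s₀)) * (((b : ℝ) + 1) ^ k * Real.exp (-c * b)) := by
    intro b _
    have hw1 : ∀ w ∈ S.filter (fun w => φ w = b), (b : ℝ) * E ≤ wend s w ∧
        (wend s w : ℝ) ≤ (b + 1) * E := by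
      intro w hw
      obtain ⟨h1, h2⟩ := Finset.mem_filter.1 hw
      rw [hφ] at h2
      have h3 : (0 : ℝ) ≤ (wend s w : ℝ) / E := by positivity
      have h4 := Nat.floor_le h3
      have h5 := Nat.lt_floor_add_one ((wend s w : ℝ) / E)
      rw [h2] at h4 h5
      rw [le_div_iff₀ hE0] at h4
      rw [div_lt_iff₀ hE0] at h5
      exact ⟨h4, h5.le⟩
    have hpf : PF (S.filter (fun w => φ w = b)) := gk_pf hPF fun w hw => (Finset.mem_filter.1 hw).1
    have hsm : ∑ w ∈ S with φ w = b, Λ.ww w * U (wend s w) (wvol w) ≤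
        (C₁ * K + Real.exp (c * s₀)) * Real.exp (-c * b) := by
      rcases le_total s₀ b with hb | hb
      · have h1 := hgro s b P K U (S.filter (fun w => φ w = b)) hs
          (by exact_mod_cast hs₀.trans hb) hK.le hU (fun q v h _ => hUb q v h) hpf (by
            intro w hw
            obtain ⟨a1, a2, a3⟩ := hS w (Finset.mem_filter.1 hw).1
            refine ⟨a1, a2, Or.inl ?_⟩
            rw [a3, ← hE]
            exact (hw1 w hw).1)
        refine h1.trans (mul_le_mul_of_nonneg_right ?_ (Real.exp_pos _).le)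
        have := Real.exp_pos (c * s₀)
        linarith
      · have h1 := gk_sum Λ U hU s hs (S.filter (fun w => φ w = b)) hpf
          (fun w hw => (hS w (Finset.mem_filter.1 hw).1).1)
        refine (h1.trans hU1).trans ?_
        have h2 : (1 : ℝ) ≤ Real.exp (c * s₀) * Real.exp (-c * b) := by
          rw [← Real.exp_add]
          apply Real.one_le_exp
          have h3 : (b : ℝ) ≤ s₀ := by exact_mod_cast hb
          nlinarith
        have h3 : 0 ≤ C₁ * K * Real.exp (-c * b) := by positivity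
        nlinarith
    calc ∑ w ∈ S with φ w = b, Λ.ww w * (wend s w : ℝ) ^ k * U (wend s w) (wvol w)
        ≤ ∑ w ∈ S with φ w = b, (((b : ℝ) + 1) * E) ^ k * (Λ.ww w * U (wend s w) (wvol w)) := by
          refine Finset.sum_le_sum fun w hw => ?_
          have h1 : 0 ≤ Λ.ww w * U (wend s w) (wvol w) :=
            mul_nonneg (Λ.ww_nonneg w) (hU.1 _ _)
          have h2 : (wend s w : ℝ) ^ k ≤ (((b : ℝ) + 1) * E) ^ k :=
            pow_le_pow_left₀ (Nat.cast_nonneg _) (hw1 w hw).2 k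
          calc Λ.ww w * (wend s w : ℝ) ^ k * U (wend s w) (wvol w)
              = (wend s w : ℝ) ^ k * (Λ.ww w * U (wend s w) (wvol w)) := by ring
            _ ≤ _ := mul_le_mul_of_nonneg_right h2 h1
      _ = (((b : ℝ) + 1) * E) ^ k * ∑ w ∈ S with φ w = b, Λ.ww w * U (wend s w) (wvol w) := by
          rw [Finset.mul_sum]
      _ ≤ (((b : ℝ) + 1) * E) ^ k * ((C₁ * K + Real.exp (c * s₀)) * Real.exp (-c * b)) :=
          mul_le_mul_of_nonneg_left hsm (by positivity)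
      _ = E ^ k * (C₁ * K + Real.exp (c * s₀)) * (((b : ℝ) + 1) ^ k * Real.exp (-c * b)) := by
          rw [mul_pow]
          ring
  refine (Finset.sum_le_sum hfib).trans ?_
  rw [← Finset.mul_sum, ← mul_assoc]
  refine mul_le_mul_of_nonneg_left ?_ (by positivity)
  exact (gk_summable hc k).sum_le_tsum _ (fun b _ => by positivity)

theorem moments (h : Par θ x) {δ : ℝ} (hδ : 0 < δ) (s₀ k : ℕ) : ∃ C : ℝ, 0 < C ∧ ∀ m : ℕ,
    ∃ (δ' : ℝ) (M : ℕ), 0 < δ' ∧
    ∀ (Q : Multiset ℕ) (F g p s : ℕ) (S : Finset (List Stp)), 1 ≤ s → s ≤ s₀ →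
      Win θ δ' M ((p + s) ::ₘ Q) F g →
      (∀ w ∈ S, WOk s w ∧ wvol w ≤ F ∧ GR.lay s w = m ∧
        ∀ u, u <+: w → u ≠ w → GR.lay s u < m) →
      ∑ w ∈ S, wwt 1 W w * (wend s w : ℝ) ^ k * muG ((p + wend s w) ::ₘ Q) (F - wvol w) g ≤
        C * Real.exp (k * ((1 + δ) * (2 * x) * m)) * muG ((p + s) ::ₘ Q) F g := by
  classical
  have hx : 0 < x := h.2.2.1
  obtain ⟨ε, c, C₁, hε, hc, hC₁, hgro⟩ := GR.gro_plus' (law hx) δ hδ
  obtain ⟨K, δ₂, M₂, hK, hδ₂, hUM⟩ := UM_le h hε s₀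
  obtain ⟨δN, hδN, hδN2, hδN1⟩ : ∃ δN : ℝ, 0 < δN ∧ δN ≤ δ₂ ∧ δN ≤ 1 :=
    ⟨min δ₂ 1, lt_min hδ₂ one_pos, min_le_left _ _, min_le_right _ _⟩
  obtain ⟨c₁, δ₄, M₄, hc₁, hδ₄, hfar⟩ := far_vol_s h s₀ hδN
  obtain ⟨G, hG⟩ : ∃ G, G = (C₁ * K + Real.exp (c * s₀)) *
      ∑' b : ℕ, ((b : ℝ) + 1) ^ k * Real.exp (-c * b) := ⟨_, rfl⟩
  have hG0 : 0 ≤ G := by
    rw [hG]
    have : 0 ≤ ∑' b : ℕ, ((b : ℝ) + 1) ^ k * Real.exp (-c * b) := tsum_nonneg fun b => by positivity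
    positivity
  refine ⟨Real.exp (k * ((1 + δ) * (2 * x))) * G + 1, by positivity, fun m => ?_⟩
  obtain ⟨E, hE⟩ : ∃ E, E = Real.exp ((1 + δ) * (law hx).kap * (m + 1)) := ⟨_, rfl⟩
  have hE0 : 0 < E := by rw [hE]; exact Real.exp_pos _
  obtain ⟨Ma, hMa⟩ := gk_dec hc₁ k s₀ (show (0 : ℝ) < 1 / 2 by norm_num)
  obtain ⟨Mb, hMb⟩ := gk_dec (show 0 < c * δ₄ / E by positivity) k s₀
    (show (0 : ℝ) < 1 / (2 * (C₁ * K)) by positivity)
  obtain ⟨Mc, hMc⟩ := exists_nat_gt (1 / δ₄)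
  obtain ⟨Md, hMd⟩ := exists_nat_gt (s₀ * E / δ₄)
  refine ⟨min (min δ₂ δ₄) (θ / 2), M₂ + M₄ + Ma + Mb + Mc + Md + 1,
    lt_min (lt_min hδ₂ hδ₄) (by have := h.1; linarith), ?_⟩
  intro Q F g p s S hs hs₀ hwin hS
  have hθ := h.1
  have hg : g ≠ 0 := by
    refine gk_g (δ := θ / 2) (by linarith) (le_refl 1) (hwin.mono (min_le_right _ _) (by omega))
  have hQg : Q ≠ 0 ∨ g ≠ 0 := Or.inr hg
  have hwin2 : Win θ δ₂ M₂ ((p + s) ::ₘ Q) F g :=
    hwin.mono ((min_le_left _ _).trans (min_le_left _ _)) (by omega)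
  have hwin4 : Win θ δ₄ M₄ ((p + s) ::ₘ Q) F g :=
    hwin.mono ((min_le_left _ _).trans (min_le_right _ _)) (by omega)
  have hFM := hwin.1
  have hF0 : (0 : ℝ) ≤ F := Nat.cast_nonneg F
  obtain ⟨N, hN⟩ : ∃ N, N = ⌊δN * (F : ℝ)⌋₊ := ⟨_, rfl⟩
  have hN1 : (N : ℝ) ≤ δN * F := by rw [hN]; exact Nat.floor_le (by positivity)
  have hN2 : δN * (F : ℝ) < N + 1 := by rw [hN]; exact Nat.lt_floor_add_one _
  have hNF : N ≤ F := by
    have : (N : ℝ) ≤ F := by nlinarith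
    exact_mod_cast this
  have hNδ : (N : ℝ) ≤ δ₂ * F := by nlinarith
  obtain ⟨P, hP⟩ : ∃ P, P = δ₄ * (F : ℝ) := ⟨_, rfl⟩
  have hP1 : 1 ≤ P := by
    have h1 : (Mc : ℝ) ≤ F := by exact_mod_cast (show Mc ≤ F by omega)
    have h2 : 1 / δ₄ ≤ F := by linarith
    rw [div_le_iff₀ hδ₄] at h2
    rw [hP]
    linarith
  have hPs : (s₀ : ℝ) ≤ P / E := by
    have h1 : (Md : ℝ) ≤ F := by exact_mod_cast (show Md ≤ F by omega)
    have h2 : s₀ * E / δ₄ ≤ F := by linarith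
    rw [div_le_iff₀ hδ₄] at h2
    rw [le_div_iff₀ hE0, hP]
    linarith
  have hss : (s : ℝ) ≤ s₀ := by exact_mod_cast hs₀
  obtain ⟨mu, hmu⟩ : ∃ mu, mu = muG ((p + s) ::ₘ Q) F g := ⟨_, rfl⟩
  have hmu0 : 0 ≤ mu := by rw [hmu]; exact muG_nonneg _ _ _
  rw [← hmu]
  -- prefixes
  have hlay : ∀ w ∈ S, ∀ u, u <+: w → GR.lay s u ≤ m := by
    intro w hw u hu
    by_cases huw : u = w
    · rw [huw, (hS w hw).2.2.1]
    · exact ((hS w hw).2.2.2 u hu huw).le
  have hPFS : PF S := by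
    intro u hu w hw huw
    by_contra hne
    have h1 := (hS w hw).2.2.2 u huw hne
    have h2 := (hS u hu).2.2.1
    omega
  have hokp : ∀ w ∈ S, ∀ u, u <+: w → WOk s u ∧ wvol u ≤ F := by
    intro w hw u hu
    obtain ⟨t, rfl⟩ := hu
    obtain ⟨h1, h2, -, -⟩ := hS _ hw
    rw [wvol_append] at h2
    exact ⟨((WOk_append s u t).1 h1).1, by omega⟩
  -- the supermartingales
  have hSMN := UM_SM hx Q g p s F N hNF hQg
  have hSMF := UM_SM hx Q g p s F F le_rfl hQg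
  have hUb : ∀ q v : ℕ, q ≤ s + v → UM x Q g p s F N q v ≤ K * Real.exp (ε * ((q : ℝ) + v)) :=
    hUM Q F g p s N hs hs₀ hNδ hwin2
  have hU1 : UM x Q g p s F N s 0 ≤ 1 := by
    unfold UM
    rw [if_pos (Nat.zero_le _), Nat.sub_zero]
    exact div_self_le_one _
  have hUMeq : ∀ q v : ℕ, v ≤ N → UM x Q g p s F F q v = UM x Q g p s F N q v := by
    intro q v hv
    unfold UM
    rw [if_pos hv, if_pos (hv.trans hNF)]
  -- splitting
  obtain ⟨gd, hgd⟩ : ∃ gd : List Stp → Prop, ∀ w, gd w ↔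
      (wvol w ≤ N ∧ ∀ u, u <+: w → (wend s u : ℝ) < P) := ⟨_, fun _ => Iff.rfl⟩
  rw [← Finset.sum_filter_add_sum_filter_not S gd]
  have part1 : ∑ w ∈ S with gd w, wwt 1 W w * (wend s w : ℝ) ^ k *
      muG ((p + wend s w) ::ₘ Q) (F - wvol w) g ≤ E ^ k * G * mu := by
    have h1 := gk_part1 (law hx) (δ := δ) (ε := ε) hc hC₁ hK s₀ k hgro s P (UM x Q g p s F N)
      (S.filter gd) m hs hs₀ hSMN hU1 hUb (gk_pf hPFS fun w hw => (Finset.mem_filter.1 hw).1) (by
        intro w hw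
        obtain ⟨a1, a2⟩ := Finset.mem_filter.1 hw
        exact ⟨(hS w a1).1, fun u hu _ => ((hgd w).1 a2).2 u hu, (hS w a1).2.2.1⟩)
    rw [← hE, ← hG] at h1
    have h2 := mul_le_mul_of_nonneg_right h1 hmu0
    refine le_trans (le_of_eq ?_) h2
    rw [Finset.sum_mul]
    refine Finset.sum_congr rfl fun w hw => ?_
    obtain ⟨a1, a2⟩ := Finset.mem_filter.1 hw
    have h3 := gk_eq hx (p := p) hs hQg (hS w a1).1 (hS w a1).2.1
    rw [← hmu, hUMeq _ _ ((hgd w).1 a2).1] at h3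
    calc wwt 1 W w * (wend s w : ℝ) ^ k * muG ((p + wend s w) ::ₘ Q) (F - wvol w) g
        = (wend s w : ℝ) ^ k * (wwt 1 W w * muG ((p + wend s w) ::ₘ Q) (F - wvol w) g) := by ring
      _ = _ := by rw [h3]; ring
  have part2 : ∑ w ∈ S with ¬ gd w, wwt 1 W w * (wend s w : ℝ) ^ k *
      muG ((p + wend s w) ::ₘ Q) (F - wvol w) g ≤ 1 * mu := by
    obtain ⟨V', hV'P, hV', hsum⟩ := GR.pre_dom (law hx) (UM x Q g p s F F) hSMF s hs
      (S.filter fun w => ¬ gd w) (gk_pf hPFS fun w hw => (Finset.mem_filter.1 hw).1)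
      (fun w hw => (hS w (Finset.mem_filter.1 hw).1).1)
      (fun u => P ≤ (wend s u : ℝ) ∨ N < wvol u) (by
        intro w hw
        obtain ⟨a1, a2⟩ := Finset.mem_filter.1 hw
        rw [hgd] at a2
        by_cases hv : wvol w ≤ N
        · have : ¬ ∀ u, u <+: w → (wend s u : ℝ) < P := fun hh => a2 ⟨hv, hh⟩
          push Not at this
          obtain ⟨u, hu, hu'⟩ := this
          exact ⟨u, hu, Or.inl hu'⟩
        · exact ⟨w, List.prefix_refl w, Or.inr (by omega)⟩)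
    have hVpre : ∀ u ∈ V', WOk s u ∧ wvol u ≤ F ∧ GR.lay s u ≤ m ∧
        (∀ u', u' <+: u → u' ≠ u → (wend s u' : ℝ) < P) := by
      intro u hu
      obtain ⟨b1, b2, w, hw, huw⟩ := hV' u hu
      have hwS := (Finset.mem_filter.1 hw).1
      refine ⟨(hokp w hwS u huw).1, (hokp w hwS u huw).2, hlay w hwS u huw, ?_⟩
      intro u' hu' hne
      have := b2 u' hu' hne
      push Not at this
      exact this.1
    -- far words
    have hA : (∑ u ∈ V' with N < wvol u, (law hx).ww u * UM x Q g p s F F (wend s u) (wvol u)) *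
        mu ≤ Real.exp (-c₁ * F) * mu := by
      have h1 := hfar Q F g p s P (V'.filter fun u => N < wvol u) hs hs₀ hP1 (le_of_eq hP) hwin4
        (gk_pf hV'P fun w hw => (Finset.mem_filter.1 hw).1) (by
          intro u hu
          obtain ⟨a1, a2⟩ := Finset.mem_filter.1 hu
          obtain ⟨b1, b2, b3, b4⟩ := hVpre u a1
          refine ⟨b1, b2, ?_, b4⟩
          have : (N : ℝ) + 1 ≤ wvol u := by exact_mod_cast a2
          linarith)
      rw [← hmu] at h1
      refine le_trans (le_of_eq ?_) h1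
      rw [Finset.sum_mul]
      refine Finset.sum_congr rfl fun u hu => ?_
      obtain ⟨a1, a2⟩ := Finset.mem_filter.1 hu
      obtain ⟨b1, b2, b3, b4⟩ := hVpre u a1
      have h3 := gk_eq hx (p := p) hs hQg b1 b2
      rw [← hmu] at h3
      exact h3.symm
    -- high words
    have hB : ∑ u ∈ V' with ¬ N < wvol u, (law hx).ww u * UM x Q g p s F F (wend s u) (wvol u) ≤
        C₁ * K * Real.exp (-c * (P / E)) := by
      have h1 := hgro s (P / E) P K (UM x Q g p s F N) (V'.filter fun u => ¬ N < wvol u) hs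
        (hss.trans hPs) hK.le hSMN (fun q v hq _ => hUb q v hq)
        (gk_pf hV'P fun w hw => (Finset.mem_filter.1 hw).1) (by
          intro u hu
          obtain ⟨a1, a2⟩ := Finset.mem_filter.1 hu
          obtain ⟨b1, b2, b3, b4⟩ := hVpre u a1
          refine ⟨b1, b4, Or.inl ?_⟩
          have h5 : P ≤ (wend s u : ℝ) := by
            rcases (hV' u a1).1 with h6 | h6
            · exact h6
            · exact absurd h6 a2
          have h6 : Real.exp ((1 + δ) * (law hx).kap * (GR.lay s u + 1)) ≤ E := by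
            rw [hE]
            apply Real.exp_le_exp.2
            have h7 : (GR.lay s u : ℝ) ≤ m := by exact_mod_cast b3
            have h8 := (law hx).kap_pos
            have h9 : 0 ≤ (1 + δ) * (law hx).kap := by positivity
            nlinarith
          calc P / E * Real.exp ((1 + δ) * (law hx).kap * (GR.lay s u + 1)) ≤ P / E * E :=
                mul_le_mul_of_nonneg_left h6 (by positivity)
            _ = P := div_mul_cancel₀ P hE0.ne'
            _ ≤ _ := h5)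
      refine le_trans (le_of_eq ?_) h1
      refine Finset.sum_congr rfl fun u hu => ?_
      obtain ⟨a1, a2⟩ := Finset.mem_filter.1 hu
      rw [hUMeq _ _ (not_lt.1 a2)]
    have hsplit := Finset.sum_filter_add_sum_filter_not V' (fun u => N < wvol u)
      (fun u => (law hx).ww u * UM x Q g p s F F (wend s u) (wvol u))
    have hR0 : (0 : ℝ) ≤ ((s₀ : ℝ) + F) ^ k := by positivity
    have hterm : ∀ w ∈ S.filter (fun w => ¬ gd w), wwt 1 W w * (wend s w : ℝ) ^ k *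
        muG ((p + wend s w) ::ₘ Q) (F - wvol w) g ≤
        ((s₀ : ℝ) + F) ^ k * mu *
          ((law hx).ww w * UM x Q g p s F F (wend s w) (wvol w)) := by
      intro w hw
      have a1 := (Finset.mem_filter.1 hw).1
      have h3 := gk_eq hx (p := p) hs hQg (hS w a1).1 (hS w a1).2.1
      rw [← hmu] at h3
      have h4 : (wend s w : ℝ) ^ k ≤ ((s₀ : ℝ) + F) ^ k := by
        refine pow_le_pow_left₀ (Nat.cast_nonneg _) ?_ k
        have h5 := GR.wend_le s w (hS w a1).1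
        have h6 := (hS w a1).2.1
        exact_mod_cast (show wend s w ≤ s₀ + F by omega)
      have h5 : 0 ≤ (law hx).ww w * UM x Q g p s F F (wend s w) (wvol w) :=
        mul_nonneg ((law hx).ww_nonneg w) (hSMF.1 _ _)
      calc wwt 1 W w * (wend s w : ℝ) ^ k * muG ((p + wend s w) ::ₘ Q) (F - wvol w) g
          = (wend s w : ℝ) ^ k * (wwt 1 W w * muG ((p + wend s w) ::ₘ Q) (F - wvol w) g) := by
            ring
        _ = (wend s w : ℝ) ^ k *
            (mu * ((law hx).ww w * UM x Q g p s F F (wend s w) (wvol w))) := by rw [h3]; ring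
        _ ≤ ((s₀ : ℝ) + F) ^ k *
            (mu * ((law hx).ww w * UM x Q g p s F F (wend s w) (wvol w))) :=
            mul_le_mul_of_nonneg_right h4 (mul_nonneg hmu0 h5)
        _ = _ := by ring
    refine (Finset.sum_le_sum hterm).trans ?_
    rw [← Finset.mul_sum]
    have hMa' := hMa F (by omega)
    have hMb' := hMb F (by omega)
    have hexp : -c * (P / E) = -(c * δ₄ / E) * F := by
      rw [hP]
      ring
    rw [hexp] at hB
    have hCK : 0 < C₁ * K := by positivity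
    have hMb2 : ((s₀ : ℝ) + F) ^ k * (C₁ * K * Real.exp (-(c * δ₄ / E) * F)) ≤ 1 / 2 := by
      calc ((s₀ : ℝ) + F) ^ k * (C₁ * K * Real.exp (-(c * δ₄ / E) * F))
          = C₁ * K * (((s₀ : ℝ) + F) ^ k * Real.exp (-(c * δ₄ / E) * F)) := by ring
        _ ≤ C₁ * K * (1 / (2 * (C₁ * K))) := mul_le_mul_of_nonneg_left hMb' hCK.le
        _ = 1 / 2 := by field_simp
    have htot : (∑ w ∈ S with ¬ gd w, (law hx).ww w * UM x Q g p s F F (wend s w) (wvol w)) * mu ≤
        (Real.exp (-c₁ * F) + C₁ * K * Real.exp (-(c * δ₄ / E) * F)) * mu := by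
      calc (∑ w ∈ S with ¬ gd w, (law hx).ww w * UM x Q g p s F F (wend s w) (wvol w)) * mu
          ≤ (∑ u ∈ V', (law hx).ww u * UM x Q g p s F F (wend s u) (wvol u)) * mu :=
            mul_le_mul_of_nonneg_right hsum hmu0
        _ = (∑ u ∈ V' with N < wvol u,
              (law hx).ww u * UM x Q g p s F F (wend s u) (wvol u)) * mu +
            (∑ u ∈ V' with ¬ N < wvol u,
              (law hx).ww u * UM x Q g p s F F (wend s u) (wvol u)) * mu := by
            rw [← hsplit, add_mul]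
        _ ≤ Real.exp (-c₁ * F) * mu + C₁ * K * Real.exp (-(c * δ₄ / E) * F) * mu :=
            add_le_add hA (mul_le_mul_of_nonneg_right hB hmu0)
        _ = _ := by ring
    calc ((s₀ : ℝ) + F) ^ k * mu *
          ∑ w ∈ S with ¬ gd w, (law hx).ww w * UM x Q g p s F F (wend s w) (wvol w)
        = ((s₀ : ℝ) + F) ^ k *
          ((∑ w ∈ S with ¬ gd w, (law hx).ww w * UM x Q g p s F F (wend s w) (wvol w)) * mu) := by
          ring
      _ ≤ ((s₀ : ℝ) + F) ^ k *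
          ((Real.exp (-c₁ * F) + C₁ * K * Real.exp (-(c * δ₄ / E) * F)) * mu) :=
          mul_le_mul_of_nonneg_left htot hR0
      _ = (((s₀ : ℝ) + F) ^ k * Real.exp (-c₁ * F) +
          ((s₀ : ℝ) + F) ^ k * (C₁ * K * Real.exp (-(c * δ₄ / E) * F))) * mu := by ring
      _ ≤ 1 * mu := mul_le_mul_of_nonneg_right (by linarith) hmu0
  have hEk : E ^ k = Real.exp (k * ((1 + δ) * (2 * x))) *
      Real.exp (k * ((1 + δ) * (2 * x) * m)) := by
    rw [hE, law_kap, ← Real.exp_nat_mul, ← Real.exp_add]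
    congr 1
    ring
  have hone : (1 : ℝ) ≤ Real.exp (k * ((1 + δ) * (2 * x) * m)) := by
    apply Real.one_le_exp
    positivity
  calc _ ≤ E ^ k * G * mu + 1 * mu := add_le_add part1 part2
    _ = (Real.exp (k * ((1 + δ) * (2 * x))) * G * Real.exp (k * ((1 + δ) * (2 * x) * m)) + 1) *
        mu := by rw [hEk]; ring
    _ ≤ (Real.exp (k * ((1 + δ) * (2 * x))) * G * Real.exp (k * ((1 + δ) * (2 * x) * m)) +
        Real.exp (k * ((1 + δ) * (2 * x) * m))) * mu :=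
        mul_le_mul_of_nonneg_right (by linarith) hmu0
    _ = _ := by ring

end SYS.Num
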