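import Pool.Agent.SYS.VI.Pw
import Pool.Agent.SYS.PL.Gr
import Pool.Agent.SYS.GR.Vol

/-!
# SYS-VI-GroV: words with a positive fraction of all triangles

`far_vol`. PROOF. `word_le` (with `p₀ = s₀` and `ε` at most the `ε₀` of `GR.vol (law hx)`) word by word (`wend s w ≤ P + 1`: the last step adds at most `1`; the perimeter before the last
step is `< P`; `w = []` has `wvol = 0`, excluded by `0 < δ₁ F`), then
`GR.vol` with `P` and the constant `δ₁ F / P` (`≥ δ₁ / δ ≥ C₀`): `∑ PRW x w * exp (ε (wend + wvol)) ≤ exp (- c δ₁ F)` (`law_ww`). Take `c' = c δ₁ / 2`; the constant `K` is absorbed for `F ≥ M`.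
-/

namespace SYS.Num

variable {θ x : ℝ}

theorem far_vol (h : Par θ x) (s₀ : ℕ) {δ₁ : ℝ} (hδ₁ : 0 < δ₁) :
    ∃ (c δ : ℝ) (M : ℕ), 0 < c ∧ 0 < δ ∧
    ∀ (Q : Multiset ℕ) (F g s : ℕ) (P : ℝ) (S : Finset (List Stp)), 1 ≤ s → s ≤ s₀ → 1 ≤ P →
      P ≤ δ * F → Win θ δ M (s ::ₘ Q) F g → PF S →
      (∀ w ∈ S, WOk s w ∧ wvol w ≤ F ∧ δ₁ * F ≤ wvol w ∧
        ∀ u, u <+: w → u ≠ w → (wend s u : ℝ) < P) →
      ∑ w ∈ S, wwt 1 W w * muG (wend s w ::ₘ Q) (F - wvol w) g ≤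
        Real.exp (-c * F) * muG (s ::ₘ Q) F g := by
  have hx : 0 < x := h.2.2.1
  obtain ⟨ε₀, c0, C₀, hε₀, hc0, hC₀, hvol⟩ := GR.vol (law hx)
  obtain ⟨K, δ2, M2, hK, hδ2, hword⟩ := word_le h hε₀ s₀
  refine ⟨c0 * δ₁ / 2, min (δ2 / 3) (δ₁ / C₀), max M2 ⌈2 * K / (c0 * δ₁)⌉₊, by positivity,
    lt_min (by positivity) (by positivity), ?_⟩
  intro Q F g s P S hs hs0 hP hPF hwin hpf hS
  have hF0 : (0 : ℝ) ≤ F := Nat.cast_nonneg F
  have hd1 : min (δ2 / 3) (δ₁ / C₀) ≤ δ2 / 3 := min_le_left _ _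
  have hd2 : min (δ2 / 3) (δ₁ / C₀) ≤ δ₁ / C₀ := min_le_right _ _
  have hP1 : P ≤ δ2 / 3 * F := hPF.trans (mul_le_mul_of_nonneg_right hd1 hF0)
  have hP2 : P ≤ δ₁ / C₀ * F := hPF.trans (mul_le_mul_of_nonneg_right hd2 hF0)
  have hF : (0 : ℝ) < F := by
    rcases hF0.lt_or_eq with h1 | h1
    · exact h1
    · rw [← h1, mul_zero] at hP1
      linarith
  have hP0 : 0 < P := by linarith
  obtain ⟨hw1, hw2, hw3, hw4⟩ := hwin
  have hM2 : M2 ≤ F := (le_max_left _ _).trans hw1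
  have hMK : 2 * K / (c0 * δ₁) ≤ F :=
    (Nat.le_ceil _).trans (by exact_mod_cast (le_max_right _ _).trans hw1)
  have hmu := muG_nonneg (s ::ₘ Q) F g
  have hne : ∀ w ∈ S, w ≠ [] := by
    rintro w hw rfl
    have h1 := (hS [] hw).2.2.1
    rw [wvol_nil] at h1
    have h2 : 0 < δ₁ * F := by positivity
    norm_num at h1
    linarith
  have hend : ∀ w ∈ S, (wend s w : ℝ) ≤ 2 * P := by
    intro w hw
    obtain ⟨u, t, rfl⟩ : ∃ u t, w = u ++ [t] :=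
      ⟨w.dropLast, w.getLast (hne w hw), (List.dropLast_append_getLast (hne w hw)).symm⟩
    have h4 := (hS _ hw).2.2.2 u (List.prefix_append u [t]) (by simp)
    rw [wend_append, wend_cons, wend_nil]
    have h6 : t.nx (wend s u) ≤ wend s u + 1 := by
      cases t with
      | T => exact le_rfl
      | L k a => show wend s u - (k + 2) ≤ wend s u + 1; omega
      | R k a => show wend s u - (k + 2) ≤ wend s u + 1; omega
    have h5 : ((t.nx (wend s u) : ℕ) : ℝ) ≤ (wend s u : ℝ) + 1 := by exact_mod_cast h6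
    linarith
  have hone : ∀ w ∈ S, wwt 1 W w * muG (wend s w ::ₘ Q) (F - wvol w) g ≤
      K * muG (s ::ₘ Q) F g * ((law hx).ww w * Real.exp (ε₀ * ((wend s w : ℝ) + wvol w))) := by
    intro w hw
    obtain ⟨h1, h2, -, -⟩ := hS w hw
    have h3 := hword Q F g s w hs hs0 h1 h2 ⟨hM2, hw2.trans (mul_le_mul_of_nonneg_right (by linarith) hF0), ?_, ?_⟩
    · rw [law_ww]
      refine h3.trans (le_of_eq ?_)
      ring
    · rw [Multiset.sum_cons] at hw3 ⊢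
      push_cast at hw3 ⊢
      have h4 := hend w hw
      have h5 : min (δ2 / 3) (δ₁ / C₀) * (F : ℝ) ≤ δ2 / 3 * F := mul_le_mul_of_nonneg_right hd1 hF0
      have h6 : (0 : ℝ) ≤ s := Nat.cast_nonneg s
      linarith
    · intro q hq
      rcases Multiset.mem_cons.1 hq with rfl | hq
      · exact one_le_wend hs h1
      · exact hw4 q (Multiset.mem_cons_of_mem hq)
  have hsum := hvol ε₀ (δ₁ * F / P) P s S hε₀.le le_rfl (by
    rw [le_div_iff₀ hP0]
    have h1 : C₀ * P ≤ C₀ * (δ₁ / C₀ * F) := mul_le_mul_of_nonneg_left hP2 hC₀.le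
    have h2 : C₀ * (δ₁ / C₀ * F) = δ₁ * F := by
      field_simp
    linarith) hP hpf (fun w hw => ⟨(hS w hw).1, (hS w hw).2.2.2, by
      rw [div_mul_cancel₀ _ hP0.ne']
      exact (hS w hw).2.2.1⟩)
  have he : -c0 * (δ₁ * F / P) * P = -(c0 * δ₁ * F) := by
    field_simp
  rw [he] at hsum
  have hKe : K * Real.exp (-(c0 * δ₁ * F)) ≤ Real.exp (-(c0 * δ₁ / 2) * F) := by
    have h1 : K ≤ c0 * δ₁ / 2 * F := by
      rw [div_le_iff₀ (by positivity)] at hMK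
      linarith
    have h2 : K ≤ Real.exp (c0 * δ₁ / 2 * F) := h1.trans (by
      have := Real.add_one_le_exp (c0 * δ₁ / 2 * F)
      linarith)
    have h3 : Real.exp (-(c0 * δ₁ / 2) * F) = Real.exp (c0 * δ₁ / 2 * F) * Real.exp (-(c0 * δ₁ * F)) := by
      rw [← Real.exp_add]
      congr 1
      ring
    rw [h3]
    exact mul_le_mul_of_nonneg_right h2 (Real.exp_pos _).le
  calc ∑ w ∈ S, wwt 1 W w * muG (wend s w ::ₘ Q) (F - wvol w) g
      ≤ ∑ w ∈ S, K * muG (s ::ₘ Q) F g * ((law hx).ww w * Real.exp (ε₀ * ((wend s w : ℝ) + wvol w))) :=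
        Finset.sum_le_sum hone
    _ = K * muG (s ::ₘ Q) F g * ∑ w ∈ S, (law hx).ww w * Real.exp (ε₀ * ((wend s w : ℝ) + wvol w)) := by
        rw [Finset.mul_sum]
    _ ≤ K * muG (s ::ₘ Q) F g * Real.exp (-(c0 * δ₁ * F)) :=
        mul_le_mul_of_nonneg_left hsum (mul_nonneg hK.le hmu)
    _ = (K * Real.exp (-(c0 * δ₁ * F))) * muG (s ::ₘ Q) F g := by ring
    _ ≤ Real.exp (-(c0 * δ₁ / 2) * F) * muG (s ::ₘ Q) F g := mul_le_mul_of_nonneg_right hKe hmu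

end SYS.Num
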