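import Pool.Agent.SYS.VI.Vis

/-!
# SYS-VI-ExC: merging with a hole (2.9 (c))

PROOF. `p ≥ 2`. A word from `s` to `q` is also a word from `s + (p - 2)` to `q + (p - 2)` (`WOk_shift`). `vis_low` with the hole of perimeter
`p + q - 2` (start `p + s - 2 ≤ p + q - 2 + p₀`). Second statement: `s = 3`, and `muG ((p + 1) ::ₘ Q) F g ≤ muG (p ::ₘ Q) (F + 1) g` (`up`).
-/

namespace SYS.Num

variable {θ x : ℝ}

theorem merge_vis (h : Par θ x) (p₀ : ℕ) : ∃ (C δ : ℝ) (M : ℕ), 0 < C ∧ 0 < δ ∧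
    ∀ (Q : Multiset ℕ) (F g s p q : ℕ) (S : Finset (List Stp)), 1 ≤ s → s ≤ q + p₀ → 2 ≤ p →
      Win θ δ M ((p + q) ::ₘ Q) F g → (∀ w ∈ S, WOk s w ∧ wend s w = q ∧ wvol w ≤ F) →
      ∑ w ∈ S, wwt 1 W w * muG ((p + q - 2) ::ₘ Q) (F - wvol w) g ≤
        C * muG ((p + s - 2) ::ₘ Q) F g := by
  obtain ⟨C, δ, M, hC, hδ, hv⟩ := vis_low h p₀
  refine ⟨C, δ, M, hC, hδ, ?_⟩
  intro Q F g s p q S hs hsq hp hW hS
  rcases S.eq_empty_or_nonempty with rfl | ⟨w0, hw0⟩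
  · rw [Finset.sum_empty]
    exact mul_nonneg hC.le (muG_nonneg _ _ _)
  · have hq : 1 ≤ q := by
      obtain ⟨h1, h2, _⟩ := hS w0 hw0
      rw [← h2]
      exact one_le_wend hs h1
    have hmem : ∀ r ∈ Q, 1 ≤ r := fun r hr => hW.2.2.2 r (Multiset.mem_cons_of_mem hr)
    have hW' : Win θ δ M ((p + q - 2) ::ₘ Q) F g := by
      refine hW.sub ?_ ?_
      · rw [Multiset.sum_cons, Multiset.sum_cons]
        omega
      · intro r hr
        rcases Multiset.mem_cons.1 hr with h1 | h1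
        · rw [h1]
          omega
        · exact hmem r h1
    have e1 : p + s - 2 = s + (p - 2) := by omega
    have e2 : p + q - 2 = q + (p - 2) := by omega
    rw [e2] at hW' ⊢
    rw [e1]
    refine hv Q F g (s + (p - 2)) (q + (p - 2)) S (by omega) (by omega) hW' ?_
    intro w hw
    obtain ⟨h1, h2, h3⟩ := hS w hw
    obtain ⟨h4, h5⟩ := WOk_shift (p - 2) h1
    exact ⟨h4, by rw [h5, h2], h3⟩

theorem merge_three (h : Par θ x) : ∃ (C δ : ℝ) (M : ℕ), 0 < C ∧ 0 < δ ∧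
    ∀ (Q : Multiset ℕ) (F g p q : ℕ) (S : Finset (List Stp)), 2 ≤ p →
      Win θ δ M ((p + q) ::ₘ Q) F g → (∀ w ∈ S, WOk 3 w ∧ wend 3 w = q ∧ wvol w ≤ F) →
      ∑ w ∈ S, wwt 1 W w * muG ((p + q - 2) ::ₘ Q) (F - wvol w) g ≤
        C * muG (p ::ₘ Q) (F + 1) g := by
  obtain ⟨C, δ, M, hC, hδ, hv⟩ := merge_vis h 3
  refine ⟨C, δ, M, hC, hδ, ?_⟩
  intro Q F g p q S hp hW hS
  refine (hv Q F g 3 p q S (by norm_num) (by omega) hp hW hS).trans ?_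
  have e1 : p + 3 - 2 = p + 1 := by omega
  rw [e1]
  exact mul_le_mul_of_nonneg_left (up p (by omega) Q F g) hC.le

end SYS.Num
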