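import Pool.Agent.SYS.VI.Uu
import Pool.Agent.SYS.RL.Far
import Pool.Agent.SYS.PL.Law
import Pool.Agent.SYS.PL.RwB

/-!
# SYS-VI-Fw: words with many triangles

`far` for the numbers of maps and `visits` for the words; `√(1 + ε) ^ v ≤ exp (2 ε v) * exp (- ε δ₁ F)`.
-/

namespace SYS.Num

variable {θ x : ℝ}

private theorem fw_W (k a : ℕ) : 0 ≤ W k a := muG_nonneg _ _ _

private theorem fw_word {x : ℝ} {B ε : ℝ} (hB1 : 1 ≤ B) (hBA : AA x ≤ B) (hBA' : (AA x)⁻¹ ≤ B)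
    (hBy : √(yy x) ≤ B) (hBy' : (√(yy x))⁻¹ ≤ B) (hε : 0 < ε) {s : ℕ} {w : List Stp} (h : WOk s w)
    (hP : 0 ≤ PRW x w) :
    wwt 1 W w * √((1 + ε) * yy x) ^ wvol w ≤
      PRW x w * B ^ (2 * (s + wend s w)) * Real.exp (ε * wvol w) := by
  have hA : 0 < AA x := by
    have := AA_gt x
    linarith
  have hy : 0 < √(yy x) := Real.sqrt_pos.2 (yy_pos x)
  have hB0 : 0 < B := by linarith
  have e1 : √((1 + ε) * yy x) = √(1 + ε) * √(yy x) := Real.sqrt_mul (by linarith) _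
  have e2 : √(1 + ε) ≤ Real.exp ε := by
    have h1 : √(1 + ε) ≤ 1 + ε := by
      rw [Real.sqrt_le_left (by linarith)]
      nlinarith
    have h2 := Real.add_one_le_exp ε
    linarith
  have e3 : √(1 + ε) ^ wvol w ≤ Real.exp (ε * wvol w) := by
    rw [mul_comm ε, Real.exp_nat_mul]
    gcongr
  have e4 : wwt 1 W w * √(yy x) ^ wvol w =
      PRW x w * (AA x ^ s * √(yy x) ^ wend s w * (AA x)⁻¹ ^ wend s w * (√(yy x))⁻¹ ^ s) := by
    have h1 := PRW_eq x s w h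
    rw [pow_add] at h1
    rw [inv_pow, inv_pow]
    field_simp
    linarith
  have e5 : AA x ^ s * √(yy x) ^ wend s w * (AA x)⁻¹ ^ wend s w * (√(yy x))⁻¹ ^ s ≤
      B ^ (2 * (s + wend s w)) := by
    have h1 : B ^ (2 * (s + wend s w)) = B ^ s * B ^ wend s w * B ^ wend s w * B ^ s := by
      rw [← pow_add, ← pow_add, ← pow_add]
      congr 1
      ring
    rw [h1]
    gcongr
  rw [e1, mul_pow]
  calc wwt 1 W w * (√(1 + ε) ^ wvol w * √(yy x) ^ wvol w)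
      = wwt 1 W w * √(yy x) ^ wvol w * √(1 + ε) ^ wvol w := by ring
    _ = PRW x w * (AA x ^ s * √(yy x) ^ wend s w * (AA x)⁻¹ ^ wend s w * (√(yy x))⁻¹ ^ s) *
        √(1 + ε) ^ wvol w := by rw [e4]
    _ ≤ PRW x w * B ^ (2 * (s + wend s w)) * Real.exp (ε * wvol w) := by gcongr

theorem far_words (h : Par θ x) {δ₁ : ℝ} (hδ₁ : 0 < δ₁) : ∃ (C δ : ℝ) (M : ℕ), 0 < C ∧ 0 < δ ∧
    ∀ (Q P' : Multiset ℕ) (F g s e j : ℕ) (S : Finset (List Stp)), 1 ≤ s →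
      Win θ δ M (s ::ₘ Q) F g → (∀ q ∈ P', 1 ≤ q) → (P'.sum : ℝ) ≤ δ * F → (e : ℝ) ≤ δ * F →
      Multiset.card P' ≤ Multiset.card Q + 1 + j → Even (Q.sum + P'.sum + e) →
      (∀ w ∈ S, WOk s w ∧ wend s w = e ∧ wvol w ≤ F ∧ δ₁ * F ≤ wvol w) →
      ∑ w ∈ S, wwt 1 W w * muG P' (F - wvol w) g ≤
        C * (3 * (F : ℝ)) ^ j * muG (s ::ₘ Q) F g := by
  have hx : 0 < x := h.2.2.1
  obtain ⟨C, c, ε₀, hC, hc, hε₀, hvis⟩ := visits hx
  obtain ⟨ε, hε, hε2⟩ : ∃ ε : ℝ, 0 < ε ∧ 2 * ε ≤ ε₀ := ⟨ε₀ / 2, by positivity, by linarith⟩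
  obtain ⟨δf, M, hδf, hfar⟩ := far h hε hδ₁
  obtain ⟨B, hB1, hBA, hBA', hBy, hBy'⟩ : ∃ B : ℝ, 1 ≤ B ∧ AA x ≤ B ∧ (AA x)⁻¹ ≤ B ∧
      √(yy x) ≤ B ∧ (√(yy x))⁻¹ ≤ B :=
    ⟨max 1 (max (AA x) (max (AA x)⁻¹ (max (√(yy x)) (√(yy x))⁻¹))), by simp, by simp, by simp,
      by simp, by simp⟩
  have hB0 : 0 < B := by linarith
  obtain ⟨β, hβ⟩ : ∃ β, β = Real.log B := ⟨_, rfl⟩
  have hβ0 : 0 ≤ β := by rw [hβ]; exact Real.log_nonneg hB1
  have hBe : B = Real.exp β := by rw [hβ, Real.exp_log hB0]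
  have hden : 0 < 4 * β + 2 * C * ε + 1 := by positivity
  refine ⟨C, min δf (ε * δ₁ / (4 * β + 2 * C * ε + 1)), M, hC, lt_min hδf (by positivity), ?_⟩
  intro Q P' F g s e j S hs hW hP' hPs he hcard hpar hS
  have hF : (0 : ℝ) ≤ F := Nat.cast_nonneg F
  obtain ⟨δ, hδ⟩ : ∃ δ, δ = min δf (ε * δ₁ / (4 * β + 2 * C * ε + 1)) := ⟨_, rfl⟩
  rw [← hδ] at hW hPs he
  have hδ0 : 0 < δ := by rw [hδ]; exact lt_min hδf (by positivity)
  have hδ1 : δ ≤ δf := by rw [hδ]; exact min_le_left _ _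
  have hδ2 : δ * (4 * β + 2 * C * ε + 1) ≤ ε * δ₁ := by
    have h1 : δ ≤ ε * δ₁ / (4 * β + 2 * C * ε + 1) := by rw [hδ]; exact min_le_right _ _
    rwa [le_div_iff₀ hden] at h1
  have hsF : (s : ℝ) ≤ δ * F := by
    have h1 := hW.2.2.1
    rw [Multiset.sum_cons, Nat.cast_add] at h1
    have h2 : (0 : ℝ) ≤ (Q.sum : ℝ) := Nat.cast_nonneg _
    linarith
  have hm := muG_nonneg (s ::ₘ Q) F g
  have hP0 : ∀ w, 0 ≤ PRW x w := fun w =>
    wwt_nonneg ((by norm_num : (0 : ℝ) ≤ 1 / 2).trans (AA_gt x).le) (qq_nonneg x) w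
  have key : ∀ w ∈ S, wwt 1 W w * muG P' (F - wvol w) g ≤
      (3 * (F : ℝ)) ^ j * muG (s ::ₘ Q) F g * Real.exp (4 * β * δ * F - ε * δ₁ * F) *
        (PRW x w * Real.exp (2 * ε * wvol w)) := by
    intro w hw
    obtain ⟨h1, h2, h3, h4⟩ := hS w hw
    have hPw := hP0 w
    have hR : 0 ≤ (3 * (F : ℝ)) ^ j * muG (s ::ₘ Q) F g * Real.exp (4 * β * δ * F - ε * δ₁ * F) *
        (PRW x w * Real.exp (2 * ε * wvol w)) := by positivity
    by_cases hw0 : wwt 1 W w = 0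
    · rw [hw0, zero_mul]
      exact hR
    · have hww : 0 ≤ wwt 1 W w := wwt_nonneg zero_le_one fw_W w
      have hp1 := word_par h1 hw0
      rw [h2] at hp1
      have hp2 : Even ((s ::ₘ Q).sum + P'.sum + wvol w) := by
        rw [Multiset.sum_cons]
        have h5 := hp1.add hpar
        rw [Nat.even_iff] at h5 ⊢
        omega
      have h5 := hfar (s ::ₘ Q) P' F g (wvol w) j (hW.mono hδ1 le_rfl) hP'
        (hPs.trans (mul_le_mul_of_nonneg_right hδ1 hF)) (by rw [Multiset.card_cons]; exact hcard)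
        h4 h3 hp2
      have h6 := fw_word hB1 hBA hBA' hBy hBy' hε h1 hPw
      rw [h2] at h6
      have h7 : B ^ (2 * (s + e)) ≤ Real.exp (4 * β * δ * F) := by
        rw [hBe, ← Real.exp_nat_mul]
        apply Real.exp_le_exp.2
        push_cast
        have h8 : (s : ℝ) + e ≤ 2 * (δ * F) := by linarith
        have h9 := mul_le_mul_of_nonneg_right h8 hβ0
        linarith
      have h8 : Real.exp (ε * wvol w) ≤ Real.exp (2 * ε * wvol w) * Real.exp (-(ε * δ₁ * F)) := by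
        rw [← Real.exp_add]
        apply Real.exp_le_exp.2
        have h9 := mul_le_mul_of_nonneg_left h4 hε.le
        linarith
      calc wwt 1 W w * muG P' (F - wvol w) g
          ≤ wwt 1 W w * ((3 * (F : ℝ)) ^ j * √((1 + ε) * yy x) ^ wvol w * muG (s ::ₘ Q) F g) := by
            gcongr
        _ = (3 * (F : ℝ)) ^ j * muG (s ::ₘ Q) F g *
            (wwt 1 W w * √((1 + ε) * yy x) ^ wvol w) := by ring
        _ ≤ (3 * (F : ℝ)) ^ j * muG (s ::ₘ Q) F g *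
            (PRW x w * B ^ (2 * (s + e)) * Real.exp (ε * wvol w)) := by gcongr
        _ ≤ (3 * (F : ℝ)) ^ j * muG (s ::ₘ Q) F g *
            (PRW x w * Real.exp (4 * β * δ * F) *
              (Real.exp (2 * ε * wvol w) * Real.exp (-(ε * δ₁ * F)))) := by gcongr
        _ = (3 * (F : ℝ)) ^ j * muG (s ::ₘ Q) F g * Real.exp (4 * β * δ * F - ε * δ₁ * F) *
            (PRW x w * Real.exp (2 * ε * wvol w)) := by
            rw [sub_eq_add_neg, Real.exp_add]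
            ring
  refine (Finset.sum_le_sum key).trans ?_
  rw [← Finset.mul_sum]
  have hv := hvis (2 * ε) (by positivity) hε2 s e S fun w hw => ⟨(hS w hw).1, (hS w hw).2.1⟩
  have hv2 : C * Real.exp (C * (2 * ε) * ((e - s : ℕ) : ℝ) - c * ((s - e : ℕ) : ℝ)) ≤
      C * Real.exp (2 * C * ε * (δ * F)) := by
    have h1 : ((e - s : ℕ) : ℝ) ≤ δ * F := by
      have h2 : ((e - s : ℕ) : ℝ) ≤ e := by exact_mod_cast Nat.sub_le e s
      linarith
    have h3 : (0 : ℝ) ≤ ((s - e : ℕ) : ℝ) := Nat.cast_nonneg _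
    refine mul_le_mul_of_nonneg_left (Real.exp_le_exp.2 ?_) hC.le
    have h4 : C * (2 * ε) * ((e - s : ℕ) : ℝ) ≤ C * (2 * ε) * (δ * F) :=
      mul_le_mul_of_nonneg_left h1 (by positivity)
    have h5 : 0 ≤ c * ((s - e : ℕ) : ℝ) := mul_nonneg hc.le h3
    linarith
  have hfin : Real.exp (4 * β * δ * F - ε * δ₁ * F) * Real.exp (2 * C * ε * (δ * F)) ≤ 1 := by
    rw [← Real.exp_add]
    apply Real.exp_le_one_iff.2
    have h1 := mul_le_mul_of_nonneg_right hδ2 hF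
    have h2 : 0 ≤ δ * (F : ℝ) := by positivity
    nlinarith
  calc (3 * (F : ℝ)) ^ j * muG (s ::ₘ Q) F g * Real.exp (4 * β * δ * F - ε * δ₁ * F) *
        ∑ w ∈ S, PRW x w * Real.exp (2 * ε * wvol w)
      ≤ (3 * (F : ℝ)) ^ j * muG (s ::ₘ Q) F g * Real.exp (4 * β * δ * F - ε * δ₁ * F) *
        (C * Real.exp (2 * C * ε * (δ * F))) :=
        mul_le_mul_of_nonneg_left (hv.trans hv2) (by positivity)
    _ = C * (3 * (F : ℝ)) ^ j * muG (s ::ₘ Q) F g *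
        (Real.exp (4 * β * δ * F - ε * δ₁ * F) * Real.exp (2 * C * ε * (δ * F))) := by ring
    _ ≤ C * (3 * (F : ℝ)) ^ j * muG (s ::ₘ Q) F g * 1 :=
        mul_le_mul_of_nonneg_left hfin (by positivity)
    _ = C * (3 * (F : ℝ)) ^ j * muG (s ::ₘ Q) F g := mul_one _

end SYS.Num
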