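import Pool.Agent.SYS.VI.GroU
import Pool.Agent.SYS.VI.GroV
import Pool.Agent.SYS.GR.Plus

/-!
# SYS-VI-GroP: the layers do not grow faster than `exp κ` in the maps

Words with few triangles: `GR.gro_plus` for the cut supermartingale `UN`; words with a positive fraction of all
triangles: `far_vol`.
-/

namespace SYS.Num

variable {θ x : ℝ}

private theorem gp_pf {W V : Finset (List Stp)} (h : PF W) (hV : ∀ w ∈ V, w ∈ W) : PF V :=
  fun u hu w hw huw => h u (hV u hu) w (hV w hw) huw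

theorem groP (h : Par θ x) {δ : ℝ} (hδ : 0 < δ) (s₀ : ℕ) :
    ∃ (c C δ' : ℝ) (M : ℕ), 0 < c ∧ 0 < C ∧ 0 < δ' ∧
    ∀ (Q : Multiset ℕ) (F g s : ℕ) (b P : ℝ) (S : Finset (List Stp)), 1 ≤ s → s ≤ s₀ → (s : ℝ) ≤ b →
      b ≤ P → P ≤ δ' * F → Win θ δ' M (s ::ₘ Q) F g → PF S →
      (∀ w ∈ S, WOk s w ∧ wvol w ≤ F ∧ (∀ u, u <+: w → u ≠ w → (wend s u : ℝ) < P) ∧
        (b * Real.exp ((1 + δ) * (2 * x) * (GR.lay s w + 1)) ≤ wend s w ∨
          C * (b * Real.exp ((1 + δ) * (2 * x) * (GR.lay s w + 1))) ≤ wvol w)) →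
      ∑ w ∈ S, wwt 1 W w * muG (wend s w ::ₘ Q) (F - wvol w) g ≤
        C * Real.exp (-c * b) * muG (s ::ₘ Q) F g := by
  classical
  have hθ : 0 < θ := h.1
  have hx : 0 < x := h.2.2.1
  obtain ⟨ε, c₁, C₁, hε, hc₁, hC₁, hgro⟩ := GR.gro_plus (law hx) δ hδ
  obtain ⟨K, δa, Ma, hK, hδa, hUNle⟩ := UN_le h hε s₀
  obtain ⟨δb, Mb, hδb, hUNsum⟩ := UN_sum h s₀
  obtain ⟨δ₁, hδ₁d⟩ : ∃ δ₁ : ℝ, δ₁ = min δa (min (δb / 2) 1) := ⟨_, rfl⟩
  have hδ₁ : 0 < δ₁ := by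
    rw [hδ₁d]
    exact lt_min hδa (lt_min (by linarith) one_pos)
  have hδ₁a : δ₁ ≤ δa := by rw [hδ₁d]; exact min_le_left _ _
  have hδ₁b : δ₁ ≤ δb / 2 := by rw [hδ₁d]; exact (min_le_right _ _).trans (min_le_left _ _)
  have hδ₁1 : δ₁ ≤ 1 := by rw [hδ₁d]; exact (min_le_right _ _).trans (min_le_right _ _)
  obtain ⟨c₂, δc, Mc, hc₂, hδc, hfar⟩ := far_vol h s₀ hδ₁
  obtain ⟨δ', hδ'd⟩ : ∃ δ' : ℝ, δ' = min (min δa δb) (min δc (min (θ / 2) 1)) := ⟨_, rfl⟩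
  have hδ' : 0 < δ' := by
    rw [hδ'd]
    exact lt_min (lt_min hδa hδb) (lt_min hδc (lt_min (by linarith) one_pos))
  have hδ'a : δ' ≤ δa := by rw [hδ'd]; exact (min_le_left _ _).trans (min_le_left _ _)
  have hδ'b : δ' ≤ δb := by rw [hδ'd]; exact (min_le_left _ _).trans (min_le_right _ _)
  have hδ'c : δ' ≤ δc := by rw [hδ'd]; exact (min_le_right _ _).trans (min_le_left _ _)
  have hδ'θ : δ' ≤ θ / 2 := by
    rw [hδ'd]
    exact (min_le_right _ _).trans ((min_le_right _ _).trans (min_le_left _ _))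
  have hδ'1 : δ' ≤ 1 := by
    rw [hδ'd]
    exact (min_le_right _ _).trans ((min_le_right _ _).trans (min_le_right _ _))
  obtain ⟨Md, hMd⟩ := exists_nat_ge ((s₀ : ℝ) / (δb / 2))
  refine ⟨min c₁ c₂, C₁ + C₁ * K + 1, δ', Ma + Mb + Mc + Md + 1, lt_min hc₁ hc₂, by positivity, hδ', ?_⟩
  intro Q F g s b P S hs hs₀ hsb hbP hPF hwin hS hw
  have hMF : Ma + Mb + Mc + Md + 1 ≤ F := hwin.1
  have hF1 : (1 : ℝ) ≤ F := by exact_mod_cast (by omega : 1 ≤ F)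
  have hF0 : (0 : ℝ) < F := by linarith
  have hMdF : (Md : ℝ) ≤ F := by exact_mod_cast (by omega : Md ≤ F)
  have hs1 : (1 : ℝ) ≤ s := by exact_mod_cast hs
  have hb1 : 1 ≤ b := hs1.trans hsb
  have hP1 : 1 ≤ P := hb1.trans hbP
  have hs₀F : (s₀ : ℝ) ≤ δb / 2 * F := by
    have h1 : (s₀ : ℝ) / (δb / 2) ≤ F := hMd.trans hMdF
    rw [div_le_iff₀ (by linarith)] at h1
    linarith
  have hg : g ≠ 0 := by
    rintro rfl
    have h1 := hwin.2.1
    rw [abs_le] at h1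
    have h2 : δ' * F ≤ θ / 2 * F := mul_le_mul_of_nonneg_right hδ'θ hF0.le
    have h3 : 0 < θ / 2 * F := by positivity
    push_cast at h1
    linarith [h1.1]
  have hμ : 0 ≤ muG (s ::ₘ Q) F g := muG_nonneg _ _ _
  set N : ℕ := ⌊δ₁ * F⌋₊ with hN
  have hNle : (N : ℝ) ≤ δ₁ * F := Nat.floor_le (by positivity)
  have hNa : (N : ℝ) ≤ δa * F := hNle.trans (mul_le_mul_of_nonneg_right hδ₁a hF0.le)
  have hNF : N ≤ F := by
    have h1 : (N : ℝ) ≤ F := hNle.trans (by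
      calc δ₁ * F ≤ 1 * F := mul_le_mul_of_nonneg_right hδ₁1 hF0.le
        _ = F := one_mul _)
    exact_mod_cast h1
  have hE : 0 < Real.exp (-min c₁ c₂ * b) := Real.exp_pos _
  -- words with few triangles
  have hA : ∑ w ∈ S.filter (fun w => wvol w ≤ N), wwt 1 W w * muG (wend s w ::ₘ Q) (F - wvol w) g ≤
      C₁ * K * Real.exp (-c₁ * b) * muG (s ::ₘ Q) F g := by
    refine hUNsum Q F g s N _ _ hs hs₀ hNF (hwin.mono hδ'b (by omega)) (fun w h1 => ?_)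
      (by positivity) ?_
    · obtain ⟨h2, h3⟩ := Finset.mem_filter.1 h1
      have h4 := (hw w h2).1
      refine ⟨h4, h3, ?_⟩
      have h5 : (wend s w : ℝ) ≤ (s : ℝ) + wvol w := by exact_mod_cast GR.wend_le s w h4
      have h6 : (wvol w : ℝ) ≤ N := by exact_mod_cast h3
      have h7 : (s : ℝ) ≤ s₀ := by exact_mod_cast hs₀
      have h8 : δ₁ * F ≤ δb / 2 * F := mul_le_mul_of_nonneg_right hδ₁b hF0.le
      linarith
    · refine hgro s b K (UN x Q g s F N) _ hs hsb hK.le (UN_SM hx Q g s F N hNF (Or.inr hg))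
        (hUNle Q F g s N hs hs₀ hNa (hwin.mono hδ'a (by omega)))
        (gp_pf hS fun w h1 => (Finset.mem_filter.1 h1).1) (fun w h1 => ?_)
      obtain ⟨h2, -, -, h3⟩ := hw w (Finset.mem_filter.1 h1).1
      refine ⟨h2, ?_⟩
      rw [law_kap hx]
      rcases h3 with h3 | h3
      · exact Or.inl h3
      · refine Or.inr (le_trans (mul_le_mul_of_nonneg_right ?_ (by positivity)) h3)
        have : 0 < C₁ * K := mul_pos hC₁ hK
        linarith
  -- words with many triangles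
  have hB : ∑ w ∈ S.filter (fun w => ¬ wvol w ≤ N), wwt 1 W w * muG (wend s w ::ₘ Q) (F - wvol w) g ≤
      Real.exp (-c₂ * F) * muG (s ::ₘ Q) F g := by
    refine hfar Q F g s P _ hs hs₀ hP1 (hPF.trans (mul_le_mul_of_nonneg_right hδ'c hF0.le))
      (hwin.mono hδ'c (by omega)) (gp_pf hS fun w h1 => (Finset.mem_filter.1 h1).1) (fun w h1 => ?_)
    obtain ⟨h2, h3⟩ := Finset.mem_filter.1 h1
    obtain ⟨h4, h5, h6, -⟩ := hw w h2
    refine ⟨h4, h5, ?_, h6⟩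
    have h7 : N + 1 ≤ wvol w := by omega
    have h8 : ((N : ℝ) + 1) ≤ wvol w := by exact_mod_cast h7
    have h9 : δ₁ * F < (N : ℝ) + 1 := Nat.lt_floor_add_one _
    linarith
  have hbF : b ≤ F := by
    have h1 : δ' * F ≤ 1 * F := mul_le_mul_of_nonneg_right hδ'1 hF0.le
    linarith
  have h1 : Real.exp (-c₁ * b) ≤ Real.exp (-min c₁ c₂ * b) := by
    apply Real.exp_le_exp.2
    have : min c₁ c₂ * b ≤ c₁ * b := mul_le_mul_of_nonneg_right (min_le_left _ _) (by linarith)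
    linarith
  have h2 : Real.exp (-c₂ * F) ≤ Real.exp (-min c₁ c₂ * b) := by
    apply Real.exp_le_exp.2
    have h3 : min c₁ c₂ * b ≤ c₂ * b := mul_le_mul_of_nonneg_right (min_le_right _ _) (by linarith)
    have h4 : c₂ * b ≤ c₂ * F := mul_le_mul_of_nonneg_left hbF hc₂.le
    linarith
  rw [← Finset.sum_filter_add_sum_filter_not S (fun w => wvol w ≤ N)]
  have h3 : C₁ * K * Real.exp (-c₁ * b) ≤ C₁ * K * Real.exp (-min c₁ c₂ * b) :=
    mul_le_mul_of_nonneg_left h1 (by positivity)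
  have h4 : 0 ≤ C₁ * Real.exp (-min c₁ c₂ * b) * muG (s ::ₘ Q) F g := by positivity
  have h5 := mul_le_mul_of_nonneg_right h3 hμ
  have h6 := mul_le_mul_of_nonneg_right h2 hμ
  have h7 : (C₁ + C₁ * K + 1) * Real.exp (-min c₁ c₂ * b) * muG (s ::ₘ Q) F g =
      C₁ * Real.exp (-min c₁ c₂ * b) * muG (s ::ₘ Q) F g +
      C₁ * K * Real.exp (-min c₁ c₂ * b) * muG (s ::ₘ Q) F g +
      Real.exp (-min c₁ c₂ * b) * muG (s ::ₘ Q) F g := by ring
  rw [h7]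
  linarith

end SYS.Num
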