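import Pool.Agent.SYS.VI.Fw
import Pool.Agent.SYS.VI.Ub
import Pool.Agent.SYS.BD.FH
import Pool.Agent.SYS.PL.RwB

/-!
# SYS-VI-Vis: expected number of visits to a perimeter (2.8)

`vis_eq` (words `q → q`). PROOF. `all_up` (`v = wvol w` is even if `wwt 1 W w ≠ 0`, `word_par`):
`muG (q ::ₘ Q) (F - v) g ≤ ((1 + ε) y) ^ (v / 2) * muG (q ::ₘ Q) F g`; `PRW_eq` with `s = e = q`: `wwt 1 W w * √y ^ v = PRW x w`. So the sum is
`≤ ∑ PRW x w * √(1 + ε) ^ v * muG (q ::ₘ Q) F g ≤ C * muG ..` by `visits` (`s = e`, `√(1 + ε) ≤ exp ε₀`).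
`vis` (`p ≤ q`). PROOF. Let `δ₁` be the `δ` of `vis_eq` divided by `8`. Words with `wvol (pfx q p w) > δ₁ F` (so `wvol w ≥ δ₁ F`): `far_words` with `P' = q ::ₘ Q`, `j = 0`. The others: `w = u ++ v`, `u = pfx q p w`
(`FH p q u`), `v = sfx q p w` a word `q → q`; sum over `v` for fixed `u`: `vis_eq` at `F - wvol u` (`Win.shift`), then the sum over `u`: `hist`
(the `u` with `FH p q u` form a prefix-free set: `FH_eq`). Facts on `pfx`, `sfx` for words that visit `q`: `BD/FH.lean` (`FH_pfx` is for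
`FH` words; prove by induction: if `WOk p w`, `p ≤ q ≤ wend p w` then `FH p q (pfx q p w)`, `WOk q (sfx q p w)`, `wend q (sfx q p w) = wend p w`; lemma `cut`).
`vis_low`: `p ≤ q`: `vis`. `q < p ≤ q + p₀`: word by word, as in `vis_eq`: `UU q (F - v) ≤ K exp (ε v) UU p F` (`ub_low`), `word_UU`, and `visits` (`s = p`, `e = q`, `exp (- c (s - e)) ≤ 1`).
-/

namespace SYS.Num

variable {θ x : ℝ}

private theorem vi_nil (e : ℕ) : FH e e [] := by
  refine ⟨trivial, rfl, ?_⟩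
  intro u hu hn
  exact (hn (List.prefix_nil.1 hu)).elim

private theorem vi_cons {s p : ℕ} {t : Stp} {w : List Stp} (h1 : s ≠ p) (h2 : t.Ok s)
    (h3 : FH (t.nx s) p w) : FH s p (t :: w) := by
  refine ⟨⟨h2, h3.1⟩, h3.2.1, ?_⟩
  intro u hu hn
  cases u with
  | nil => exact h1
  | cons t' u =>
    obtain ⟨h6, h7⟩ := List.cons_prefix_cons.1 hu
    rw [h6] at hn ⊢
    exact h3.2.2 u h7 (fun h8 => hn (by rw [h8]))

private theorem vi_nx (s : ℕ) (t : Stp) : t.nx s ≤ s + 1 := by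
  cases t with
  | T => exact le_rfl
  | L k a => show s - (k + 2) ≤ s + 1; omega
  | R k a => show s - (k + 2) ≤ s + 1; omega

theorem cut {p q : ℕ} {w : List Stp} (h : WOk p w) (hp : p ≤ q) (hq : q ≤ wend p w) :
    FH p q (pfx q p w) ∧ WOk q (sfx q p w) ∧ wend q (sfx q p w) = wend p w := by
  induction w generalizing p with
  | nil =>
    have h1 : p = q := le_antisymm hp hq
    subst h1
    exact ⟨vi_nil p, trivial, rfl⟩
  | cons t w ih =>
    have e1 : pfx q p (t :: w) = if p = q then [] else t :: pfx q (t.nx p) w := rfl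
    have e2 : sfx q p (t :: w) = if p = q then t :: w else sfx q (t.nx p) w := rfl
    by_cases h1 : p = q
    · rw [e1, e2, if_pos h1, if_pos h1]
      subst h1
      exact ⟨vi_nil p, h, rfl⟩
    · rw [e1, e2, if_neg h1, if_neg h1]
      have h3 := vi_nx p t
      rw [wend_cons] at hq ⊢
      obtain ⟨h4, h5, h6⟩ := ih h.2 (by omega) hq
      exact ⟨vi_cons h1 h.1 h4, h5, h6⟩

private theorem vi_A (x : ℝ) : 0 < AA x := by
  have := AA_gt x
  linarith

private theorem vi_prw (x : ℝ) (w : List Stp) : 0 ≤ PRW x w := wwt_nonneg (vi_A x).le (qq_nonneg x) w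

private theorem vi_ww (w : List Stp) : 0 ≤ wwt 1 W w := wwt_nonneg zero_le_one W_nonneg w

private theorem vi_x (h : Par θ x) : 0 < x := h.2.2.1

theorem vis_eq (h : Par θ x) : ∃ (C δ : ℝ) (M : ℕ), 0 < C ∧ 0 < δ ∧
    ∀ (Q : Multiset ℕ) (F g q : ℕ) (S : Finset (List Stp)), Win θ δ M (q ::ₘ Q) F g →
      (∀ w ∈ S, WOk q w ∧ wend q w = q ∧ wvol w ≤ F) →
      ∑ w ∈ S, wwt 1 W w * muG (q ::ₘ Q) (F - wvol w) g ≤ C * muG (q ::ₘ Q) F g := by
  obtain ⟨C, c, ε, hC, hc, hε, hv⟩ := visits (vi_x h)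
  obtain ⟨δ, M, hδ, hu⟩ := all_up h hε
  refine ⟨C, δ, M, hC, hδ, ?_⟩
  intro Q F g q S hw hS
  have hA := vi_A x
  have hy : 0 < √(yy x) := Real.sqrt_pos.2 (SYS.RB.yy_pos x)
  have hm := muG_nonneg (q ::ₘ Q) F g
  have key : ∀ w ∈ S, wwt 1 W w * muG (q ::ₘ Q) (F - wvol w) g ≤
      PRW x w * Real.exp (ε * wvol w) * muG (q ::ₘ Q) F g := by
    intro w hwS
    obtain ⟨h1, h2, h3⟩ := hS w hwS
    have hp := vi_prw x w
    by_cases h0 : wwt 1 W w = 0
    · rw [h0, zero_mul]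
      positivity
    · have h4 := word_par h1 h0
      rw [h2] at h4
      obtain ⟨u, hu2⟩ : ∃ u, wvol w = 2 * u := by
        obtain ⟨k, hk⟩ := h4
        exact ⟨k - q, by omega⟩
      have h5 := hu (q ::ₘ Q) F g u hw (by omega)
      have h6 := PRW_eq x q w h1
      rw [h2] at h6
      have h7 : PRW x w = wwt 1 W w * yy x ^ u := by
        have e1 : √(yy x) ^ (wvol w + q) = yy x ^ u * √(yy x) ^ q := by
          rw [pow_add, hu2, pow_mul, Real.sq_sqrt (SYS.RB.yy_pos x).le]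
        rw [e1] at h6
        have e2 : AA x ^ q * √(yy x) ^ q ≠ 0 := by positivity
        apply mul_right_cancel₀ e2
        linarith
      have h8 : (1 + ε) ^ u ≤ Real.exp (ε * wvol w) := by
        have a1 : 1 + ε ≤ Real.exp ε := by
          have := Real.add_one_le_exp ε
          linarith
        calc (1 + ε) ^ u ≤ Real.exp ε ^ u := pow_le_pow_left₀ (by linarith) a1 u
          _ = Real.exp (ε * u) := by rw [← Real.exp_nat_mul, mul_comm]
          _ ≤ Real.exp (ε * wvol w) := by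
            apply Real.exp_le_exp.2
            apply mul_le_mul_of_nonneg_left _ hε.le
            rw [hu2]
            push_cast
            have : (0 : ℝ) ≤ u := Nat.cast_nonneg u
            linarith
      rw [hu2] at h8 ⊢
      calc wwt 1 W w * muG (q ::ₘ Q) (F - 2 * u) g
          ≤ wwt 1 W w * (((1 + ε) * yy x) ^ u * muG (q ::ₘ Q) F g) :=
            mul_le_mul_of_nonneg_left h5 (vi_ww w)
        _ = PRW x w * (1 + ε) ^ u * muG (q ::ₘ Q) F g := by
            rw [h7, mul_pow]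
            ring
        _ ≤ PRW x w * Real.exp (ε * ((2 * u : ℕ) : ℝ)) * muG (q ::ₘ Q) F g := by
            apply mul_le_mul_of_nonneg_right _ hm
            exact mul_le_mul_of_nonneg_left h8 hp
  have h9 := hv ε hε.le le_rfl q q S (fun w hwS => ⟨(hS w hwS).1, (hS w hwS).2.1⟩)
  rw [Nat.sub_self, Nat.cast_zero, mul_zero, mul_zero, sub_zero, Real.exp_zero, mul_one] at h9
  calc ∑ w ∈ S, wwt 1 W w * muG (q ::ₘ Q) (F - wvol w) g
      ≤ ∑ w ∈ S, PRW x w * Real.exp (ε * wvol w) * muG (q ::ₘ Q) F g := Finset.sum_le_sum key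
    _ = (∑ w ∈ S, PRW x w * Real.exp (ε * wvol w)) * muG (q ::ₘ Q) F g := by rw [Finset.sum_mul]
    _ ≤ C * muG (q ::ₘ Q) F g := mul_le_mul_of_nonneg_right h9 hm

private theorem vi_sub {δ : ℝ} {M : ℕ} {Q : Multiset ℕ} {F g p q : ℕ} (hp : 1 ≤ p) (hpq : p ≤ q)
    (hw : Win θ δ M (q ::ₘ Q) F g) : Win θ δ M (p ::ₘ Q) F g := by
  refine hw.sub ?_ ?_
  · rw [Multiset.sum_cons, Multiset.sum_cons]
    omega
  · intro r hr
    rw [Multiset.mem_cons] at hr
    rcases hr with rfl | hr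
    · exact hp
    · exact hw.2.2.2 r (Multiset.mem_cons_of_mem hr)

private theorem vi_g {δ : ℝ} {M : ℕ} {P : Multiset ℕ} {F g : ℕ} (h : Par θ x) (hδ : δ ≤ θ / 2) (hM : 1 ≤ M)
    (hw : Win θ δ M P F g) : g ≠ 0 := by
  intro hg
  obtain ⟨h1, h2, _, _⟩ := hw
  have hθ := h.1
  have hF : (1 : ℝ) ≤ F := by exact_mod_cast hM.trans h1
  rw [hg, Nat.cast_zero, mul_zero, zero_sub, abs_neg, abs_of_nonneg (by positivity)] at h2
  have h3 : δ * F ≤ θ / 2 * F := mul_le_mul_of_nonneg_right hδ (by linarith)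
  nlinarith

/-- the words with a short first part -/
private theorem vi_near {C δ : ℝ} {M : ℕ} (hC : 0 < C)
    (hv : ∀ (Q : Multiset ℕ) (F g q : ℕ) (S : Finset (List Stp)), Win θ δ M (q ::ₘ Q) F g →
      (∀ w ∈ S, WOk q w ∧ wend q w = q ∧ wvol w ≤ F) →
      ∑ w ∈ S, wwt 1 W w * muG (q ::ₘ Q) (F - wvol w) g ≤ C * muG (q ::ₘ Q) F g)
    (Q : Multiset ℕ) (F g p q : ℕ) (S : Finset (List Stp)) (hp : 1 ≤ p) (hpq : p ≤ q) (hg : g ≠ 0)
    (hw : ∀ w ∈ S, Win θ δ M (q ::ₘ Q) (F - wvol (pfx q p w)) g)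
    (hS : ∀ w ∈ S, WOk p w ∧ wend p w = q ∧ wvol w ≤ F) :
    ∑ w ∈ S, wwt 1 W w * muG (q ::ₘ Q) (F - wvol w) g ≤ C * muG (p ::ₘ Q) F g := by
  classical
  have hcut : ∀ w ∈ S, FH p q (pfx q p w) ∧ WOk q (sfx q p w) ∧ wend q (sfx q p w) = q := by
    intro w hwS
    obtain ⟨h1, h2, _⟩ := hS w hwS
    have h3 := cut h1 hpq (le_of_eq h2.symm)
    rw [h2] at h3
    exact h3
  have hvol : ∀ w, wvol w = wvol (pfx q p w) + wvol (sfx q p w) := by
    intro w
    rw [← wvol_append, pfx_sfx]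
  have hwt : ∀ w, wwt 1 W w = wwt 1 W (pfx q p w) * wwt 1 W (sfx q p w) := by
    intro w
    rw [← wwt_append, pfx_sfx]
  have hfib : ∀ u ∈ S.image (pfx q p), ∑ w ∈ S.filter (fun w => pfx q p w = u),
      wwt 1 W w * muG (q ::ₘ Q) (F - wvol w) g ≤ C * (wwt 1 W u * muG (wend p u ::ₘ Q) (F - wvol u) g) := by
    intro u hu
    obtain ⟨w₀, hw₀, hu₀⟩ := Finset.mem_image.1 hu
    have hend : wend p u = q := by
      rw [← hu₀]
      exact (hcut w₀ hw₀).1.2.1
    have hinj : Set.InjOn (sfx q p) (S.filter (fun w => pfx q p w = u) : Finset (List Stp)) := by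
      intro a ha b hb hab
      have ha' := (Finset.mem_filter.1 ha).2
      have hb' := (Finset.mem_filter.1 hb).2
      rw [← pfx_sfx q p a, ← pfx_sfx q p b, ha', hb', hab]
    have h1 : ∑ w ∈ S.filter (fun w => pfx q p w = u), wwt 1 W w * muG (q ::ₘ Q) (F - wvol w) g =
        wwt 1 W u * ∑ v ∈ (S.filter (fun w => pfx q p w = u)).image (sfx q p),
          wwt 1 W v * muG (q ::ₘ Q) (F - wvol u - wvol v) g := by
      rw [Finset.sum_image hinj, Finset.mul_sum]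
      refine Finset.sum_congr rfl fun w hw' => ?_
      have h2 := (Finset.mem_filter.1 hw').2
      rw [hwt w, hvol w, h2, Nat.sub_sub, mul_assoc]
    rw [h1, hend]
    have h3 := hv Q (F - wvol u) g q ((S.filter (fun w => pfx q p w = u)).image (sfx q p))
      (by rw [← hu₀]; exact hw w₀ hw₀) (by
        intro v hv'
        obtain ⟨w, hw1, rfl⟩ := Finset.mem_image.1 hv'
        obtain ⟨hw2, hw3⟩ := Finset.mem_filter.1 hw1
        obtain ⟨_, h5, h6⟩ := hcut w hw2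
        have h7 := (hS w hw2).2.2
        rw [hvol w, hw3] at h7
        exact ⟨h5, h6, by omega⟩)
    calc _ ≤ wwt 1 W u * (C * muG (q ::ₘ Q) (F - wvol u) g) := mul_le_mul_of_nonneg_left h3 (vi_ww u)
      _ = _ := by ring
  have hpf : PF (S.image (pfx q p)) := by
    intro u hu v hv' huv
    obtain ⟨a, ha, rfl⟩ := Finset.mem_image.1 hu
    obtain ⟨b, hb, rfl⟩ := Finset.mem_image.1 hv'
    exact FH_eq (hcut a ha).1 (hcut b hb).1 huv
  have hh := hist p hp Q F g (Or.inr hg) (S.image (pfx q p)) hpf (by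
    intro u hu
    obtain ⟨a, ha, rfl⟩ := Finset.mem_image.1 hu
    have h1 := hvol a
    have h2 := (hS a ha).2.2
    exact ⟨(hcut a ha).1.1, by omega⟩)
  calc ∑ w ∈ S, wwt 1 W w * muG (q ::ₘ Q) (F - wvol w) g
      = ∑ u ∈ S.image (pfx q p), ∑ w ∈ S.filter (fun w => pfx q p w = u),
          wwt 1 W w * muG (q ::ₘ Q) (F - wvol w) g :=
        (Finset.sum_fiberwise_of_maps_to (fun w hw' => Finset.mem_image_of_mem _ hw') _).symm
    _ ≤ ∑ u ∈ S.image (pfx q p), C * (wwt 1 W u * muG (wend p u ::ₘ Q) (F - wvol u) g) :=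
        Finset.sum_le_sum hfib
    _ = C * ∑ u ∈ S.image (pfx q p), wwt 1 W u * muG (wend p u ::ₘ Q) (F - wvol u) g := by
        rw [Finset.mul_sum]
    _ ≤ C * muG (p ::ₘ Q) F g := mul_le_mul_of_nonneg_left hh hC.le

theorem vis (h : Par θ x) : ∃ (C δ : ℝ) (M : ℕ), 0 < C ∧ 0 < δ ∧
    ∀ (Q : Multiset ℕ) (F g p q : ℕ) (S : Finset (List Stp)), 1 ≤ p → p ≤ q →
      Win θ δ M (q ::ₘ Q) F g → (∀ w ∈ S, WOk p w ∧ wend p w = q ∧ wvol w ≤ F) →
      ∑ w ∈ S, wwt 1 W w * muG (q ::ₘ Q) (F - wvol w) g ≤ C * muG (p ::ₘ Q) F g := by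
  classical
  obtain ⟨C₁, δ', M₁, hC₁, hδ', hv⟩ := vis_eq h
  have hd0 : 0 < min δ' 1 := lt_min hδ' one_pos
  have hd1 : min δ' 1 ≤ 1 := min_le_right _ _
  have hd2 : min δ' 1 ≤ δ' := min_le_left _ _
  generalize min δ' 1 = d at hd0 hd1 hd2
  obtain ⟨C₂, δ₂, M₂, hC₂, hδ₂, hf⟩ := far_words h (δ₁ := d / 8) (by positivity)
  have hθ := h.1
  have hθ1 : θ ≤ 1 / 2 := h.2.1.le
  refine ⟨C₂ + C₁, min (min δ₂ (d / 4)) (θ / 2), max (max M₂ (2 * M₁)) 1, by linarith, ?_, ?_⟩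
  · exact lt_min (lt_min hδ₂ (by positivity)) (by positivity)
  intro Q F g p q S hp hpq hw hS
  have hg := vi_g h (min_le_right _ _) (le_max_right _ _) hw
  have hw2 : Win θ δ₂ M₂ (q ::ₘ Q) F g :=
    hw.mono ((min_le_left _ _).trans (min_le_left _ _)) ((le_max_left _ _).trans (le_max_left _ _))
  have hw1 : Win θ (d / 4) (2 * M₁) (q ::ₘ Q) F g :=
    hw.mono ((min_le_left _ _).trans (min_le_right _ _)) ((le_max_right _ _).trans (le_max_left _ _))
  have hF : (0 : ℝ) ≤ F := Nat.cast_nonneg F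
  have hfar : ∑ w ∈ S.filter (fun w => d / 8 * F < wvol (pfx q p w)),
      wwt 1 W w * muG (q ::ₘ Q) (F - wvol w) g ≤ C₂ * muG (p ::ₘ Q) F g := by
    have h1 := hf Q (q ::ₘ Q) F g p q 0 (S.filter (fun w => d / 8 * F < wvol (pfx q p w))) hp
      (vi_sub hp hpq hw2) hw2.2.2.2 hw2.2.2.1 (by
        refine le_trans ?_ hw2.2.2.1
        have e : q ≤ (q ::ₘ Q).sum := by
          rw [Multiset.sum_cons]
          omega
        exact_mod_cast e) (by rw [Multiset.card_cons, add_zero]) (by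
        rw [Multiset.sum_cons]
        exact ⟨Q.sum + q, by ring⟩) (by
        intro w hw'
        obtain ⟨a1, a2⟩ := Finset.mem_filter.1 hw'
        obtain ⟨b1, b2, b3⟩ := hS w a1
        refine ⟨b1, b2, b3, ?_⟩
        have e : wvol w = wvol (pfx q p w) + wvol (sfx q p w) := by rw [← wvol_append, pfx_sfx]
        rw [e]
        push_cast
        have : (0 : ℝ) ≤ wvol (sfx q p w) := Nat.cast_nonneg _
        linarith)
    rwa [pow_zero, mul_one] at h1
  have hnear : ∑ w ∈ S.filter (fun w => ¬ d / 8 * F < wvol (pfx q p w)),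
      wwt 1 W w * muG (q ::ₘ Q) (F - wvol w) g ≤ C₁ * muG (p ::ₘ Q) F g := by
    refine vi_near hC₁ hv Q F g p q _ hp hpq hg ?_ (fun w hw' => hS w (Finset.mem_filter.1 hw').1)
    intro w hw'
    obtain ⟨a1, a2⟩ := Finset.mem_filter.1 hw'
    push Not at a2
    have a3 : wvol (pfx q p w) ≤ F := by
      have e : wvol w = wvol (pfx q p w) + wvol (sfx q p w) := by rw [← wvol_append, pfx_sfx]
      have := (hS w a1).2.2
      omega
    have a4 : ((F - wvol (pfx q p w) : ℕ) : ℝ) = F - wvol (pfx q p w) := Nat.cast_sub a3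
    have a5 : 0 ≤ d * (F : ℝ) := by positivity
    have a6 : (0 : ℝ) ≤ wvol (pfx q p w) := Nat.cast_nonneg _
    refine (Win.shift hw1 hθ.le hθ1 hd0.le hd1 ?_ ?_ hw1.2.2.1 hw1.2.2.2).mono hd2 le_rfl
    · rw [a4]
      linarith
    · rw [a4]
      linarith
  rw [← Finset.sum_filter_add_sum_filter_not S (fun w => d / 8 * F < wvol (pfx q p w)), add_mul]
  exact add_le_add hfar hnear

theorem vis_low (h : Par θ x) (p₀ : ℕ) : ∃ (C δ : ℝ) (M : ℕ), 0 < C ∧ 0 < δ ∧
    ∀ (Q : Multiset ℕ) (F g p q : ℕ) (S : Finset (List Stp)), 1 ≤ p → p ≤ q + p₀ →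
      Win θ δ M (q ::ₘ Q) F g → (∀ w ∈ S, WOk p w ∧ wend p w = q ∧ wvol w ≤ F) →
      ∑ w ∈ S, wwt 1 W w * muG (q ::ₘ Q) (F - wvol w) g ≤ C * muG (p ::ₘ Q) F g := by
  obtain ⟨C₁, δ₁, M₁, hC₁, hδ₁, h1⟩ := vis h
  obtain ⟨C, c, ε, hC, hc, hε, hv⟩ := visits (vi_x h)
  obtain ⟨K, δ₂, M₂, hK, hδ₂, h2⟩ := ub_low h hε p₀
  refine ⟨C₁ + K * C, min δ₁ δ₂, max M₁ M₂, by positivity, lt_min hδ₁ hδ₂, ?_⟩
  intro Q F g p q S hp hpq hw hS
  have hm := muG_nonneg (p ::ₘ Q) F g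
  rcases le_or_gt p q with hc1 | hc1
  · refine (h1 Q F g p q S hp hc1 (hw.mono (min_le_left _ _) (le_max_left _ _)) hS).trans ?_
    apply mul_le_mul_of_nonneg_right _ hm
    have : 0 < K * C := by positivity
    linarith
  · have hw2 : Win θ δ₂ M₂ (q ::ₘ Q) F g := hw.mono (min_le_right _ _) (le_max_right _ _)
    have hq : 1 ≤ q := hw.2.2.2 q (Multiset.mem_cons_self q Q)
    have hA := vi_A x
    have hy : 0 < √(yy x) := Real.sqrt_pos.2 (SYS.RB.yy_pos x)
    have key : ∀ w ∈ S, wwt 1 W w * muG (q ::ₘ Q) (F - wvol w) g ≤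
        PRW x w * Real.exp (ε * wvol w) * (K * muG (p ::ₘ Q) F g) := by
      intro w hwS
      obtain ⟨a1, a2, a3⟩ := hS w hwS
      have hpw := vi_prw x w
      by_cases h0 : wwt 1 W w = 0
      · rw [h0, zero_mul]
        positivity
      · have a4 := word_par a1 h0
        rw [a2] at a4
        have a5 := h2 Q F g p q (wvol w) hq hc1.le hpq a3 (by
          have e : p + q + wvol w = wvol w + q + p := by ring
          rw [e]
          exact a4) hw2
        have a6 := word_UU x Q g p F w a1 a3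
        rw [a2] at a6
        have a7 : 0 < √(yy x) ^ (F + p) / AA x ^ p := by positivity
        have a8 : UU x Q g p F = muG (p ::ₘ Q) F g * (√(yy x) ^ (F + p) / AA x ^ p) := by
          unfold UU
          rw [mul_div_assoc]
        refine le_of_mul_le_mul_right ?_ a7
        rw [a6]
        calc PRW x w * UU x Q g q (F - wvol w)
            ≤ PRW x w * (K * Real.exp (ε * wvol w) * UU x Q g p F) := mul_le_mul_of_nonneg_left a5 hpw
          _ = PRW x w * Real.exp (ε * wvol w) * (K * muG (p ::ₘ Q) F g) *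
              (√(yy x) ^ (F + p) / AA x ^ p) := by
            rw [a8]
            ring
    have h9 := hv ε hε.le le_rfl p q S (fun w hwS => ⟨(hS w hwS).1, (hS w hwS).2.1⟩)
    have h10 : C * Real.exp (C * ε * ((q - p : ℕ) : ℝ) - c * ((p - q : ℕ) : ℝ)) ≤ C := by
      have e1 : q - p = 0 := by omega
      have e2 : C * ε * ((q - p : ℕ) : ℝ) - c * ((p - q : ℕ) : ℝ) ≤ 0 := by
        rw [e1, Nat.cast_zero, mul_zero, zero_sub]
        have : 0 ≤ c * ((p - q : ℕ) : ℝ) := by positivity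
        linarith
      have e3 := Real.exp_le_one_iff.2 e2
      exact mul_le_of_le_one_right hC.le e3
    calc ∑ w ∈ S, wwt 1 W w * muG (q ::ₘ Q) (F - wvol w) g
        ≤ ∑ w ∈ S, PRW x w * Real.exp (ε * wvol w) * (K * muG (p ::ₘ Q) F g) := Finset.sum_le_sum key
      _ = (∑ w ∈ S, PRW x w * Real.exp (ε * wvol w)) * (K * muG (p ::ₘ Q) F g) := by rw [Finset.sum_mul]
      _ ≤ C * (K * muG (p ::ₘ Q) F g) := mul_le_mul_of_nonneg_right (h9.trans h10) (by positivity)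
      _ ≤ (C₁ + K * C) * muG (p ::ₘ Q) F g := by
        have : 0 ≤ C₁ * muG (p ::ₘ Q) F g := by positivity
        linarith

end SYS.Num
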